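import Pool.Agent.Lib.MP_2392aa_gt.Defs

/-! Linear maps contracting a hyperplane or a line (for MP_2392aa_gt). -/

open scoped ContDiff
open Metric

namespace LatLin

section Sz
variable {E : Type*} [NormedAddCommGroup E] [NormedSpace ℝ E]

theorem norm_le_sz (g : E ≃L[ℝ] E) (x : E) : ‖g x‖ ≤ sz g * ‖x‖ :=
  ((g : E →L[ℝ] E).le_opNorm x).trans (mul_le_mul_of_nonneg_right (le_max_left _ _) (norm_nonneg _))

theorem norm_inv_le_sz (g : E ≃L[ℝ] E) (x : E) : ‖g⁻¹ x‖ ≤ sz g * ‖x‖ :=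
  (((g⁻¹ : E ≃L[ℝ] E) : E →L[ℝ] E).le_opNorm x).trans
    (mul_le_mul_of_nonneg_right (le_max_right _ _) (norm_nonneg _))

theorem sz_nonneg (g : E ≃L[ℝ] E) : 0 ≤ sz g := (norm_nonneg _).trans (le_max_left _ _)

theorem sz_inv (g : E ≃L[ℝ] E) : sz g⁻¹ = sz g := by
  unfold sz
  rw [inv_inv, max_comm]

theorem sz_le_of {g : E ≃L[ℝ] E} {C : ℝ} (hC : 0 ≤ C) (h1 : ∀ x, ‖g x‖ ≤ C * ‖x‖)
    (h2 : ∀ x, ‖g⁻¹ x‖ ≤ C * ‖x‖) : sz g ≤ C :=
  max_le (ContinuousLinearMap.opNorm_le_bound _ hC h1) (ContinuousLinearMap.opNorm_le_bound _ hC h2)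

theorem sz_mul (g h : E ≃L[ℝ] E) : sz (g * h) ≤ sz g * sz h := by
  apply sz_le_of (mul_nonneg (sz_nonneg _) (sz_nonneg _))
  · intro x
    calc ‖g (h x)‖ ≤ sz g * ‖h x‖ := norm_le_sz _ _
      _ ≤ sz g * (sz h * ‖x‖) := mul_le_mul_of_nonneg_left (norm_le_sz _ _) (sz_nonneg _)
      _ = sz g * sz h * ‖x‖ := by ring
  · intro x
    rw [mul_inv_rev]
    calc ‖h⁻¹ (g⁻¹ x)‖ ≤ sz h * ‖g⁻¹ x‖ := norm_inv_le_sz _ _
      _ ≤ sz h * (sz g * ‖x‖) := mul_le_mul_of_nonneg_left (norm_inv_le_sz _ _) (sz_nonneg _)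
      _ = sz g * sz h * ‖x‖ := by ring

theorem IsSL.one : IsSL (1 : E ≃L[ℝ] E) := by
  unfold IsSL
  exact LinearMap.det_id

theorem IsSL.mul {g h : E ≃L[ℝ] E} (hg : IsSL g) (hh : IsSL h) : IsSL (g * h) := by
  unfold IsSL at *
  have : (((g * h : E ≃L[ℝ] E) : E →L[ℝ] E) : E →ₗ[ℝ] E)
      = ((g : E →L[ℝ] E) : E →ₗ[ℝ] E) * ((h : E →L[ℝ] E) : E →ₗ[ℝ] E) := rfl
  rw [this, map_mul, hg, hh, one_mul]

theorem IsSL.inv {g : E ≃L[ℝ] E} (hg : IsSL g) : IsSL g⁻¹ := by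
  unfold IsSL at *
  have : (((g⁻¹ : E ≃L[ℝ] E) : E →L[ℝ] E) : E →ₗ[ℝ] E) * ((g : E →L[ℝ] E) : E →ₗ[ℝ] E) = 1 := by
    ext x
    exact g.symm_apply_apply x
  have h2 := congrArg LinearMap.det this
  rw [map_mul, hg, mul_one, map_one] at h2
  exact h2

end Sz

section Geom
variable {E : Type*} [NormedAddCommGroup E] [InnerProductSpace ℝ E]

/-- acts by `a` on the orthogonal complement of `ν` and by `b` on `ν` -/
noncomputable def Rlin (ν : E) (a b : ℝ) : E →ₗ[ℝ] E :=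
  a • LinearMap.id + (b - a) • (innerₛₗ ℝ ν).smulRight ν

theorem Rlin_apply (ν : E) (a b : ℝ) (x : E) :
    Rlin ν a b x = a • x + ((b - a) * inner ℝ ν x) • ν := by
  simp [Rlin, mul_smul]

theorem Rlin_comp {ν : E} (hν : ‖ν‖ = 1) (a b a' b' : ℝ) (x : E) :
    Rlin ν a b (Rlin ν a' b' x) = Rlin ν (a * a') (b * b') x := by
  have h1 : inner ℝ ν ν = (1 : ℝ) := by rw [real_inner_self_eq_norm_sq, hν]; norm_num
  simp only [Rlin_apply, inner_add_right, inner_smul_right, h1, smul_add, smul_smul, add_assoc, ← add_smul]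
  congr 2
  ring

theorem Rlin_one (ν : E) (x : E) : Rlin ν 1 1 x = x := by
  simp [Rlin_apply]

theorem Rlin_perp {ν : E} (a b : ℝ) {x : E} (hx : inner ℝ ν x = (0 : ℝ)) : Rlin ν a b x = a • x := by
  simp [Rlin_apply, hx]

theorem Rlin_self {ν : E} (hν : ‖ν‖ = 1) (a b : ℝ) : Rlin ν a b ν = b • ν := by
  have h1 : inner ℝ ν ν = (1 : ℝ) := by rw [real_inner_self_eq_norm_sq, hν]; norm_num
  rw [Rlin_apply, h1, mul_one, ← add_smul]
  congr 1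
  ring

/-- decomposition along a unit vector -/
theorem norm_decomp {ν : E} (hν : ‖ν‖ = 1) (a b : ℝ) (x : E) :
    ‖Rlin ν a b x‖ ^ 2 = a ^ 2 * ‖x - (inner ℝ ν x : ℝ) • ν‖ ^ 2 + b ^ 2 * (inner ℝ ν x : ℝ) ^ 2 := by
  set t : ℝ := inner ℝ ν x with ht
  have h1 : inner ℝ ν ν = (1 : ℝ) := by rw [real_inner_self_eq_norm_sq, hν]; norm_num
  have h2 : Rlin ν a b x = a • (x - t • ν) + (b * t) • ν := by
    rw [Rlin_apply, ← ht, smul_sub, smul_smul, sub_add, ← sub_smul]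
    rw [show a * t - b * t = -((b - a) * t) by ring, neg_smul, sub_neg_eq_add]
  have h3 : inner ℝ (a • (x - t • ν)) ((b * t) • ν) = (0 : ℝ) := by
    rw [inner_smul_left, inner_smul_right, inner_sub_left, inner_smul_left, h1,
      real_inner_comm, ← ht]
    simp
  rw [h2, @norm_add_sq_real, h3, norm_smul, norm_smul, hν, mul_pow, mul_pow]
  simp only [Real.norm_eq_abs, sq_abs]
  ring

theorem Rlin_norm_le {ν : E} (hν : ‖ν‖ = 1) {a b c : ℝ} (ha : |a| ≤ c) (hb : |b| ≤ c) (x : E) :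
    ‖Rlin ν a b x‖ ≤ c * ‖x‖ := by
  have hc : 0 ≤ c := (abs_nonneg _).trans ha
  have h1 := norm_decomp hν a b x
  have h2 := norm_decomp hν 1 1 x
  rw [Rlin_one] at h2
  have h3 : ‖Rlin ν a b x‖ ^ 2 ≤ (c * ‖x‖) ^ 2 := by
    rw [h1, mul_pow, h2]
    have ha2 : a ^ 2 ≤ c ^ 2 := by rw [← sq_abs]; exact pow_le_pow_left₀ (abs_nonneg _) ha 2
    have hb2 : b ^ 2 ≤ c ^ 2 := by rw [← sq_abs]; exact pow_le_pow_left₀ (abs_nonneg _) hb 2
    nlinarith [mul_le_mul_of_nonneg_right ha2 (sq_nonneg ‖x - (inner ℝ ν x : ℝ) • ν‖),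
      mul_le_mul_of_nonneg_right hb2 (sq_nonneg (inner ℝ ν x : ℝ))]
  exact (le_abs_self _).trans (abs_le_of_sq_le_sq h3 (mul_nonneg hc (norm_nonneg _)))

variable [FiniteDimensional ℝ E]

theorem det_Rlin {ν : E} (hν : ‖ν‖ = 1) {a : ℝ} (ha : a ≠ 0) (b : ℝ) :
    LinearMap.det (Rlin ν a b) = a ^ Module.finrank ℝ E * (b / a) := by
  have h1 : Rlin ν a b = a • LinearMap.transvection ((b / a - 1) • (innerₛₗ ℝ ν : Module.Dual ℝ E)) ν := by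
    ext x
    rw [Rlin_apply]
    simp only [LinearMap.smul_apply, LinearMap.transvection.apply, smul_add, smul_smul,
      innerₛₗ_apply_apply, smul_eq_mul]
    congr 2
    field_simp
  rw [h1, LinearMap.det_smul, LinearMap.transvection.det]
  congr 1
  simp [hν]

/-- contraction (or expansion) of a hyperplane of determinant one -/
noncomputable def R (ν : E) (a : ℝ) : E ≃L[ℝ] E :=
  if h : ‖ν‖ = 1 ∧ 0 < a then
    (LinearEquiv.ofLinearMap (Rlin ν a ((a ^ (Module.finrank ℝ E - 1))⁻¹))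
      (Rlin ν a⁻¹ (a ^ (Module.finrank ℝ E - 1)))
      (by
        ext x
        simp only [LinearMap.comp_apply, Rlin_comp h.1, LinearMap.id_apply]
        rw [mul_inv_cancel₀ h.2.ne', inv_mul_cancel₀ (pow_pos h.2 _).ne', Rlin_one])
      (by
        ext x
        simp only [LinearMap.comp_apply, Rlin_comp h.1, LinearMap.id_apply]
        rw [inv_mul_cancel₀ h.2.ne', mul_inv_cancel₀ (pow_pos h.2 _).ne', Rlin_one])).toContinuousLinearEquiv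
  else 1

theorem R_apply {ν : E} (hν : ‖ν‖ = 1) {a : ℝ} (ha : 0 < a) (x : E) :
    R ν a x = Rlin ν a ((a ^ (Module.finrank ℝ E - 1))⁻¹) x := by
  unfold R
  rw [dif_pos ⟨hν, ha⟩]
  rfl

theorem R_inv_apply {ν : E} (hν : ‖ν‖ = 1) {a : ℝ} (ha : 0 < a) (x : E) :
    (R ν a)⁻¹ x = Rlin ν a⁻¹ (a ^ (Module.finrank ℝ E - 1)) x := by
  unfold R
  rw [dif_pos ⟨hν, ha⟩]
  rfl

theorem R_mul {ν : E} (hν : ‖ν‖ = 1) {a b : ℝ} (ha : 0 < a) (hb : 0 < b) :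
    R ν (a * b) = R ν a * R ν b := by
  ext x
  change _ = R ν a (R ν b x)
  rw [R_apply hν (mul_pos ha hb), R_apply hν ha, R_apply hν hb, Rlin_comp hν, mul_pow, mul_inv]

theorem R_one {ν : E} (hν : ‖ν‖ = 1) : R ν 1 = 1 := by
  ext x
  rw [R_apply hν one_pos, one_pow, inv_one, Rlin_one]
  rfl

theorem R_pow {ν : E} (hν : ‖ν‖ = 1) {a : ℝ} (ha : 0 < a) (k : ℕ) : R ν (a ^ k) = R ν a ^ k := by
  induction k with
  | zero => rw [pow_zero, pow_zero, R_one hν]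
  | succ k ih => rw [pow_succ, pow_succ, R_mul hν (pow_pos ha k) ha, ih]

theorem R_SL (hn : 1 ≤ Module.finrank ℝ E) {ν : E} (hν : ‖ν‖ = 1) {a : ℝ} (ha : 0 < a) :
    IsSL (R ν a) := by
  unfold IsSL
  have h1 : ((R ν a : E →L[ℝ] E) : E →ₗ[ℝ] E) = Rlin ν a ((a ^ (Module.finrank ℝ E - 1))⁻¹) := by
    ext x
    exact R_apply hν ha x
  rw [h1, det_Rlin hν ha.ne']
  obtain ⟨m, hm⟩ : ∃ m, Module.finrank ℝ E = m + 1 := ⟨Module.finrank ℝ E - 1, by omega⟩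
  rw [hm, Nat.add_sub_cancel]
  have := (pow_pos ha m).ne'
  field_simp
  rw [pow_succ]

theorem R_perp {ν : E} (hν : ‖ν‖ = 1) {a : ℝ} (ha : 0 < a) {x : E} (hx : inner ℝ ν x = (0 : ℝ)) :
    R ν a x = a • x := by
  rw [R_apply hν ha, Rlin_perp _ _ hx]

theorem R_self {ν : E} (hν : ‖ν‖ = 1) {a : ℝ} (ha : 0 < a) :
    R ν a ν = (a ^ (Module.finrank ℝ E - 1))⁻¹ • ν := by
  rw [R_apply hν ha, Rlin_self hν]

theorem R_norm_le {ν : E} (hν : ‖ν‖ = 1) {a c : ℝ} (ha : 0 < a) (h1 : a ≤ c)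
    (h2 : (a ^ (Module.finrank ℝ E - 1))⁻¹ ≤ c) (x : E) : ‖R ν a x‖ ≤ c * ‖x‖ := by
  rw [R_apply hν ha]
  apply Rlin_norm_le hν
  · rwa [abs_of_pos ha]
  · rwa [abs_of_pos (inv_pos.mpr (pow_pos ha _))]

theorem R_inv_norm_le {ν : E} (hν : ‖ν‖ = 1) {a c : ℝ} (ha : 0 < a) (h1 : a⁻¹ ≤ c)
    (h2 : a ^ (Module.finrank ℝ E - 1) ≤ c) (x : E) : ‖(R ν a)⁻¹ x‖ ≤ c * ‖x‖ := by
  rw [R_inv_apply hν ha]
  apply Rlin_norm_le hν
  · rwa [abs_of_pos (inv_pos.mpr ha)]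
  · rwa [abs_of_pos (pow_pos ha _)]

theorem R_comm {ν ν' : E} (hν : ‖ν‖ = 1) (hν' : ‖ν'‖ = 1) (h : inner ℝ ν ν' = (0 : ℝ)) {a b : ℝ}
    (ha : 0 < a) (hb : 0 < b) : R ν a * R ν' b = R ν' b * R ν a := by
  ext x
  change R ν a (R ν' b x) = R ν' b (R ν a x)
  have h' : inner ℝ ν' ν = (0 : ℝ) := by rw [real_inner_comm]; exact h
  rw [R_apply hν ha, R_apply hν' hb, R_apply hν' hb, R_apply hν ha]
  simp only [Rlin_apply, inner_add_right, inner_smul_right, h, h', smul_add, smul_smul, mul_zero,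
    add_zero]
  rw [add_assoc, add_assoc]
  congr 1
  · rw [mul_comm]
  · rw [add_comm]
    congr 2 <;> ring

end Geom
end LatLin
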