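import Mathlib

/-! The derivative representation at a fixed point (for MP_2392aa_gt). -/

open scoped ContDiff Manifold

namespace LatLin

theorem exists_derivHom {E : Type*} [NormedAddCommGroup E] [NormedSpace ℝ E] {M : Type*}
    [TopologicalSpace M] [ChartedSpace E M] {H : Type*} [Group H] [MulAction H M]
    (hs : ∀ γ : H, ContMDiff 𝓘(ℝ, E) 𝓘(ℝ, E) ∞ (fun x : M => γ • x))
    (p : M) (hp : ∀ γ : H, γ • p = p) :
    ∃ ρ : H →* (E ≃L[ℝ] E), ∀ (γ : H) (v : E),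
      (mfderiv 𝓘(ℝ, E) 𝓘(ℝ, E) (fun x : M => γ • x) p : E →L[ℝ] E) v = ρ γ v := by
  set d : H → (E →L[ℝ] E) := fun γ => mfderiv 𝓘(ℝ, E) 𝓘(ℝ, E) (fun x : M => γ • x) p with hd
  have h1 : ∀ (γ : H) (q : M), q = p →
      HasMFDerivAt 𝓘(ℝ, E) 𝓘(ℝ, E) (fun x : M => γ • x) q (d γ) := by
    rintro γ q rfl
    exact ((hs γ).mdifferentiable (by simp) q).hasMFDerivAt
  have hone : d 1 = 1 := by
    have h2 : HasMFDerivAt 𝓘(ℝ, E) 𝓘(ℝ, E) (fun x : M => (1 : H) • x) p (ContinuousLinearMap.id ℝ E) := by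
      have h3 : (fun x : M => (1 : H) • x) = id := by
        ext x
        simp
      rw [h3]
      exact hasMFDerivAt_id p
    exact hasMFDerivAt_unique (h1 1 p rfl) h2
  have hmul : ∀ γ δ, d (γ * δ) = d γ * d δ := by
    intro γ δ
    have h2 := (h1 γ (δ • p) (hp δ)).comp p (h1 δ p rfl)
    have h3 : ((fun x : M => γ • x) ∘ fun x : M => δ • x) = fun x : M => (γ * δ) • x := by
      ext x
      simp [mul_smul]
    rw [h3] at h2
    exact hasMFDerivAt_unique (h1 (γ * δ) p rfl) h2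
  let ρ0 : H →* (E →L[ℝ] E) := { toFun := d, map_one' := hone, map_mul' := hmul }
  refine ⟨(ContinuousLinearEquiv.unitsEquiv ℝ E).toMonoidHom.comp ρ0.toHomUnits, fun γ v => ?_⟩
  rfl

end LatLin
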