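import Pool.Agent.Lib.MP_2392aa_gt.Canon

/-! Local linearization (for MP_2392aa_gt). -/

open scoped ContDiff Nat Topology
open Metric Filter

namespace LatLin

variable {E : Type*} [NormedAddCommGroup E] [InnerProductSpace ℝ E] [FiniteDimensional ℝ E]

theorem local_lin (hn : 3 ≤ Module.finrank ℝ E) {Γ M : Type*} [Group Γ]
    [TopologicalSpace M] [T2Space M] [MulAction Γ M] [ContinuousConstSMul Γ M]
    (ρ : Γ →* (E ≃L[ℝ] E)) (hfin : ∀ R : ℝ, {γ : Γ | sz (ρ γ) ≤ R}.Finite)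
    (hcoc : ∃ R : ℝ, ∀ g : E ≃L[ℝ] E, IsSL g → ∃ γ : Γ, sz (ρ γ * g⁻¹) ≤ R)
    (D : LocData (M := M) ρ) :
    ∃ r > 0, ∃ u : E → E, ContDiffOn ℝ ∞ u (ball 0 r) ∧
      HasFDerivAt u (ContinuousLinearMap.id ℝ E) 0 ∧ u 0 = 0 ∧
      (∀ z ∈ ball (0 : E) r, u z ∈ ball (0 : E) D.r0) ∧
      ∀ (γ : Γ) (z : E), z ∈ ball (0 : E) r → ρ γ z ∈ ball (0 : E) r →
        γ • D.χ (u z) = D.χ (u (ρ γ z)) := by
  have hl0 := ll_pos (E := E)
  have hl1 := ll_lt (E := E) hn
  obtain ⟨X⟩ := exists_ctx hn hfin hcoc D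
  obtain ⟨r, hr, K, hK0, dir, u, hrσ, hdir, hlim, huz⟩ := X.exists_u
  obtain ⟨κ, hκ, hκσ, Kh, hKh0, hh⟩ := X.hyper
  have hσ0 := X.hσ0
  have hσr := X.hσr
  set r1 := min r κ with hr1
  have hr1pos : 0 < r1 := lt_min hr hκ
  have hr1r : r1 ≤ r := min_le_left _ _
  have hr1κ : r1 ≤ κ := min_le_right _ _
  have hex2 : ∀ (ν : E) (k : ℕ), ∃ Φ : E → E, ‖ν‖ = 1 → Good D X.B (ll E) X.σ X.C k (R ν 2 ^ k) Φ := by
    intro ν k
    by_cases hν : ‖ν‖ = 1
    · obtain ⟨Φ, hΦ⟩ := X.good2 hν k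
      exact ⟨Φ, fun _ => hΦ⟩
    · exact ⟨fun x => x, fun h => absurd h hν⟩
  choose Φ hΦ using hex2
  have hexl : ∀ (ν : E) (k : ℕ), ∃ Ψ : E → E, ‖ν‖ = 1 →
      Good D X.B (ll E) X.σ X.C k (R ν (ll E) ^ k) Ψ := by
    intro ν k
    by_cases hν : ‖ν‖ = 1
    · obtain ⟨Ψ, hΨ⟩ := X.goodw hν hν k 0
      rw [pow_zero, one_mul, add_zero] at hΨ
      exact ⟨Ψ, fun _ => hΨ⟩
    · exact ⟨fun x => x, fun h => absurd h hν⟩
  choose Ψ hΨ using hexl
  have hu0 : u 0 = 0 := by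
    have h := huz 0 (by rw [norm_zero]; exact hr)
    rw [sub_zero, norm_zero] at h
    have h2 : ‖u 0‖ ≤ 0 := h.trans (by norm_num)
    exact norm_le_zero_iff.mp h2
  have hlimΦ : ∀ z, ‖z‖ < r → Tendsto (fun k => Φ (dir z) k (ll E ^ k • z)) atTop (𝓝 (u z)) :=
    fun z hz => hlim z hz (fun k => Φ (dir z) k) (fun k => hΦ _ k (hdir z).1)
  have hsc : ∀ (k : ℕ) (z : E), ‖ll E ^ k • z‖ = ll E ^ k * ‖z‖ := fun k z => by
    rw [norm_smul, Real.norm_of_nonneg (pow_pos hl0 k).le]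
  have hbd : ∀ z, ‖z‖ < r → ‖u z‖ ≤ 2 * ‖z‖ := by
    intro z hz
    apply le_of_tendsto (hlimΦ z hz).norm
    filter_upwards with k
    have hlk := pow_pos hl0 k
    have h1 : ‖ll E ^ k • z‖ ≤ X.σ * ll E ^ k := by
      rw [hsc]
      nlinarith
    have h2 := good_norm hl0 hσ0 (hΦ (dir z) k (hdir z).1) h1
    rw [hsc] at h2
    refine h2.trans (le_of_eq ?_)
    field_simp
  have hmem : ∀ z, ‖z‖ < r → u z ∈ ball (0 : E) D.r0 := by
    intro z hz
    rw [mem_ball_zero_iff]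
    have := hbd z hz
    linarith
  -- hyperplane limits
  have hΨlim : ∀ (ν x : E), ‖ν‖ = 1 → inner ℝ ν x = (0 : ℝ) → ‖x‖ < r1 →
      Tendsto (fun k => Ψ ν k (ll E ^ k • x)) atTop (𝓝 (u x)) := by
    intro ν x hν hx hxr
    by_cases hx0 : x = 0
    · subst hx0
      have : ∀ k, Ψ ν k (ll E ^ k • (0 : E)) = u 0 := fun k => by
        rw [smul_zero, (hΨ ν k hν).zero, hu0]
      simp only [this]
      exact tendsto_const_nhds
    · obtain ⟨hd, hxd⟩ := hdir x
      have hνd : inner ℝ ν (dir x) = (0 : ℝ) := by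
        rw [hxd, inner_smul_right] at hx
        rcases mul_eq_zero.mp hx with h | h
        · exact absurd (norm_eq_zero.mp h) hx0
        · exact h
      have h1 := hlimΦ x (hxr.trans_le hr1r)
      have h2 : Tendsto (fun k => Ψ ν k (ll E ^ k • x) - Φ (dir x) k (ll E ^ k • x)) atTop (𝓝 0) := by
        apply squeeze_zero_norm (fun k => hh x (dir x) ν (hxr.le.trans hr1κ) hd hxd hν hνd k _ _
          (hΦ (dir x) k hd) (hΨ ν k hν))
        have h3 : Tendsto (fun k : ℕ => ((k : ℝ) * ll E ^ k) * (Kh * ‖x‖ ^ 2)) atTop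
            (𝓝 (0 * (Kh * ‖x‖ ^ 2))) :=
          (tendsto_self_mul_const_pow_of_lt_one hl0.le hl1).mul_const _
        rw [zero_mul] at h3
        refine h3.congr (fun k => ?_)
        ring
      have h3 := h2.add h1
      rw [zero_add] at h3
      refine h3.congr (fun k => ?_)
      abel
  have hsmooth : ContDiffOn ℝ ∞ u (ball 0 (r1 / 4)) := by
    apply claimL hr1pos u
    intro m
    rcases Nat.eq_zero_or_pos m with rfl | hm
    · refine ⟨2 * r1, fun z w hzw l hl _ _ => ?_⟩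
      rw [List.length_eq_zero_iff] at hl
      subst hl
      have hz : ‖z‖ < r := by
        have := norm_nonneg w
        linarith
      change ‖u z‖ ≤ _
      simp only [List.prod_nil, mul_one]
      have h1 := hbd z hz
      have h2 : ‖z‖ ≤ r1 := by
        have := norm_nonneg w
        linarith
      linarith
    · refine ⟨|X.C m| * r1 ^ m, fun z w hzw l hl hl0' hl1' => ?_⟩
      obtain ⟨ν, hν, hz, hw⟩ := exists_perp hn z w
      have hbound : ∀ k, ‖mixDiff w l (fun x => Ψ ν k (ll E ^ k • x)) z‖ ≤ |X.C m| * r1 ^ m * l.prod := by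
        intro k
        have h1 := mixDiff_le (r := X.σ) (C := |X.C m|) (m := m) (fun x => Ψ ν k (ll E ^ k • x))
          ((hΨ ν k hν).smooth.comp (contDiff_const_smul _))
          (fun x hx => ((hΨ ν k hν).der x (mem_ball_zero_iff.mp hx).le m hm).trans (le_abs_self _))
          z w (by linarith) l hl hl0' hl1'
        refine h1.trans ?_
        apply mul_le_mul_of_nonneg_right _ (List.prod_nonneg hl0')
        apply mul_le_mul_of_nonneg_left _ (abs_nonneg _)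
        apply pow_le_pow_left₀ (norm_nonneg _)
        have := norm_nonneg z
        linarith
      have hten := mixDiff_tendsto (fun k x => Ψ ν k (ll E ^ k • x)) u z w (fun t ht => by
        apply hΨlim ν _ hν
        · rw [inner_add_right, inner_smul_right, hz, hw, mul_zero, add_zero]
        · calc ‖z + t • w‖ ≤ ‖z‖ + ‖t • w‖ := norm_add_le _ _
            _ ≤ ‖z‖ + 1 * ‖w‖ := by
                rw [norm_smul, Real.norm_of_nonneg ht.1]
                exact add_le_add le_rfl (mul_le_mul_of_nonneg_right ht.2 (norm_nonneg _))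
            _ < r1 := by rwa [one_mul]) l hl0' hl1'
      exact le_of_tendsto hten.norm (Eventually.of_forall hbound)
  refine ⟨r1 / 4, by linarith, u, hsmooth, ?_, hu0, ?_, ?_⟩
  · rw [hasFDerivAt_iff_isLittleO_nhds_zero]
    have h1 : (fun h : E => u (0 + h) - u 0 - (ContinuousLinearMap.id ℝ E) h)
        =O[𝓝 0] fun h => ‖h‖ ^ 2 := by
      apply Asymptotics.IsBigO.of_bound K
      filter_upwards [ball_mem_nhds (0 : E) hr] with h hh
      rw [mem_ball_zero_iff] at hh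
      rw [zero_add, hu0, sub_zero, Real.norm_of_nonneg (by positivity)]
      exact huz h hh
    exact h1.trans_isLittleO (Asymptotics.isLittleO_norm_pow_id one_lt_two)
  · intro z hz
    rw [mem_ball_zero_iff] at hz
    exact hmem z (by linarith)
  · intro δ z hz hδz
    rw [mem_ball_zero_iff] at hz hδz
    by_cases hz0 : z = 0
    · subst hz0
      rw [map_zero, hu0]
      have h1 := (D.F_act δ).self_of_nhds
      rw [D.F_zero] at h1
      exact h1
    · obtain ⟨hd, hzd⟩ := hdir z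
      obtain ⟨hd', hzd'⟩ := hdir (ρ δ z)
      set d := dir z with hdd
      set d' := dir (ρ δ z) with hdd'
      have hzn : ‖z‖ ≠ 0 := norm_ne_zero_iff.mpr hz0
      have hA : ρ δ d = (‖z‖⁻¹ * ‖ρ δ z‖) • d' := by
        have h1 : d = ‖z‖⁻¹ • z := by
          calc d = (‖z‖⁻¹ * ‖z‖) • d := by rw [inv_mul_cancel₀ hzn, one_smul]
            _ = ‖z‖⁻¹ • (‖z‖ • d) := (smul_smul _ _ _).symm
            _ = ‖z‖⁻¹ • z := by rw [← hzd]
        calc ρ δ d = ρ δ (‖z‖⁻¹ • z) := by rw [← h1]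
          _ = ‖z‖⁻¹ • ρ δ z := map_smul _ _ _
          _ = ‖z‖⁻¹ • (‖ρ δ z‖ • d') := congrArg _ hzd'
          _ = (‖z‖⁻¹ * ‖ρ δ z‖) • d' := smul_smul _ _ _
      obtain ⟨κ', hκ', K', hK'0, hK'⟩ := compare D X.B X.hB hl0 hl1 hσ0 hσr X.C (2 * sz (ρ δ))
      have hone : ∀ k : ℕ, (1 : ℝ) ≤ 2 ^ k := fun k => one_le_pow₀ (by norm_num)
      have hev : ∀ᶠ k : ℕ in atTop, ∃ y'' ∈ ball (0 : E) D.r0,
          δ⁻¹ • D.χ (Φ d' k (ll E ^ k • ρ δ z)) = D.χ y'' ∧
          ‖y'' - Φ d k (ll E ^ k • z)‖ ≤ 2 * K' * ‖z‖ ^ 2 * ll E ^ k := by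
        have hsm : ∀ᶠ k : ℕ in atTop, ll E ^ k * ‖z‖ < κ' := by
          have h1 : Tendsto (fun k : ℕ => ll E ^ k * ‖z‖) atTop (𝓝 (0 * ‖z‖)) :=
            (tendsto_pow_atTop_nhds_zero_of_lt_one hl0.le hl1).mul_const _
          rw [zero_mul] at h1
          exact h1.eventually (gt_mem_nhds hκ')
        filter_upwards [hsm] with k hk
        have hlk := pow_pos hl0 k
        have hsl : IsSL (R d' 2 ^ k) := (hΦ d' k hd').sl
        have hconj : sz (R d' 2 ^ k * ρ δ * (R d 2 ^ k)⁻¹) ≤ 2 * sz (ρ δ) := by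
          rw [← R_pow hd two_pos, ← R_pow hd' two_pos]
          exact conj_sz hn hd hd' (ρ δ) hA (hone k)
        obtain ⟨y'', hy1, hy2, hy3⟩ := hK' k _ _ (hΦ d k hd) δ _ hsl hconj (ll E ^ k • z)
          (by rw [hsc]; nlinarith) (by rw [hsc]; exact hk.le)
        have h1 : (R d' 2 ^ k * ρ δ * (R d 2 ^ k)⁻¹) (ll E ^ k • z) = ll E ^ k • ρ δ z := by
          rw [← Ctx.act_dir (E := E) hd hzd k, ← Ctx.act_dir (E := E) hd' hzd' k]
          change (R d' 2 ^ k) (ρ δ ((R d 2 ^ k)⁻¹ ((R d 2 ^ k) z))) = _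
          congr 2
          exact (R d 2 ^ k).symm_apply_apply z
        rw [h1] at hy2
        have h2 : ‖ll E ^ k • ρ δ z‖ ≤ X.σ * ll E ^ k := by
          rw [hsc]
          nlinarith
        rw [(hΦ d' k hd').eq _ h2] at hy2
        refine ⟨y'', hy1, hy2, hy3.trans (le_of_eq ?_)⟩
        rw [hsc]
        field_simp
      have hex3 : ∀ k : ℕ, ∃ y'' : E, (∃ y'' ∈ ball (0 : E) D.r0,
          δ⁻¹ • D.χ (Φ d' k (ll E ^ k • ρ δ z)) = D.χ y'' ∧
          ‖y'' - Φ d k (ll E ^ k • z)‖ ≤ 2 * K' * ‖z‖ ^ 2 * ll E ^ k) →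
          (y'' ∈ ball (0 : E) D.r0 ∧
          δ⁻¹ • D.χ (Φ d' k (ll E ^ k • ρ δ z)) = D.χ y'' ∧
          ‖y'' - Φ d k (ll E ^ k • z)‖ ≤ 2 * K' * ‖z‖ ^ 2 * ll E ^ k) := by
        intro k
        by_cases h : ∃ y'' ∈ ball (0 : E) D.r0,
          δ⁻¹ • D.χ (Φ d' k (ll E ^ k • ρ δ z)) = D.χ y'' ∧
          ‖y'' - Φ d k (ll E ^ k • z)‖ ≤ 2 * K' * ‖z‖ ^ 2 * ll E ^ k
        · obtain ⟨y'', h1, h2, h3⟩ := h
          exact ⟨y'', fun _ => ⟨h1, h2, h3⟩⟩
        · exact ⟨0, fun h' => absurd h' h⟩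
      choose y hy using hex3
      have hevy : ∀ᶠ k : ℕ in atTop, δ⁻¹ • D.χ (Φ d' k (ll E ^ k • ρ δ z)) = D.χ (y k) ∧
          ‖y k - Φ d k (ll E ^ k • z)‖ ≤ 2 * K' * ‖z‖ ^ 2 * ll E ^ k := by
        filter_upwards [hev] with k hk
        exact (hy k hk).2
      have hzr : ‖z‖ < r := by linarith
      have hzr' : ‖ρ δ z‖ < r := by linarith
      have hylim : Tendsto y atTop (𝓝 (u z)) := by
        have h1 : Tendsto (fun k => y k - Φ d k (ll E ^ k • z)) atTop (𝓝 0) := by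
          rw [tendsto_zero_iff_norm_tendsto_zero]
          apply tendsto_of_tendsto_of_tendsto_of_le_of_le' tendsto_const_nhds
            (h := fun k => 2 * K' * ‖z‖ ^ 2 * ll E ^ k)
          · have h2 := (tendsto_pow_atTop_nhds_zero_of_lt_one hl0.le hl1).const_mul
              (2 * K' * ‖z‖ ^ 2)
            rwa [mul_zero] at h2
          · exact Eventually.of_forall fun k => norm_nonneg _
          · filter_upwards [hevy] with k hk
            exact hk.2
        have h3 := h1.add (hlimΦ z hzr)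
        rw [zero_add] at h3
        refine h3.congr (fun k => ?_)
        rw [sub_add_cancel]
      have hcont : ∀ v ∈ ball (0 : E) D.r0, ContinuousAt D.χ v := fun v hv =>
        D.cont.continuousAt (isOpen_ball.mem_nhds hv)
      have hA1 : Tendsto (fun k => D.χ (y k)) atTop (𝓝 (D.χ (u z))) :=
        (hcont _ (hmem z hzr)).tendsto.comp hylim
      have hA2 : Tendsto (fun k => δ⁻¹ • D.χ (Φ d' k (ll E ^ k • ρ δ z))) atTop
          (𝓝 (δ⁻¹ • D.χ (u (ρ δ z)))) :=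
        (((hcont _ (hmem _ hzr')).tendsto.comp (hlimΦ _ hzr')).const_smul δ⁻¹)
      have hA3 : Tendsto (fun k => D.χ (y k)) atTop (𝓝 (δ⁻¹ • D.χ (u (ρ δ z)))) := by
        refine hA2.congr' ?_
        filter_upwards [hevy] with k hk
        exact hk.1
      have h4 := tendsto_nhds_unique hA1 hA3
      rw [h4, smul_inv_smul]

end LatLin
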