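import Pool.Agent.Lib.MP_2392aa_gt.Mfd
import Pool.Agent.Lib.MP_2392aa_gt.LocalLin

open scoped ContDiff Manifold
open Metric

namespace LatLin

theorem global_lin {E : Type*} [NormedAddCommGroup E] [InnerProductSpace ℝ E]
    [FiniteDimensional ℝ E] (hn : 3 ≤ Module.finrank ℝ E) {M : Type*} [TopologicalSpace M]
    [T2Space M] [ChartedSpace E M] [IsManifold 𝓘(ℝ, E) ∞ M] {Γ : Type*} [Group Γ]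
    [MulAction Γ M] (hs : ∀ γ : Γ, ContMDiff 𝓘(ℝ, E) 𝓘(ℝ, E) ∞ (fun x : M => γ • x))
    (p : M) (hp : ∀ γ : Γ, γ • p = p) (ρ : Γ →* (E ≃L[ℝ] E))
    (hρ : ∀ (γ : Γ) (v : E),
      (mfderiv 𝓘(ℝ, E) 𝓘(ℝ, E) (fun x : M => γ • x) p : E →L[ℝ] E) v = ρ γ v)
    (hfin : ∀ R : ℝ, {γ : Γ | sz (ρ γ) ≤ R}.Finite)
    (hcoc : ∃ R : ℝ, ∀ g : E ≃L[ℝ] E, IsSL g → ∃ γ : Γ, sz (ρ γ * g⁻¹) ≤ R) :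
    ∃ (U : Set M) (φ : M → E) (ψ : E → M), IsOpen U ∧ p ∈ U ∧
      (∀ (γ : Γ) (x : M), x ∈ U → γ • x ∈ U) ∧
      ContMDiffOn 𝓘(ℝ, E) 𝓘(ℝ, E) ∞ φ U ∧ ContMDiff 𝓘(ℝ, E) 𝓘(ℝ, E) ∞ ψ ∧
      (∀ v, ψ v ∈ U ∧ φ (ψ v) = v) ∧ (∀ x ∈ U, ψ (φ x) = x) ∧ φ p = 0 ∧
      ∀ (γ : Γ), ∀ x ∈ U, φ (γ • x) = ρ γ (φ x) :=
  global_lin_of hs p hp ρ hρ (fun D => local_lin hn ρ hfin hcoc D)
    (fun z w _ hr => contract_two hn ρ hcoc z w hr)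

end LatLin
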