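import Pool.Agent.Lib.MP_2392aa_gt.Lattice

/-! The properties of the derivative representation for a general Euclidean space (MP_2392aa_gt). -/

namespace LatLin

section
variable {E F : Type*} [NormedAddCommGroup E] [NormedSpace ℝ E] [NormedAddCommGroup F]
  [NormedSpace ℝ F]

/-- conjugation by a linear isomorphism -/
noncomputable def cj (L : E ≃L[ℝ] F) : (E ≃L[ℝ] E) →* (F ≃L[ℝ] F) where
  toFun g := L.symm.trans (g.trans L)
  map_one' := by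
    ext v
    exact L.apply_symm_apply v
  map_mul' g h := by
    ext v
    change L (g (h (L.symm v))) = L (g (L.symm (L (h (L.symm v)))))
    rw [L.symm_apply_apply]

theorem cj_apply (L : E ≃L[ℝ] F) (g : E ≃L[ℝ] E) (v : F) : cj L g v = L (g (L.symm v)) := rfl

theorem cj_norm (L : E ≃L[ℝ] F) (g : E ≃L[ℝ] E) :
    ‖(cj L g : F →L[ℝ] F)‖ ≤ (‖(L : E →L[ℝ] F)‖ * ‖(L.symm : F →L[ℝ] E)‖) *
      ‖(g : E →L[ℝ] E)‖ := by
  have h1 : (cj L g : F →L[ℝ] F)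
      = ((L : E →L[ℝ] F).comp (g : E →L[ℝ] E)).comp (L.symm : F →L[ℝ] E) := by
    ext v
    rfl
  rw [h1]
  refine (ContinuousLinearMap.opNorm_comp_le _ _).trans ?_
  refine (mul_le_mul_of_nonneg_right (ContinuousLinearMap.opNorm_comp_le _ _)
    (norm_nonneg _)).trans (le_of_eq ?_)
  ring

theorem cj_sz (L : E ≃L[ℝ] F) (g : E ≃L[ℝ] E) :
    sz (cj L g) ≤ (‖(L : E →L[ℝ] F)‖ * ‖(L.symm : F →L[ℝ] E)‖) * sz g := by
  have hc : 0 ≤ ‖(L : E →L[ℝ] F)‖ * ‖(L.symm : F →L[ℝ] E)‖ := by positivity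
  unfold sz
  refine max_le ?_ ?_
  · exact (cj_norm L g).trans (mul_le_mul_of_nonneg_left (le_max_left _ _) hc)
  · rw [← map_inv]
    exact (cj_norm L g⁻¹).trans (mul_le_mul_of_nonneg_left (le_max_right _ _) hc)

theorem cj_symm (L : E ≃L[ℝ] F) (g : E ≃L[ℝ] E) : cj L.symm (cj L g) = g := by
  ext v
  simp [cj_apply]

theorem cj_isSL (L : E ≃L[ℝ] F) (g : E ≃L[ℝ] E) (hg : IsSL g) : IsSL (cj L g) := by
  unfold IsSL at *
  have h1 : (((cj L g : F ≃L[ℝ] F) : F →L[ℝ] F) : F →ₗ[ℝ] F)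
      = (L.toLinearEquiv : E →ₗ[ℝ] F) ∘ₗ (((g : E →L[ℝ] E) : E →ₗ[ℝ] E)) ∘ₗ
        (L.toLinearEquiv.symm : F →ₗ[ℝ] E) := by
    ext v
    rfl
  rw [h1, LinearMap.det_conj, hg]

end

theorem lattice_props_gen {E : Type*} [NormedAddCommGroup E] [NormedSpace ℝ E] (n : ℕ)
    (Γ : Subgroup (Matrix.SpecialLinearGroup (Fin n) ℝ))
    [DiscreteTopology Γ] [CompactSpace (Matrix.SpecialLinearGroup (Fin n) ℝ ⧸ Γ)]
    (H : Subgroup Γ) [H.FiniteIndex] (L : E ≃L[ℝ] EuclideanSpace ℝ (Fin n)) (ε : H → ℝ)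
    (hε : ∀ γ, ε γ = 1 ∨ ε γ = -1) (ρ : H →* (E ≃L[ℝ] E))
    (hstd : (∀ γ v, L (ρ γ v) = ε γ • act (((γ : Γ) : Matrix.SpecialLinearGroup (Fin n) ℝ) :
        Matrix (Fin n) (Fin n) ℝ) (L v)) ∨
      (∀ γ v, L (ρ γ v) = ε γ • act ((((γ : Γ) : Matrix.SpecialLinearGroup (Fin n) ℝ)⁻¹ :
        Matrix.SpecialLinearGroup (Fin n) ℝ) : Matrix (Fin n) (Fin n) ℝ).transpose (L v))) :
    (∀ R : ℝ, {γ : H | sz (ρ γ) ≤ R}.Finite) ∧
      ∃ R : ℝ, ∀ g : E ≃L[ℝ] E, IsSL g → ∃ γ : H, sz (ρ γ * g⁻¹) ≤ R := by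
  obtain ⟨h1, R, h2⟩ := lattice_props n Γ H (ContinuousLinearEquiv.refl ℝ _) ε hε
    ((cj L).comp ρ) (by
    rcases hstd with h | h
    · left
      intro γ v
      have h3 := h γ (L.symm v)
      rw [L.apply_symm_apply] at h3
      exact h3
    · right
      intro γ v
      have h3 := h γ (L.symm v)
      rw [L.apply_symm_apply] at h3
      exact h3)
  set c : ℝ := ‖(L : E →L[ℝ] EuclideanSpace ℝ (Fin n))‖ *
    ‖(L.symm : EuclideanSpace ℝ (Fin n) →L[ℝ] E)‖ with hc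
  have hc0 : 0 ≤ c := by positivity
  constructor
  · intro Q
    refine (h1 (c * Q)).subset fun γ hγ => ?_
    exact (cj_sz L (ρ γ)).trans (mul_le_mul_of_nonneg_left hγ hc0)
  · refine ⟨c * R, fun g hg => ?_⟩
    obtain ⟨γ, hγ⟩ := h2 (cj L g) (cj_isSL L g hg)
    refine ⟨γ, ?_⟩
    have h3 : ((cj L).comp ρ) γ * (cj L g)⁻¹ = cj L (ρ γ * g⁻¹) := by
      rw [map_mul, map_inv]
      rfl
    rw [h3] at hγ
    have h4 := cj_sz L.symm (cj L (ρ γ * g⁻¹))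
    rw [cj_symm] at h4
    refine h4.trans ?_
    have h5 : ‖(L.symm : EuclideanSpace ℝ (Fin n) →L[ℝ] E)‖ *
        ‖(L.symm.symm : E →L[ℝ] EuclideanSpace ℝ (Fin n))‖ = c := by
      rw [hc, ContinuousLinearEquiv.symm_symm, mul_comm]
    rw [h5]
    exact mul_le_mul_of_nonneg_left hγ hc0

end LatLin
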