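import Pool.Agent.Lib.MP_2392aa_gt.Defs

/-! Module ClaimL: a function whose mixed differences along all lines are bounded by the product
of the steps is infinitely differentiable. -/

open scoped ContDiff Convolution Pointwise
open Metric MeasureTheory Filter Topology

namespace LatLin

namespace CL

section Mix
variable {E F : Type*} [NormedAddCommGroup E] [NormedSpace ℝ E] [NormedAddCommGroup F]
  [NormedSpace ℝ F]

omit [NormedSpace ℝ F] in
theorem mixDiff_congr (w : E) (l : List ℝ) : ∀ (f g : E → F) (z : E), (∀ h ∈ l, 0 ≤ h) →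
    (∀ s ∈ Set.Icc (0:ℝ) l.sum, f (z + s • w) = g (z + s • w)) →
    mixDiff w l f z = mixDiff w l g z := by
  induction l with
  | nil => intro f g z _ h; simpa [mixDiff] using h 0 (by simp)
  | cons a l ih =>
    intro f g z hl h
    simp only [mixDiff]
    have ha := hl a (List.mem_cons_self ..)
    have hl' : ∀ h ∈ l, 0 ≤ h := fun x hx => hl x (List.mem_cons_of_mem _ hx)
    apply ih _ _ _ hl'
    intro s hs
    have h1 := h (s + a) ⟨by linarith [hs.1], by simp only [List.sum_cons]; linarith [hs.2]⟩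
    have h2 := h s ⟨hs.1, by simp only [List.sum_cons]; linarith [hs.2]⟩
    rw [add_smul, ← add_assoc] at h1
    rw [h1, h2]

theorem mixDiff_smul (w : E) (c : ℝ) (l : List ℝ) : ∀ (f : E → F) (z : E),
    mixDiff w l (fun z => c • f z) z = c • mixDiff w l f z := by
  induction l with
  | nil => intro f z; rfl
  | cons a l ih =>
    intro f z
    simp only [mixDiff]
    rw [← ih]
    congr 1
    ext x
    rw [smul_sub]

omit [NormedSpace ℝ F] in
theorem mixDiff_tendsto' {ι : Type*} {p : Filter ι} (w : E) (l : List ℝ) :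
    ∀ (f : ι → E → F) (g : E → F), (∀ z, Tendsto (fun i => f i z) p (𝓝 (g z))) → ∀ z,
    Tendsto (fun i => mixDiff w l (f i) z) p (𝓝 (mixDiff w l g z)) := by
  induction l with
  | nil => intro f g h z; exact h z
  | cons a l ih =>
    intro f g h z
    simp only [mixDiff]
    exact ih _ _ (fun z => (h _).sub (h _)) z

end Mix

section Smooth
variable (E F : Type*) [NormedAddCommGroup E] [NormedSpace ℝ E] [NormedAddCommGroup F]
  [NormedSpace ℝ F]

/-- the space of smooth functions -/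
def SM : Submodule ℝ (E → F) where
  carrier := {f | ContDiff ℝ ∞ f}
  add_mem' := by
    intro a b ha hb
    rw [Set.mem_ofPred_eq] at *
    exact ha.add hb
  zero_mem' := by
    rw [Set.mem_ofPred_eq]
    exact contDiff_const
  smul_mem' := by
    intro c f hf
    rw [Set.mem_ofPred_eq] at *
    exact hf.const_smul c

variable {E F}

theorem mem_SM {f : E → F} : f ∈ SM E F ↔ ContDiff ℝ ∞ f := by
  rw [← SetLike.mem_coe]
  exact Iff.of_eq (Set.mem_ofPred_eq)

theorem smc (f : SM E F) : ContDiff ℝ ∞ (f : E → F) := mem_SM.1 f.2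

theorem smd (f : SM E F) : Differentiable ℝ (f : E → F) :=
  (smc f).differentiable (by simp)

/-- directional derivative -/
noncomputable def DD (w : E) : Module.End ℝ (SM E F) where
  toFun f := ⟨fun z => fderiv ℝ (f : E → F) z w,
    mem_SM.2 (((smc f).fderiv_right (m := ∞) (by simp)).clm_apply contDiff_const)⟩
  map_add' f g := by
    ext z
    simp only [Submodule.coe_add]
    rw [fderiv_add (smd f z) (smd g z)]
    rfl
  map_smul' c f := by
    ext z
    simp only [Submodule.coe_smul]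
    rw [fderiv_const_smul (smd f z) c]
    rfl

theorem DD_apply (w : E) (f : SM E F) (z : E) : (DD w f : E → F) z = fderiv ℝ (f : E → F) z w := rfl

theorem DD_add_smul (w v : E) (t : ℝ) : (DD (w + t • v) : Module.End ℝ (SM E F)) =
    DD w + t • DD v := by
  ext f z
  simp only [DD_apply, LinearMap.add_apply, LinearMap.smul_apply, Submodule.coe_add,
    Submodule.coe_smul, Pi.add_apply, Pi.smul_apply]
  simp

theorem DD_smul (w : E) (t : ℝ) : (DD (t • w) : Module.End ℝ (SM E F)) = t • DD w := by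
  ext f z
  simp only [DD_apply, LinearMap.smul_apply, Submodule.coe_smul, Pi.smul_apply]
  simp

theorem DD_comm (w v : E) : Commute (DD w : Module.End ℝ (SM E F)) (DD v) := by
  ext f z
  simp only [Module.End.mul_apply, DD_apply]
  have h2 : ∀ a : E, DifferentiableAt ℝ (fun z => fderiv ℝ (f : E → F) z) z := fun a =>
    (((smc f).fderiv_right (m := 1) (by norm_cast)).differentiable (by simp)) z
  have h3 : ∀ a b : E, fderiv ℝ ((DD a f : SM E F) : E → F) z b
      = fderiv ℝ (fderiv ℝ (f : E → F)) z b a := by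
    intro a b
    have : ((DD a f : SM E F) : E → F) = fun z => fderiv ℝ (f : E → F) z a := rfl
    rw [this, fderiv_clm_apply (h2 0) (differentiableAt_const a)]
    simp
  rw [h3, h3]
  have h4 : IsSymmSndFDerivAt ℝ (f : E → F) z :=
    (smc f).contDiffAt.isSymmSndFDerivAt (by
      rw [minSmoothness_of_isRCLikeNormedField]
      exact WithTop.coe_le_coe.2 le_top)
  exact h4 w v

/-- pure derivatives are bounded by mixed differences -/
theorem bound_of_mixDiff (w : E) (C : ℝ) (z : E) (m : ℕ) : ∀ (f : SM E F),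
    (∀ l : List ℝ, l.length = m → (∀ h ∈ l, 0 ≤ h) → l.sum < 1 →
      ‖mixDiff w l (f : E → F) z‖ ≤ C * l.prod) →
    ‖((DD w ^ m) f : E → F) z‖ ≤ C := by
  induction m with
  | zero =>
    intro f h
    simpa [mixDiff] using h [] rfl (by simp) (by simp)
  | succ m ih =>
    intro f h
    rw [pow_succ, Module.End.mul_apply]
    apply ih
    intro l hl hl0 hl1
    have h1 : Tendsto (fun t : ℝ => mixDiff w l
        (fun z => t⁻¹ • ((f : E → F) (z + t • w) - (f : E → F) z)) z) (𝓝[>] 0)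
        (𝓝 (mixDiff w l (DD w f : E → F) z)) := by
      apply mixDiff_tendsto'
      intro x
      have h2 : HasLineDerivAt ℝ (f : E → F) (fderiv ℝ (f : E → F) x w) x w :=
        ((smd f x).hasFDerivAt).hasLineDerivAt w
      exact h2.tendsto_slope_zero_right
    apply le_of_tendsto h1.norm
    have h3 : ∀ᶠ t : ℝ in 𝓝[>] 0, 0 < t ∧ t < 1 - l.sum :=
      Ioo_mem_nhdsGT (by linarith)
    filter_upwards [h3] with t ht
    rw [mixDiff_smul w t⁻¹ l (fun z => (f : E → F) (z + t • w) - (f : E → F) z) z]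
    have h4 := h (t :: l) (by simp [hl]) (by
      intro x hx
      rcases List.mem_cons.1 hx with h | h
      · rw [h]; exact ht.1.le
      · exact hl0 x h) (by simp only [List.sum_cons]; linarith [ht.2])
    simp only [mixDiff, List.prod_cons] at h4
    rw [norm_smul, norm_inv, Real.norm_of_nonneg ht.1.le]
    calc t⁻¹ * ‖_‖ ≤ t⁻¹ * (C * (t * l.prod)) := by gcongr; exact inv_nonneg.2 ht.1.le
      _ = C * l.prod := by
        have := ht.1.ne'
        field_simp

theorem exists_weights (N : ℕ) : ∃ c : ℕ → ℝ, ∀ j ≤ N,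
    ∑ i ∈ Finset.range (N + 1), c i * (i : ℝ) ^ j = if j = 1 then 1 else 0 := by
  let s := Finset.range (N + 1)
  refine ⟨fun i => (Lagrange.basis s (fun i : ℕ => (i : ℝ)) i).coeff 1, fun j hj => ?_⟩
  have h := Lagrange.eq_interpolate (s := s) (v := fun i : ℕ => (i : ℝ))
    (f := (Polynomial.X ^ j : Polynomial ℝ)) (Nat.cast_injective.injOn) (by
      rw [Polynomial.degree_X_pow, Finset.card_range]
      exact_mod_cast Nat.lt_succ_of_le hj)
  have h2 := congrArg (fun p => Polynomial.coeff p 1) h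
  simp only [Lagrange.interpolate_apply, Polynomial.finsetSum_coeff, Polynomial.coeff_C_mul,
    Polynomial.eval_pow, Polynomial.eval_X, Polynomial.coeff_X_pow] at h2
  rw [show (if j = 1 then (1:ℝ) else 0) = if 1 = j then 1 else 0 by simp [eq_comm], h2]
  exact Finset.sum_congr rfl fun i _ => mul_comm _ _

theorem DD_mixed (m : ℕ) : ∃ c : ℕ → ℝ, ∀ w v : E,
    ((m + 1 : ℕ) : ℝ) • (DD w ^ m * DD v : Module.End ℝ (SM E F)) =
      ∑ i ∈ Finset.range (m + 2), c i • (DD (w + (i : ℝ) • v)) ^ (m + 1) := by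
  obtain ⟨c, hc⟩ := exists_weights (m + 1)
  refine ⟨c, fun w v => ?_⟩
  have h1 : ∀ i : ℕ, (DD (w + (i : ℝ) • v) : Module.End ℝ (SM E F)) ^ (m + 1) =
      ∑ j ∈ Finset.range (m + 2), ((i : ℝ) ^ j * (((m + 1).choose j : ℕ) : ℝ)) •
        (DD v ^ j * DD w ^ (m + 1 - j)) := by
    intro i
    rw [DD_add_smul, add_comm, ((DD_comm v w).smul_left (i : ℝ)).add_pow]
    apply Finset.sum_congr rfl
    intro j _
    rw [smul_pow, mul_comm ((i : ℝ) ^ j), mul_smul, smul_mul_assoc, smul_mul_assoc,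
      smul_comm, ← nsmul_eq_mul', Nat.cast_smul_eq_nsmul]
  simp only [h1, Finset.smul_sum]
  rw [Finset.sum_comm]
  have h2 : ∀ j ∈ Finset.range (m + 2), (∑ i ∈ Finset.range (m + 2),
      c i • ((i : ℝ) ^ j * (((m + 1).choose j : ℕ) : ℝ)) •
        (DD v ^ j * DD w ^ (m + 1 - j) : Module.End ℝ (SM E F))) =
      if j = 1 then (((m + 1).choose j : ℕ) : ℝ) • (DD v ^ j * DD w ^ (m + 1 - j)) else 0 := by
    intro j hj
    have h3 := hc j (by simpa using Nat.lt_succ_iff.1 (Finset.mem_range.1 hj))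
    simp only [smul_smul, ← mul_assoc]
    rw [← Finset.sum_smul, ← Finset.sum_mul, h3]
    split_ifs <;> simp
  rw [Finset.sum_congr rfl h2, Finset.sum_ite_eq' (Finset.range (m + 2)) 1]
  simp [(DD_comm w v).pow_left m |>.eq]

/-- all pure derivatives are bounded uniformly on a ball -/
def QQ (f : ℕ → SM E F) (ρ : ℝ) : Prop :=
  ∀ (m : ℕ) (w : E), ∃ C : ℝ, ∀ k, ∀ z ∈ ball (0 : E) ρ, ‖((DD w ^ m) (f k) : E → F) z‖ ≤ C

theorem QQ.mono {f : ℕ → SM E F} {ρ ρ' : ℝ} (h : QQ f ρ) (hρ : ρ' ≤ ρ) : QQ f ρ' := by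
  intro m w
  obtain ⟨C, hC⟩ := h m w
  exact ⟨C, fun k z hz => hC k z (ball_subset_ball hρ hz)⟩

theorem QQ.deriv {f : ℕ → SM E F} {ρ : ℝ} (h : QQ f ρ) (v : E) :
    QQ (fun k => DD v (f k)) ρ := by
  intro m w
  obtain ⟨c, hc⟩ := DD_mixed (E := E) (F := F) m
  choose C hC using h
  refine ⟨∑ i ∈ Finset.range (m + 2), |c i| * C (m + 1) (w + (i : ℝ) • v), fun k z hz => ?_⟩
  have h1 := congrArg (fun T : Module.End ℝ (SM E F) => ((T (f k) : SM E F) : E → F) z) (hc w v)
  simp only [LinearMap.smul_apply, Module.End.mul_apply, LinearMap.sum_apply,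
    Submodule.coe_smul, Pi.smul_apply] at h1
  rw [AddSubmonoidClass.coe_finsetSum, Finset.sum_apply] at h1
  simp only [Submodule.coe_smul, Pi.smul_apply] at h1
  have h2 : ‖((m + 1 : ℕ) : ℝ) • ((DD w ^ m) (DD v (f k)) : E → F) z‖ ≤
      ∑ i ∈ Finset.range (m + 2), |c i| * C (m + 1) (w + (i : ℝ) • v) := by
    rw [h1]
    apply norm_sum_le_of_le
    intro i _
    rw [norm_smul, Real.norm_eq_abs]
    exact mul_le_mul_of_nonneg_left (hC (m + 1) _ k z hz) (abs_nonneg _)
  refine le_trans ?_ h2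
  rw [norm_smul, Real.norm_of_nonneg (by positivity)]
  have : (1 : ℝ) ≤ ((m + 1 : ℕ) : ℝ) := by exact_mod_cast Nat.succ_le_succ (Nat.zero_le m)
  nlinarith [norm_nonneg (((DD w ^ m) (DD v (f k)) : E → F) z)]

theorem interp (g : SM E F) {ρ C : ℝ} (v : E) (hC : ∀ z ∈ ball (0 : E) ρ,
    ‖((DD v ^ 2) g : E → F) z‖ ≤ C) (z : E) (h : ℝ) (hh : 0 < h)
    (hz : ‖z‖ + h * ‖v‖ < ρ) :
    ‖(DD v g : E → F) z - h⁻¹ • ((g : E → F) (z + h • v) - (g : E → F) z)‖ ≤ C * h := by
  have hb : ∀ s ∈ Set.Icc (0:ℝ) h, z + s • v ∈ ball (0 : E) ρ := by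
    intro s hs
    rw [mem_ball_zero_iff]
    calc ‖z + s • v‖ ≤ ‖z‖ + ‖s • v‖ := norm_add_le _ _
      _ ≤ ‖z‖ + h * ‖v‖ := by
        rw [norm_smul, Real.norm_of_nonneg hs.1]
        gcongr
        exact hs.2
      _ < ρ := hz
  have hC0 : 0 ≤ C := le_trans (norm_nonneg _) (hC _ (hb 0 ⟨le_rfl, hh.le⟩))
  have hd : ∀ (G : SM E F) (s : ℝ), HasDerivAt (fun s : ℝ => (G : E → F) (z + s • v))
      ((DD v G : E → F) (z + s • v)) s := by
    intro G s
    have h1 : HasDerivAt (fun s : ℝ => z + s • v) v s := by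
      simpa using ((hasDerivAt_id s).smul_const v).const_add z
    exact ((smd G (z + s • v)).hasFDerivAt).comp_hasDerivAt s h1
  have h1 : ∀ s ∈ Set.Icc (0:ℝ) h, ‖(DD v g : E → F) (z + s • v) - (DD v g : E → F) z‖ ≤ C * h := by
    intro s hs
    have := (convex_Icc (0:ℝ) h).norm_image_sub_le_of_norm_hasDerivWithin_le
      (f := fun s : ℝ => (DD v g : E → F) (z + s • v))
      (f' := fun s : ℝ => (DD v (DD v g) : E → F) (z + s • v))
      (fun s _ => (hd (DD v g) s).hasDerivWithinAt)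
      (fun s hs => by
        have := hC _ (hb s hs)
        rwa [pow_two, Module.End.mul_apply] at this)
      (x := 0) (y := s) ⟨le_rfl, hh.le⟩ hs
    simp only [zero_smul, add_zero, sub_zero] at this
    refine this.trans ?_
    rw [Real.norm_of_nonneg hs.1]
    exact mul_le_mul_of_nonneg_left hs.2 hC0
  have h2 := (convex_Icc (0:ℝ) h).norm_image_sub_le_of_norm_hasDerivWithin_le
      (f := fun s : ℝ => (g : E → F) (z + s • v) - s • (DD v g : E → F) z)
      (f' := fun s : ℝ => (DD v g : E → F) (z + s • v) - (DD v g : E → F) z)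
      (C := C * h)
      (fun s _ => by
        have h3 := (hd g s).sub ((hasDerivAt_id s).smul_const ((DD v g : E → F) z))
        simp only [one_smul] at h3
        exact h3.hasDerivWithinAt)
      h1 (x := 0) (y := h) ⟨le_rfl, hh.le⟩ ⟨hh.le, le_rfl⟩
  simp only [zero_smul, add_zero, sub_zero] at h2
  rw [Real.norm_of_nonneg hh.le] at h2
  have h4 : (DD v g : E → F) z - h⁻¹ • ((g : E → F) (z + h • v) - (g : E → F) z) =
      - (h⁻¹ • ((g : E → F) (z + h • v) - h • (DD v g : E → F) z - (g : E → F) z)) := by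
    simp only [smul_sub, smul_smul, inv_mul_cancel₀ hh.ne', one_smul]
    abel
  rw [h4, norm_neg, norm_smul, norm_inv, Real.norm_of_nonneg hh.le]
  calc h⁻¹ * ‖_‖ ≤ h⁻¹ * (C * h * h) := mul_le_mul_of_nonneg_left h2 (by positivity)
    _ = C * h := by field_simp

theorem cauchy_dir {f : ℕ → SM E F} {ρ ρ' : ℝ} (hρ : ρ' < ρ) (hQ : QQ f ρ)
    (hu : UniformCauchySeqOn (fun k => (f k : E → F)) atTop (ball 0 ρ)) (v : E) :
    UniformCauchySeqOn (fun k => (DD v (f k) : E → F)) atTop (ball 0 ρ') := by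
  obtain ⟨C, hC⟩ := hQ 2 v
  rw [Metric.uniformCauchySeqOn_iff] at hu ⊢
  intro ε hε
  set A := |C| + 1 with hA
  have hA0 : 0 < A := by positivity
  have hCA : C ≤ A := by rw [hA]; linarith [le_abs_self C]
  obtain ⟨h, hh0, hh1, hh2⟩ : ∃ h : ℝ, 0 < h ∧ h * (‖v‖ + 1) ≤ ρ - ρ' ∧ A * h ≤ ε / 4 := by
    refine ⟨min ((ρ - ρ') / (‖v‖ + 1)) (ε / 4 / A), ?_, ?_, ?_⟩
    · apply lt_min
      · apply div_pos (by linarith); positivity
      · positivity
    · calc _ ≤ (ρ - ρ') / (‖v‖ + 1) * (‖v‖ + 1) := by gcongr; exact min_le_left _ _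
        _ = ρ - ρ' := by field_simp
    · calc _ ≤ A * (ε / 4 / A) := by gcongr; exact min_le_right _ _
        _ = ε / 4 := by field_simp
  obtain ⟨N, hN⟩ := hu (ε * h / 8) (by positivity)
  refine ⟨N, fun m hm n hn z hz => ?_⟩
  have hz' : ‖z‖ + h * ‖v‖ < ρ := by
    rw [mem_ball_zero_iff] at hz
    nlinarith
  have hz0 : z ∈ ball (0 : E) ρ := ball_subset_ball hρ.le hz
  have hz1 : z + h • v ∈ ball (0 : E) ρ := by
    rw [mem_ball_zero_iff]
    calc ‖z + h • v‖ ≤ ‖z‖ + ‖h • v‖ := norm_add_le _ _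
      _ = ‖z‖ + h * ‖v‖ := by rw [norm_smul, Real.norm_of_nonneg hh0.le]
      _ < ρ := hz'
  have i1 := interp (f m) v (fun z hz => hC m z hz) z h hh0 hz'
  have i2 := interp (f n) v (fun z hz => hC n z hz) z h hh0 hz'
  have j1 := hN m hm n hn z hz0
  have j2 := hN m hm n hn _ hz1
  rw [dist_eq_norm] at j1 j2 ⊢
  have e1 : (DD v (f m) : E → F) z - (DD v (f n) : E → F) z =
      ((DD v (f m) : E → F) z - h⁻¹ • ((f m : E → F) (z + h • v) - (f m : E → F) z)) -
      ((DD v (f n) : E → F) z - h⁻¹ • ((f n : E → F) (z + h • v) - (f n : E → F) z)) +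
      h⁻¹ • (((f m : E → F) (z + h • v) - (f n : E → F) (z + h • v)) -
        ((f m : E → F) z - (f n : E → F) z)) := by
    simp only [smul_sub]
    abel
  rw [e1]
  have e2 : ‖h⁻¹ • (((f m : E → F) (z + h • v) - (f n : E → F) (z + h • v)) -
        ((f m : E → F) z - (f n : E → F) z))‖ ≤ h⁻¹ * (ε * h / 8 + ε * h / 8) := by
    rw [norm_smul, norm_inv, Real.norm_of_nonneg hh0.le]
    apply mul_le_mul_of_nonneg_left _ (by positivity)
    exact (norm_sub_le _ _).trans (add_le_add j2.le j1.le)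
  have e3 : h⁻¹ * (ε * h / 8 + ε * h / 8) = ε / 4 := by field_simp; ring
  have e4 : C * h ≤ ε / 4 := by nlinarith
  calc _ ≤ (C * h + C * h) + ε / 4 := by
        refine (norm_add_le _ _).trans (add_le_add ((norm_sub_le _ _).trans (add_le_add i1 i2)) ?_)
        rw [← e3]; exact e2
    _ < ε := by linarith

theorem key [FiniteDimensional ℝ E] [CompleteSpace F] {f : ℕ → SM E F} {u : E → F} {ρ ρ' : ℝ}
    (hρ : ρ' < ρ) (hQ : QQ f ρ)
    (hu : TendstoUniformlyOn (fun k => (f k : E → F)) u atTop (ball 0 ρ)) :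
    ∃ G : E → E →L[ℝ] F,
      TendstoUniformlyOn (fun k z => fderiv ℝ (f k : E → F) z) G atTop (ball 0 ρ') ∧
      ∀ z ∈ ball (0 : E) ρ', HasFDerivAt u (G z) z := by
  let b := Module.finBasis ℝ E
  obtain ⟨K, hK0, hK⟩ := b.exists_opNorm_le (F := F)
  have h1 : UniformCauchySeqOn (fun k z => fderiv ℝ (f k : E → F) z) atTop (ball 0 ρ') := by
    have h2 := fun i => cauchy_dir hρ hQ hu.uniformCauchySeqOn (b i)
    simp only [Metric.uniformCauchySeqOn_iff] at h2 ⊢
    intro ε hε
    choose N hN using fun i => h2 i (ε / (2 * K)) (by positivity)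
    refine ⟨Finset.univ.sup N, fun m hm n hn z hz => ?_⟩
    rw [dist_eq_norm]
    have h3 : ‖fderiv ℝ (f m : E → F) z - fderiv ℝ (f n : E → F) z‖ ≤ K * (ε / (2 * K)) := by
      apply hK (by positivity)
      intro i
      have h4 := hN i m ((Finset.le_sup (Finset.mem_univ i)).trans hm) n
        ((Finset.le_sup (Finset.mem_univ i)).trans hn) z hz
      rw [dist_eq_norm] at h4
      exact h4.le
    have h5 : K * (ε / (2 * K)) = ε / 2 := by field_simp
    rw [h5] at h3
    linarith
  have h2 : ∀ z : E, ∃ T : E →L[ℝ] F, z ∈ ball (0 : E) ρ' →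
      Tendsto (fun k => fderiv ℝ (f k : E → F) z) atTop (𝓝 T) := by
    intro z
    by_cases hz : z ∈ ball (0 : E) ρ'
    · obtain ⟨T, hT⟩ := cauchySeq_tendsto_of_complete (h1.cauchySeq hz)
      exact ⟨T, fun _ => hT⟩
    · exact ⟨0, fun h => absurd h hz⟩
  choose G hG using h2
  have h3 : TendstoUniformlyOn (fun k z => fderiv ℝ (f k : E → F) z) G atTop (ball 0 ρ') :=
    h1.tendstoUniformlyOn_of_tendsto hG
  refine ⟨G, h3, fun z hz => ?_⟩
  apply hasFDerivAt_of_tendstoUniformlyOn isOpen_ball h3 (fun n x _ => (smd (f n) x).hasFDerivAt)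
    (fun x hx => ?_) hz
  exact hu.tendsto_at (ball_subset_ball hρ.le hx)

theorem main_smooth [FiniteDimensional ℝ E] [CompleteSpace F] (n : ℕ) : ∀ (f : ℕ → SM E F)
    (u : E → F) (ρ : ℝ), QQ f ρ →
    TendstoUniformlyOn (fun k => (f k : E → F)) u atTop (ball 0 ρ) →
    ∀ ρ' < ρ, ContDiffOn ℝ n u (ball 0 ρ') := by
  induction n with
  | zero =>
    intro f u ρ _ hu ρ' hρ
    rw [Nat.cast_zero, contDiffOn_zero]
    apply (hu.continuousOn _).mono (ball_subset_ball hρ.le)
    exact Frequently.of_forall fun k => (smc (f k)).continuous.continuousOn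
  | succ n ih =>
    intro f u ρ hQ hu ρ' hρ
    obtain ⟨G, hG, hd⟩ := key (ρ' := (ρ + ρ') / 2) (by linarith) hQ hu
    have hsub : ball (0 : E) ρ' ⊆ ball (0 : E) ((ρ + ρ') / 2) :=
      ball_subset_ball (by linarith)
    rw [Nat.cast_succ, contDiffOn_succ_iff_fderiv_of_isOpen isOpen_ball]
    refine ⟨fun z hz => (hd z (hsub hz)).differentiableAt.differentiableWithinAt,
      by simp, ?_⟩
    have h1 : ContDiffOn ℝ n G (ball 0 ρ') := by
      rw [contDiffOn_clm_apply]
      intro v
      refine ih (fun k => DD v (f k)) (fun z => G z v) ((ρ + ρ') / 2)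
        ((hQ.deriv v).mono (by linarith)) ?_ ρ' (by linarith)
      rw [Metric.tendstoUniformlyOn_iff] at hG ⊢
      intro ε hε
      filter_upwards [hG (ε / (‖v‖ + 1)) (by positivity)] with k hk z hz
      have h2 := hk z hz
      rw [dist_eq_norm] at h2 ⊢
      calc ‖G z v - (DD v (f k) : E → F) z‖ = ‖(G z - fderiv ℝ (f k : E → F) z) v‖ := rfl
        _ ≤ ‖G z - fderiv ℝ (f k : E → F) z‖ * ‖v‖ := ContinuousLinearMap.le_opNorm _ _
        _ ≤ ‖G z - fderiv ℝ (f k : E → F) z‖ * (‖v‖ + 1) := by gcongr; linarith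
        _ < ε / (‖v‖ + 1) * (‖v‖ + 1) := by gcongr
        _ = ε := by field_simp
    exact h1.congr fun z hz => (hd z (hsub hz)).fderiv

end Smooth

section Moll
variable {E F : Type*} [NormedAddCommGroup E] [NormedSpace ℝ E] [FiniteDimensional ℝ E]
  [NormedAddCommGroup F] [NormedSpace ℝ F] [MeasurableSpace E] [BorelSpace E]

/-- mollification -/
noncomputable def mol (μ : Measure E) (φ : ContDiffBump (0 : E)) (g : E → F) : E → F :=
  (φ.normed μ ⋆[ContinuousLinearMap.lsmul ℝ ℝ, μ] g : E → F)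

omit [BorelSpace E] in
theorem mol_apply (μ : Measure E) (φ : ContDiffBump (0 : E)) (g : E → F) (z : E) :
    mol μ φ g z = ∫ t, φ.normed μ t • g (z - t) ∂μ := rfl

theorem mol_integrable (μ : Measure E) [μ.IsAddHaarMeasure] (φ : ContDiffBump (0 : E))
    {g : E → F} (hg : Integrable g μ) (z : E) :
    Integrable (fun t => φ.normed μ t • g (z - t)) μ :=
  (φ.hasCompactSupport_normed.convolutionExists_left (ContinuousLinearMap.lsmul ℝ ℝ)
    φ.continuous_normed hg.locallyIntegrable z).integrable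

theorem mol_mixDiff (μ : Measure E) [μ.IsAddHaarMeasure] (φ : ContDiffBump (0 : E)) (w : E)
    (l : List ℝ) : ∀ (g : E → F), Integrable g μ → ∀ z,
    mixDiff w l (mol μ φ g) z = mol μ φ (mixDiff w l g) z := by
  induction l with
  | nil => intro g _ z; rfl
  | cons a l ih =>
    intro g hg z
    simp only [mixDiff]
    have h1 : (fun z => mol μ φ g (z + a • w) - mol μ φ g z) =
        mol μ φ (fun z => g (z + a • w) - g z) := by
      ext x
      rw [mol_apply, mol_apply, mol_apply, ← integral_sub (mol_integrable μ φ hg _)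
        (mol_integrable μ φ hg _)]
      congr 1
      ext t
      rw [smul_sub, show x + a • w - t = x - t + a • w by abel]
    rw [h1]
    exact ih _ ((hg.comp_add_right (a • w)).sub hg) z

theorem mol_norm_le (μ : Measure E) [μ.IsAddHaarMeasure] (φ : ContDiffBump (0 : E))
    (g : E → F) (z : E) (C : ℝ) (h : ∀ t ∈ ball (0 : E) φ.rOut, ‖g (z - t)‖ ≤ C) :
    ‖mol μ φ g z‖ ≤ C := by
  rw [mol_apply]
  have h1 : ∫ t, φ.normed μ t * C ∂μ = C := by
    rw [integral_mul_const, φ.integral_normed, one_mul]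
  rw [← h1]
  apply norm_integral_le_of_norm_le (φ.integrable_normed.mul_const C)
  apply Eventually.of_forall
  intro t
  rw [norm_smul, Real.norm_of_nonneg (φ.nonneg_normed t)]
  by_cases ht : t ∈ ball (0 : E) φ.rOut
  · exact mul_le_mul_of_nonneg_left (h t ht) (φ.nonneg_normed t)
  · have : φ.normed μ t = 0 := by
      rw [← φ.support_normed_eq (μ := μ)] at ht
      simpa using ht
    rw [this]; simp

omit [FiniteDimensional ℝ E] [NormedSpace ℝ F] [MeasurableSpace E] [BorelSpace E] in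
theorem lip (r : ℝ) (hr : 0 < r) (u : E → F)
    (hu : ∃ C : ℝ, ∀ z w : E, ‖z‖ + ‖w‖ < r → ∀ l : List ℝ, l.length = 1 →
      (∀ h ∈ l, 0 ≤ h) → l.sum ≤ 1 → ‖mixDiff w l u z‖ ≤ C * l.prod) :
    ∃ K : ℝ, 0 ≤ K ∧ ∀ z y : E, ‖z‖ < 15 / 16 * r → ‖y‖ ≤ r / 16 →
      ‖u (z + y) - u z‖ ≤ K * ‖y‖ := by
  obtain ⟨C, hC⟩ := hu
  refine ⟨|C| * (16 / r), by positivity, fun z y hz hy => ?_⟩
  by_cases hy0 : y = 0
  · simp [hy0]
  have hyp : 0 < ‖y‖ := norm_pos_iff.2 hy0
  have h1 := hC z ((r / 16 / ‖y‖) • y) (by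
    rw [norm_smul, Real.norm_of_nonneg (by positivity), div_mul_cancel₀ _ hyp.ne']
    linarith) [‖y‖ * (16 / r)] rfl (by
      intro h hh
      rw [List.mem_singleton.1 hh]
      positivity) (by
      simp only [List.sum_cons, List.sum_nil, add_zero]
      calc ‖y‖ * (16 / r) ≤ r / 16 * (16 / r) := by gcongr
        _ = 1 := by field_simp)
  simp only [mixDiff, List.prod_cons, List.prod_nil, mul_one, smul_smul] at h1
  have h2 : ‖y‖ * (16 / r) * (r / 16 / ‖y‖) = 1 := by field_simp
  rw [h2, one_smul] at h1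
  refine h1.trans ?_
  have : C ≤ |C| := le_abs_self C
  calc C * (‖y‖ * (16 / r)) ≤ |C| * (‖y‖ * (16 / r)) := by gcongr
    _ = |C| * (16 / r) * ‖y‖ := by ring

end Moll

end CL

open CL in
theorem claimL {E F : Type*} [NormedAddCommGroup E] [NormedSpace ℝ E] [FiniteDimensional ℝ E]
    [NormedAddCommGroup F] [NormedSpace ℝ F] [CompleteSpace F] {r : ℝ} (hr : 0 < r) (u : E → F)
    (hu : ∀ m : ℕ, ∃ C : ℝ, ∀ z w : E, ‖z‖ + ‖w‖ < r → ∀ l : List ℝ, l.length = m →
      (∀ h ∈ l, 0 ≤ h) → l.sum ≤ 1 → ‖mixDiff w l u z‖ ≤ C * l.prod) :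
    ContDiffOn ℝ ∞ u (ball 0 (r / 4)) := by
  let _ : MeasurableSpace E := borel E
  have _ : BorelSpace E := ⟨rfl⟩
  let μ : Measure E := Measure.addHaar
  obtain ⟨K, hK0, hK⟩ := lip r hr u (hu 1)
  -- continuity
  have hcont : ContinuousOn u (closedBall 0 (7 / 8 * r)) := by
    intro z hz
    apply ContinuousAt.continuousWithinAt
    rw [mem_closedBall_zero_iff] at hz
    rw [Metric.continuousAt_iff]
    intro ε hε
    refine ⟨min (r / 16) (ε / (K + 1)), by positivity, fun x hx => ?_⟩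
    rw [dist_eq_norm] at hx ⊢
    have h1 := hK z (x - z) (by linarith) (hx.le.trans (min_le_left _ _))
    rw [add_sub_cancel] at h1
    have h2 : ‖x - z‖ < ε / (K + 1) := hx.trans_le (min_le_right _ _)
    calc _ ≤ K * ‖x - z‖ := h1
      _ ≤ (K + 1) * ‖x - z‖ := by gcongr; linarith
      _ < (K + 1) * (ε / (K + 1)) := by gcongr
      _ = ε := by field_simp
  set U : E → F := (closedBall (0 : E) (7 / 8 * r)).indicator u with hU
  have hUint : Integrable U μ := by
    rw [hU, integrable_indicator_iff measurableSet_closedBall]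
    exact hcont.integrableOn_compact (isCompact_closedBall _ _)
  have hUu : ∀ z : E, ‖z‖ ≤ 7 / 8 * r → U z = u z := fun z hz =>
    Set.indicator_of_mem (mem_closedBall_zero_iff.2 hz) u
  let δ : ℕ → ℝ := fun k => r / 16 / (k + 1)
  have hδ0 : ∀ k, 0 < δ k := fun k => by positivity
  have hδ1 : ∀ k, δ k ≤ r / 16 := fun k => by
    apply div_le_self (by positivity)
    linarith [(Nat.cast_nonneg k : (0:ℝ) ≤ k)]
  let φ : ℕ → ContDiffBump (0 : E) := fun k => ⟨δ k / 2, δ k, by linarith [hδ0 k], by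
    linarith [hδ0 k]⟩
  let f : ℕ → SM E F := fun k => ⟨mol μ (φ k) U, mem_SM.2
    ((φ k).hasCompactSupport_normed.contDiff_convolution_left _ (φ k).contDiff_normed
      hUint.locallyIntegrable)⟩
  have hQ : QQ f (r / 2) := by
    intro m w
    obtain ⟨C, hC⟩ := hu m
    set c : ℝ := r / (8 * (‖w‖ + 1)) with hc
    have hc0 : 0 < c := by positivity
    have hcw : ‖c • w‖ ≤ r / 8 := by
      rw [norm_smul, Real.norm_of_nonneg hc0.le, hc]
      calc r / (8 * (‖w‖ + 1)) * ‖w‖ ≤ r / (8 * (‖w‖ + 1)) * (‖w‖ + 1) := by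
            gcongr; linarith
        _ = r / 8 := by field_simp
    refine ⟨(c ^ m)⁻¹ * C, fun k z hz => ?_⟩
    rw [mem_ball_zero_iff] at hz
    have h1 : ‖((DD (c • w) ^ m) (f k) : E → F) z‖ ≤ C := by
      apply bound_of_mixDiff
      intro l hl hl0 hl1
      show ‖mixDiff (c • w) l (mol μ (φ k) U) z‖ ≤ C * l.prod
      rw [mol_mixDiff μ (φ k) _ _ _ hUint]
      apply mol_norm_le
      intro t ht
      rw [mem_ball_zero_iff] at ht
      have ht2 : ‖t‖ < r / 16 := lt_of_lt_of_le ht (hδ1 k)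
      have hzt : ‖z - t‖ < r / 2 + r / 16 := (norm_sub_le _ _).trans_lt (by linarith)
      rw [mixDiff_congr (c • w) l U u (z - t) hl0]
      · exact hC _ _ (by linarith) l hl hl0 hl1.le
      · intro s hs
        apply hUu
        have h2 : ‖s • (c • w)‖ ≤ r / 8 := by
          rw [norm_smul, Real.norm_of_nonneg hs.1]
          calc s * ‖c • w‖ ≤ 1 * ‖c • w‖ := by gcongr; linarith [hs.2]
            _ ≤ r / 8 := by linarith
        calc _ ≤ ‖z - t‖ + ‖s • (c • w)‖ := norm_add_le _ _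
          _ ≤ 7 / 8 * r := by linarith
    rw [DD_smul, smul_pow] at h1
    simp only [LinearMap.smul_apply, Submodule.coe_smul, Pi.smul_apply] at h1
    rw [norm_smul, Real.norm_of_nonneg (by positivity)] at h1
    rw [inv_mul_eq_div, le_div_iff₀ (by positivity), mul_comm]
    exact h1
  have hT : TendstoUniformlyOn (fun k => (f k : E → F)) u atTop (ball 0 (r / 2)) := by
    rw [Metric.tendstoUniformlyOn_iff]
    intro ε hε
    have hδt : Tendsto (fun k => K * δ k) atTop (𝓝 0) := by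
      have h1 : Tendsto (fun k : ℕ => K * (r / 16) * (1 / ((k : ℝ) + 1))) atTop (𝓝 0) := by
        simpa using tendsto_one_div_add_atTop_nhds_zero_nat.const_mul (K * (r / 16))
      refine h1.congr fun k => ?_
      show _ = K * (r / 16 / ((k : ℝ) + 1))
      ring
    filter_upwards [hδt.eventually (gt_mem_nhds hε)] with k hk z hz
    rw [mem_ball_zero_iff] at hz
    have h1 : dist (mol μ (φ k) U z) (U z) ≤ K * δ k := by
      apply ContDiffBump.dist_normed_convolution_le hUint.aestronglyMeasurable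
      intro x hx
      have hx2 : ‖x - z‖ < δ k := by rw [← dist_eq_norm]; exact hx
      have h3 : ‖x‖ ≤ 7 / 8 * r := by
        have : x = z + (x - z) := by abel
        rw [this]
        refine (norm_add_le _ _).trans ?_
        have := hδ1 k
        linarith
      rw [hUu x h3, hUu z (by linarith), dist_eq_norm]
      have h4 := hK z (x - z) (by linarith) (hx2.le.trans (hδ1 k))
      rw [add_sub_cancel] at h4
      exact h4.trans (mul_le_mul_of_nonneg_left hx2.le hK0)
    rw [hUu z (by linarith), dist_comm] at h1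
    exact h1.trans_lt hk
  rw [contDiffOn_infty]
  intro n
  exact main_smooth n f u (r / 2) hQ hT (r / 4) (by linarith)

end LatLin
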