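import Pool.Agent.Lib.MP_2392aa_gt.Defs

/-! Module Diff: mixed differences of smooth functions and their limits. -/

open scoped ContDiff Manifold
open Metric

namespace LatLin

theorem mixDiff_le_aux {E F : Type*} [NormedAddCommGroup E] [NormedSpace ℝ E]
    [NormedAddCommGroup F] [NormedSpace ℝ F] (w : E) (l : List ℝ) :
    ∀ (f : E → F) (C : ℝ) (U : Set E) (z : E), ContDiff ℝ ∞ f →
      (∀ x ∈ U, ‖iteratedFDeriv ℝ l.length f x‖ ≤ C) → (∀ h ∈ l, 0 ≤ h) →
      (∀ t ∈ Set.Icc (0 : ℝ) l.sum, z + t • w ∈ U) →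
      ‖mixDiff w l f z‖ ≤ C * ‖w‖ ^ l.length * l.prod := by
  induction l with
  | nil =>
    intro f C U z _ hb _ hU
    have hz : z ∈ U := by
      have := hU 0 (by simp)
      simpa using this
    have := hb z hz
    simpa [mixDiff] using this
  | cons h l ih =>
    intro f C U z hf hb hl0 hU
    have hh : 0 ≤ h := hl0 h (by simp)
    have hl0' : ∀ h ∈ l, 0 ≤ h := fun a ha => hl0 a (by simp [ha])
    have hsum : 0 ≤ l.sum := List.sum_nonneg hl0'
    set f' : E → F := fun x => f (x + h • w) - f x with hf'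
    have hf1 : ContDiff ℝ ∞ (fun x : E => f (x + h • w)) :=
      hf.comp (contDiff_id.add contDiff_const)
    have hf2 : ContDiff ℝ ∞ f' := hf1.sub hf
    have hdiff : ∀ n : ℕ, ∀ x : E, DifferentiableAt ℝ (iteratedFDeriv ℝ n f) x := by
      intro n x
      exact (hf.differentiable_iteratedFDeriv (m := n) (by exact_mod_cast WithTop.coe_lt_top _)) x
    have key := ih f' (C * (h * ‖w‖)) {x | ∀ s ∈ Set.Icc (0 : ℝ) h, x + s • w ∈ U} z hf2
      ?_ hl0' ?_
    · change ‖mixDiff w l f' z‖ ≤ _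
      refine key.trans (le_of_eq ?_)
      simp only [List.length_cons, List.prod_cons, pow_succ]
      ring
    · intro x hx
      have e : iteratedFDeriv ℝ l.length f' x =
          iteratedFDeriv ℝ l.length f (x + h • w) - iteratedFDeriv ℝ l.length f x := by
        have h1 := iteratedFDeriv_sub_apply (𝕜 := ℝ) (i := l.length) (x := x)
          (hf1.contDiffAt.of_le (by exact_mod_cast le_top))
          (hf.contDiffAt.of_le (by exact_mod_cast le_top))
        have h2 := iteratedFDeriv_comp_add_right (𝕜 := ℝ) (f := f) l.length (h • w) x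
        rw [← h2, ← h1]
        rfl
      rw [e]
      have hseg : ∀ y ∈ segment ℝ x (x + h • w), y ∈ U := by
        rintro y ⟨a, b, ha, hb', hab, rfl⟩
        have hs : b * h ∈ Set.Icc (0 : ℝ) h := ⟨by positivity, by nlinarith⟩
        have e1 : a • x + b • (x + h • w) = x + (b * h) • w := by
          rw [smul_add, ← add_assoc, ← add_smul, hab, one_smul, smul_smul]
        rw [e1]
        exact hx _ hs
      have hmv := Convex.norm_image_sub_le_of_norm_fderiv_le (𝕜 := ℝ)
        (f := iteratedFDeriv ℝ l.length f) (C := C) (s := segment ℝ x (x + h • w))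
        (fun y _ => hdiff _ y)
        (fun y hy => by
          rw [norm_fderiv_iteratedFDeriv]
          exact hb y (hseg y hy))
        (convex_segment _ _) (left_mem_segment ℝ x (x + h • w))
        (right_mem_segment ℝ x (x + h • w))
      rw [add_sub_cancel_left, norm_smul, Real.norm_of_nonneg hh] at hmv
      exact hmv
    · intro t ht s hs
      have := hU (t + s) ⟨add_nonneg ht.1 hs.1, by
        rw [List.sum_cons]; linarith [ht.2, hs.2]⟩
      rwa [add_smul, ← add_assoc] at this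

theorem mixDiff_le {E F : Type*} [NormedAddCommGroup E] [NormedSpace ℝ E]
    [NormedAddCommGroup F] [NormedSpace ℝ F] {r C : ℝ} {m : ℕ} (f : E → F)
    (hf : ContDiff ℝ ∞ f) (hb : ∀ x ∈ ball (0 : E) r, ‖iteratedFDeriv ℝ m f x‖ ≤ C)
    (z w : E) (hzw : ‖z‖ + ‖w‖ < r) (l : List ℝ) (hl : l.length = m) (hl0 : ∀ h ∈ l, 0 ≤ h)
    (hl1 : l.sum ≤ 1) : ‖mixDiff w l f z‖ ≤ C * ‖w‖ ^ m * l.prod := by
  subst hl
  apply mixDiff_le_aux w l f C (ball (0 : E) r) z hf hb hl0
  intro t ht
  rw [mem_ball_zero_iff]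
  have h1 : ‖t • w‖ ≤ ‖w‖ := by
    rw [norm_smul, Real.norm_of_nonneg ht.1]
    exact mul_le_of_le_one_left (norm_nonneg _) (ht.2.trans hl1)
  calc ‖z + t • w‖ ≤ ‖z‖ + ‖t • w‖ := norm_add_le _ _
    _ ≤ ‖z‖ + ‖w‖ := by linarith
    _ < r := hzw

theorem mixDiff_tendsto_aux {E F : Type*} [NormedAddCommGroup E] [NormedSpace ℝ E]
    [NormedAddCommGroup F] [NormedSpace ℝ F] (w : E) (l : List ℝ) :
    ∀ (f : ℕ → E → F) (g : E → F) (z : E),
      (∀ t ∈ Set.Icc (0 : ℝ) l.sum,
        Filter.Tendsto (fun k => f k (z + t • w)) Filter.atTop (nhds (g (z + t • w)))) →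
      (∀ h ∈ l, 0 ≤ h) →
      Filter.Tendsto (fun k => mixDiff w l (f k) z) Filter.atTop (nhds (mixDiff w l g z)) := by
  induction l with
  | nil =>
    intro f g z h _
    have := h 0 (by simp)
    simpa [mixDiff] using this
  | cons a l ih =>
    intro f g z h hl0
    have ha : 0 ≤ a := hl0 a (by simp)
    have hl0' : ∀ h ∈ l, 0 ≤ h := fun b hb => hl0 b (by simp [hb])
    have hsum : 0 ≤ l.sum := List.sum_nonneg hl0'
    refine ih (fun k x => f k (x + a • w) - f k x) (fun x => g (x + a • w) - g x) z ?_ hl0'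
    intro t ht
    have e : z + t • w + a • w = z + (t + a) • w := by rw [add_smul, add_assoc]
    simp only [e]
    apply Filter.Tendsto.sub
    · exact h (t + a) ⟨add_nonneg ht.1 ha, by rw [List.sum_cons]; linarith [ht.2]⟩
    · exact h t ⟨ht.1, by rw [List.sum_cons]; linarith [ht.2]⟩

theorem mixDiff_tendsto {E F : Type*} [NormedAddCommGroup E] [NormedSpace ℝ E]
    [NormedAddCommGroup F] [NormedSpace ℝ F] (f : ℕ → E → F) (g : E → F) (z w : E)
    (h : ∀ t ∈ Set.Icc (0 : ℝ) 1,
      Filter.Tendsto (fun k => f k (z + t • w)) Filter.atTop (nhds (g (z + t • w))))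
    (l : List ℝ) (hl0 : ∀ h ∈ l, 0 ≤ h) (hl1 : l.sum ≤ 1) :
    Filter.Tendsto (fun k => mixDiff w l (f k) z) Filter.atTop (nhds (mixDiff w l g z)) :=
  mixDiff_tendsto_aux w l f g z (fun t ht => h t ⟨ht.1, ht.2.trans hl1⟩) hl0

end LatLin
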