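import Pool.Agent.Lib.MP_2392aa_gt.Local
import Pool.Agent.Lib.MP_2392aa_gt.Diff
import Pool.Agent.Lib.MP_2392aa_gt.ClaimL

/-! The canonical linearizing map (for MP_2392aa_gt), second part. -/

open scoped ContDiff Nat Topology
open Metric Filter

set_option linter.unusedSectionVars false

namespace LatLin

variable {E : Type*} [NormedAddCommGroup E] [InnerProductSpace ℝ E] [FiniteDimensional ℝ E]
  {Γ M : Type*} [Group Γ] [TopologicalSpace M] [MulAction Γ M] {ρ : Γ →* (E ≃L[ℝ] E)}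

/-- all data together -/
structure Ctx (D : LocData (M := M) ρ) where
  B : (E ≃L[ℝ] E) → E → M
  hB : IsTower D B
  hn : 3 ≤ Module.finrank ℝ E
  σ : ℝ
  hσ0 : 0 < σ
  hσ1 : σ ≤ 1
  hσr : 2 * σ < D.r0
  C : ℕ → ℝ
  good : ∀ A : ℕ → (E ≃L[ℝ] E),
      (∀ j, IsSL (A j)) → (∀ j, sz (A j) ≤ bb E) → (∀ j x, ‖(A j)⁻¹ x‖ ≤ (ll E)⁻¹ * ‖x‖) →
      ∀ k, ∃ Φ : E → E, Good D B (ll E) σ C k (pathprod A k) Φ

variable {D : LocData (M := M) ρ}

theorem exists_ctx (hn : 3 ≤ Module.finrank ℝ E) (hfin : ∀ R : ℝ, {γ : Γ | sz (ρ γ) ≤ R}.Finite)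
    (hcoc : ∃ R : ℝ, ∀ g : E ≃L[ℝ] E, IsSL g → ∃ γ : Γ, sz (ρ γ * g⁻¹) ≤ R)
    (D : LocData (M := M) ρ) : Nonempty (Ctx D) := by
  obtain ⟨B, hB⟩ := tower hfin hcoc D
  obtain ⟨σ, h1, h2, h3, C, h4⟩ := exists_good D B hB ll_pos (ll_lt hn) (bb E)
  exact ⟨⟨B, hB, hn, σ, h1, h2, h3, C, h4⟩⟩

namespace Ctx

theorem good2 (X : Ctx D) {ν : E} (hν : ‖ν‖ = 1) (k : ℕ) :
    ∃ Φ : E → E, Good D X.B (ll E) X.σ X.C k (R ν 2 ^ k) Φ := by
  have h := X.good (fun _ => R ν 2) (fun _ => R_SL (by have := X.hn; omega) hν two_pos)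
    (fun _ => R2_sz X.hn hν) (fun _ => R2_inv X.hn hν) k
  rwa [pathprod_const] at h

theorem goodw (X : Ctx D) {ν ν' : E} (hν : ‖ν‖ = 1) (hν' : ‖ν'‖ = 1) (i k : ℕ) :
    ∃ Φ : E → E, Good D X.B (ll E) X.σ X.C (i + k) (R ν' 2 ^ k * R ν (ll E) ^ i) Φ := by
  have h := X.good (fun j => if j < i then R ν (ll E) else R ν' 2)
    (fun j => by
      have := X.hn
      split_ifs
      · exact R_SL (by omega) hν ll_pos
      · exact R_SL (by omega) hν' two_pos)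
    (fun j => by
      split_ifs
      · exact Rl_sz X.hn hν
      · exact R2_sz X.hn hν')
    (fun j => by
      split_ifs
      · exact Rl_inv X.hn hν
      · exact R2_inv X.hn hν') (i + k)
  rwa [pathprod_word] at h

/-- one comparison step between elements acting in the same way on `z` -/
theorem close (X : Ctx D) (β : ℝ) : ∃ κ > 0, ∃ K : ℝ, 0 ≤ K ∧
    ∀ (k k' : ℕ) (g g' : E ≃L[ℝ] E) (Φ Φ' : E → E), k ≤ k' → k' ≤ k + 1 →
      Good D X.B (ll E) X.σ X.C k g Φ → Good D X.B (ll E) X.σ X.C k' g' Φ' →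
      sz (g' * g⁻¹) ≤ β → ∀ z : E, ‖z‖ ≤ κ → g z = ll E ^ k • z → g' z = ll E ^ k' • z →
      ‖Φ' (ll E ^ k' • z) - Φ (ll E ^ k • z)‖ ≤ K * ll E ^ k * ‖z‖ ^ 2 := by
  obtain ⟨κ, hκ, K, hK0, hK⟩ := compare D X.B X.hB ll_pos (ll_lt X.hn) X.hσ0 X.hσr X.C β
  refine ⟨min κ (X.σ / 2), lt_min hκ (by have := X.hσ0; linarith), 2 * K, by positivity, ?_⟩
  intro k k' g g' Φ Φ' hkk' hk'k hg hg' hsz z hz h1 h2
  have hl0 := ll_pos (E := E)
  have hl1 := ll_lt (E := E) X.hn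
  have hlk := pow_pos hl0 k
  have hlk' := pow_pos hl0 k'
  have hlk1 : ll E ^ k ≤ 1 := pow_le_one₀ hl0.le hl1.le
  have hn1 : ‖ll E ^ k • z‖ = ll E ^ k * ‖z‖ := by rw [norm_smul, Real.norm_of_nonneg hlk.le]
  have hn2 : ‖ll E ^ k' • z‖ = ll E ^ k' * ‖z‖ := by rw [norm_smul, Real.norm_of_nonneg hlk'.le]
  have hzσ : ‖z‖ ≤ X.σ / 2 := hz.trans (min_le_right _ _)
  have hτ : g' * ρ 1 * g⁻¹ = g' * g⁻¹ := by rw [map_one, mul_one]
  obtain ⟨y'', hy1, hy2, hy3⟩ := hK k g Φ hg 1 g' hg'.sl (by rw [hτ]; exact hsz)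
    (ll E ^ k • z) (by rw [hn1]; nlinarith) (by
      rw [hn1]
      have := hz.trans (min_le_left _ _)
      nlinarith [norm_nonneg z])
  have h3 : (g' * ρ 1 * g⁻¹) (ll E ^ k • z) = ll E ^ k' • z := by
    rw [hτ, ← h1, ← h2]
    change g' (g⁻¹ (g z)) = g' z
    congr 1
    exact g.symm_apply_apply z
  have hsmall : ‖ll E ^ k' • z‖ ≤ X.σ * ll E ^ k' := by
    rw [hn2]
    have := X.hσ0
    nlinarith
  rw [h3, inv_one, one_smul, hg'.eq _ hsmall] at hy2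
  have h4 : Φ' (ll E ^ k' • z) = y'' :=
    D.inj (good_mem hl0 X.hσ0 X.hσr hg' hsmall) hy1 hy2
  rw [h4]
  refine hy3.trans (le_of_eq ?_)
  rw [hn1]
  field_simp

theorem act_dir {d z : E} (h1 : ‖d‖ = 1) (h2 : z = ‖z‖ • d) (k : ℕ) :
    (R d 2 ^ k) z = ll E ^ k • z := by
  calc (R d 2 ^ k) z = (R d 2 ^ k) (‖z‖ • d) := congrArg _ h2
    _ = ll E ^ k • (‖z‖ • d) := by rw [map_smul, R2_pow_self h1, smul_comm]
    _ = ll E ^ k • z := by rw [← h2]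

/-- the central path at `z` -/
theorem exists_u (X : Ctx D) : ∃ r > 0, ∃ K : ℝ, 0 ≤ K ∧ ∃ (dir : E → E) (u : E → E),
    r ≤ X.σ / 2 ∧ (∀ z, ‖dir z‖ = 1 ∧ z = ‖z‖ • dir z) ∧
    (∀ z, ‖z‖ < r → ∀ Φ : ℕ → E → E,
      (∀ k, Good D X.B (ll E) X.σ X.C k (R (dir z) 2 ^ k) (Φ k)) →
      Tendsto (fun k => Φ k (ll E ^ k • z)) atTop (𝓝 (u z))) ∧
    (∀ z, ‖z‖ < r → ‖u z - z‖ ≤ K * ‖z‖ ^ 2) := by
  have hl0 := ll_pos (E := E)
  have hl1 := ll_lt (E := E) X.hn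
  obtain ⟨dir, hdir⟩ := exists_dir (E := E) X.hn
  obtain ⟨κ, hκ, K, hK0, hK⟩ := X.close (bb E)
  have hex : ∀ z k, ∃ Φ : E → E, Good D X.B (ll E) X.σ X.C k (R (dir z) 2 ^ k) Φ :=
    fun z k => X.good2 (hdir z).1 k
  choose Φ hΦ using hex
  set r := min κ (X.σ / 2) with hr
  have hr0 : 0 < r := lt_min hκ (by have := X.hσ0; linarith)
  have hact : ∀ z k, (R (dir z) 2 ^ k) z = ll E ^ k • z := by
    intro z k
    exact act_dir (hdir z).1 (hdir z).2 k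
  have hstep : ∀ z, ‖z‖ < r → ∀ k, ‖Φ z (k + 1) (ll E ^ (k + 1) • z) - Φ z k (ll E ^ k • z)‖
      ≤ K * ‖z‖ ^ 2 * ll E ^ k := by
    intro z hz k
    have h := hK k (k + 1) _ _ _ _ (Nat.le_succ k) le_rfl (hΦ z k) (hΦ z (k + 1)) (by
      rw [pow_succ', mul_inv_cancel_right]
      exact R2_sz X.hn (hdir z).1) z (hz.le.trans (min_le_left _ _)) (hact z k) (hact z (k + 1))
    calc _ ≤ K * ll E ^ k * ‖z‖ ^ 2 := h
      _ = _ := by ring
  have hlim : ∀ z, ‖z‖ < r → ∃ v, Tendsto (fun k => Φ z k (ll E ^ k • z)) atTop (𝓝 v) := by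
    intro z hz
    apply cauchySeq_tendsto_of_complete
    apply cauchySeq_of_le_geometric (ll E) (K * ‖z‖ ^ 2) hl1
    intro k
    rw [dist_comm, dist_eq_norm]
    exact hstep z hz k
  have hlim' : ∀ z, ∃ v, ‖z‖ < r → Tendsto (fun k => Φ z k (ll E ^ k • z)) atTop (𝓝 v) := by
    intro z
    by_cases hz : ‖z‖ < r
    · obtain ⟨v, hv⟩ := hlim z hz
      exact ⟨v, fun _ => hv⟩
    · exact ⟨0, fun h => absurd h hz⟩
  choose u hu using hlim'
  refine ⟨r, hr0, K / (1 - ll E), by have : 0 < 1 - ll E := by linarith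
                                     positivity, dir, u, min_le_right _ _, hdir, ?_, ?_⟩
  · intro z hz Ψ hΨ
    refine (hu z hz).congr (fun k => ?_)
    apply good_uniq hl0 X.hσ0 X.hσr (hΦ z k) (hΨ k)
    rw [norm_smul, Real.norm_of_nonneg (pow_pos hl0 k).le]
    have h1 := hz.le.trans (min_le_right κ (X.σ / 2))
    have h2 := pow_pos hl0 k
    have h3 := X.hσ0
    nlinarith
  · intro z hz
    have h1 := dist_le_of_le_geometric_of_tendsto₀ (ll E) (K * ‖z‖ ^ 2) hl1 (fun k => by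
      rw [dist_comm, dist_eq_norm]
      exact hstep z hz k) (hu z hz)
    have h2 : Φ z 0 (ll E ^ 0 • z) = z := by
      rw [pow_zero, one_smul]
      have hzσ : ‖z‖ ≤ X.σ * ll E ^ 0 := by
        rw [pow_zero, mul_one]
        have h1 := hz.le.trans (min_le_right κ (X.σ / 2))
        have h3 := X.hσ0
        linarith
      apply D.inj (good_mem hl0 X.hσ0 X.hσr (hΦ z 0) hzσ)
      · rw [mem_ball_zero_iff]
        rw [pow_zero, mul_one] at hzσ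
        have h3 := X.hσ0
        have h4 := X.hσr
        linarith
      · rw [← (hΦ z 0).eq z hzσ, pow_zero]
        exact X.hB.1 z
    rw [h2, dist_comm, dist_eq_norm] at h1
    refine h1.trans (le_of_eq ?_)
    ring

theorem grp {G : Type*} [Group G] {a b : G} (h : Commute a b) (m i : ℕ) :
    b ^ m * a ^ (i + 1) * (b ^ (m + 1) * a ^ i)⁻¹ = a * b⁻¹ := by
  rw [mul_inv_eq_iff_eq_mul]
  have h1 : b⁻¹ * b ^ (m + 1) = b ^ m := by rw [pow_succ']; group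
  have h2 : a * b ^ m = b ^ m * a := (h.pow_right m).eq
  calc b ^ m * a ^ (i + 1) = b ^ m * a * a ^ i := by rw [pow_succ', mul_assoc]
    _ = a * b ^ m * a ^ i := by rw [h2]
    _ = a * (b⁻¹ * b ^ (m + 1)) * a ^ i := by rw [h1]
    _ = a * b⁻¹ * (b ^ (m + 1) * a ^ i) := by simp only [mul_assoc]

/-- hyperplane paths have the same limit -/
theorem hyper (X : Ctx D) : ∃ κ > 0, κ ≤ X.σ / 2 ∧ ∃ K : ℝ, 0 ≤ K ∧ ∀ (z d ν : E), ‖z‖ ≤ κ → ‖d‖ = 1 →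
    z = ‖z‖ • d → ‖ν‖ = 1 → inner ℝ ν d = (0 : ℝ) → ∀ (k : ℕ) (Φ Ψ : E → E),
    Good D X.B (ll E) X.σ X.C k (R d 2 ^ k) Φ → Good D X.B (ll E) X.σ X.C k (R ν (ll E) ^ k) Ψ →
    ‖Ψ (ll E ^ k • z) - Φ (ll E ^ k • z)‖ ≤ k * (K * ll E ^ k * ‖z‖ ^ 2) := by
  have hl0 := ll_pos (E := E)
  have hl1 := ll_lt (E := E) X.hn
  obtain ⟨κ, hκ, K, hK0, hK⟩ := X.close (bb E * bb E)
  have hbb : 0 ≤ bb E := by
    have h1 := two_le_inv (E := E) X.hn
    have h2 := inv_le_bb (E := E) X.hn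
    linarith
  refine ⟨min κ (X.σ / 2), lt_min hκ (by have := X.hσ0; linarith), min_le_right _ _, K, hK0, ?_⟩
  intro z d ν hz hd hzd hν hνd k Φ Ψ hΦ hΨ
  have hzκ : ‖z‖ ≤ κ := hz.trans (min_le_left _ _)
  have hνz : inner ℝ ν z = (0 : ℝ) := by rw [hzd, inner_smul_right, hνd, mul_zero]
  have hcomm : Commute (R ν (ll E)) (R d 2) := R_comm hν hd hνd ll_pos two_pos
  have hex : ∀ i, ∃ Θ : E → E, i ≤ k → Good D X.B (ll E) X.σ X.C k
      (R d 2 ^ (k - i) * R ν (ll E) ^ i) Θ := by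
    intro i
    by_cases hi : i ≤ k
    · obtain ⟨Θ, hΘ⟩ := X.goodw hν hd i (k - i)
      rw [Nat.add_sub_cancel' hi] at hΘ
      exact ⟨Θ, fun _ => hΘ⟩
    · exact ⟨Φ, fun h => absurd h hi⟩
  choose Θ hΘ using hex
  have hact : ∀ i ≤ k, (R d 2 ^ (k - i) * R ν (ll E) ^ i) z = ll E ^ k • z := by
    intro i hi
    change (R d 2 ^ (k - i)) ((R ν (ll E) ^ i) z) = _
    rw [Rl_pow_perp hν hνz, map_smul, act_dir hd hzd, smul_smul, ← pow_add,
      Nat.add_sub_cancel' hi]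
  have hzσ : ‖ll E ^ k • z‖ ≤ X.σ * ll E ^ k := by
    rw [norm_smul, Real.norm_of_nonneg (pow_pos hl0 k).le]
    have h1 := hz.trans (min_le_right κ (X.σ / 2))
    have h2 := pow_pos hl0 k
    have h3 := X.hσ0
    nlinarith
  have hsum : ∀ i ≤ k, ‖Θ i (ll E ^ k • z) - Θ 0 (ll E ^ k • z)‖ ≤ i * (K * ll E ^ k * ‖z‖ ^ 2) := by
    intro i
    induction i with
    | zero => intro _; simp
    | succ i ih =>
      intro hi
      have h1 := ih (by omega)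
      have h2 := hK k k _ _ _ _ le_rfl (Nat.le_succ k) (hΘ i (by omega)) (hΘ (i + 1) hi) (by
        have h3 : R d 2 ^ (k - (i + 1)) * R ν (ll E) ^ (i + 1) * (R d 2 ^ (k - i) * R ν (ll E) ^ i)⁻¹
            = R ν (ll E) * (R d 2)⁻¹ := by
          have h4 : k - i = (k - (i + 1)) + 1 := by omega
          rw [h4]
          exact grp hcomm _ _
        rw [h3]
        refine (sz_mul _ _).trans ?_
        rw [sz_inv]
        exact mul_le_mul (Rl_sz X.hn hν) (R2_sz X.hn hd) (sz_nonneg _) hbb) z hzκ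
        (hact i (by omega)) (hact (i + 1) hi)
      calc ‖Θ (i + 1) (ll E ^ k • z) - Θ 0 (ll E ^ k • z)‖
          = ‖(Θ (i + 1) (ll E ^ k • z) - Θ i (ll E ^ k • z))
              + (Θ i (ll E ^ k • z) - Θ 0 (ll E ^ k • z))‖ := by rw [sub_add_sub_cancel]
        _ ≤ K * ll E ^ k * ‖z‖ ^ 2 + i * (K * ll E ^ k * ‖z‖ ^ 2) :=
            (norm_add_le _ _).trans (add_le_add h2 h1)
        _ = ((i + 1 : ℕ) : ℝ) * (K * ll E ^ k * ‖z‖ ^ 2) := by push_cast; ring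
  have h0 : Θ 0 (ll E ^ k • z) = Φ (ll E ^ k • z) := by
    have h1 := hΘ 0 (Nat.zero_le k)
    rw [Nat.sub_zero, pow_zero (R ν (ll E)), mul_one] at h1
    exact good_uniq hl0 X.hσ0 X.hσr h1 hΦ hzσ
  have hk : Θ k (ll E ^ k • z) = Ψ (ll E ^ k • z) := by
    have h1 := hΘ k le_rfl
    rw [Nat.sub_self, pow_zero, one_mul] at h1
    exact good_uniq hl0 X.hσ0 X.hσr h1 hΨ hzσ
  rw [← h0, ← hk]
  exact hsum k le_rfl

end Ctx
end LatLin
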