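import Pool.Agent.Lib.MP_2392aa_gt.Defs

/-! Infinite compositions of maps close to linear maps of norm at most one (for MP_2392aa_gt). -/

open scoped ContDiff Nat
open Metric

set_option linter.unusedSectionVars false

namespace LatLin

section Comp
variable {E : Type*} [NormedAddCommGroup E] [NormedSpace ℝ E]

/-- composition `h 0 ∘ h 1 ∘ ... ∘ h (k-1)` -/
def comp (h : ℕ → E → E) : ℕ → E → E
  | 0 => fun y => y
  | (k + 1) => fun y => comp h k (h k y)

theorem comp_zero (h : ℕ → E → E) (y : E) : comp h 0 y = y := rfl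

theorem comp_succ (h : ℕ → E → E) (k : ℕ) (y : E) : comp h (k + 1) y = comp h k (h k y) := rfl

theorem comp_succ' (h : ℕ → E → E) (k : ℕ) (y : E) :
    comp h (k + 1) y = h 0 (comp (fun j => h (j + 1)) k y) := by
  induction k generalizing y with
  | zero => rfl
  | succ k ih => rw [comp_succ, ih, comp_succ]

theorem comp_contDiff (h : ℕ → E → E) (hh : ∀ j, ContDiff ℝ ∞ (h j)) (k : ℕ) :
    ContDiff ℝ ∞ (comp h k) := by
  induction k with
  | zero => exact contDiff_id
  | succ k ih => exact ih.comp (hh k)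

theorem comp_fix (h : ℕ → E → E) (hh : ∀ j, h j 0 = 0) (k : ℕ) : comp h k 0 = 0 := by
  induction k with
  | zero => rfl
  | succ k ih => rw [comp_succ, hh, ih]

theorem prod_le_exp (a : ℕ → ℝ) (ha : ∀ i, 0 ≤ a i) {A l : ℝ} (hl0 : 0 < l) (hl1 : l < 1)
    (h : ∀ i, a i ≤ A * l ^ i) (k : ℕ) :
    ∏ i ∈ Finset.range k, (1 + a i) ≤ Real.exp (A / (1 - l)) := by
  have hA : 0 ≤ A := by
    have := (ha 0).trans (h 0)
    simpa using this
  calc ∏ i ∈ Finset.range k, (1 + a i) ≤ ∏ i ∈ Finset.range k, Real.exp (A * l ^ i) := by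
        apply Finset.prod_le_prod
        · intro i _
          linarith [ha i]
        · intro i _
          have := Real.add_one_le_exp (A * l ^ i)
          linarith [h i]
    _ = Real.exp (∑ i ∈ Finset.range k, A * l ^ i) := (Real.exp_sum _ _).symm
    _ ≤ Real.exp (A / (1 - l)) := by
        apply Real.exp_le_exp.mpr
        rw [← Finset.mul_sum, div_eq_mul_inv]
        apply mul_le_mul_of_nonneg_left _ hA
        have h1 := Summable.sum_le_tsum (Finset.range k) (fun i _ => pow_nonneg hl0.le i)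
          (summable_geometric_of_lt_one hl0.le hl1)
        rw [tsum_geometric_of_lt_one hl0.le hl1] at h1
        exact h1

theorem one_le_prodR (a : ℕ → ℝ) (ha : ∀ i, 0 ≤ a i) (k : ℕ) :
    1 ≤ ∏ i ∈ Finset.range k, (1 + a i) := by
  induction k with
  | zero => simp
  | succ k ih =>
    rw [Finset.prod_range_succ]
    nlinarith [ha k]

/-- bounds for all derivatives of a composition, base points controlled separately -/
theorem comp_deriv (m : ℕ) (s : ℝ) : ∀ (k : ℕ) (h : ℕ → E → E) (T : ℕ → E →L[ℝ] E) (a e : ℕ → ℝ),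
    (∀ j, ContDiff ℝ ∞ (h j)) → (∀ j, ‖T j‖ ≤ 1) → (∀ j, 0 ≤ a j) → (∀ j, 0 ≤ e j) →
    (∀ j y, ‖y‖ ≤ s → ‖h j y‖ ≤ (1 + a j) * ‖y‖) →
    (∀ i ≤ m, ∀ j y, ‖y‖ ≤ s → ‖iteratedFDeriv ℝ i (fun y => h j y - T j y) y‖ ≤ e j) →
    ∀ x, (∏ j ∈ Finset.range k, (1 + a j)) * ‖x‖ ≤ s →
      ‖comp h k x‖ ≤ (∏ j ∈ Finset.range k, (1 + a j)) * ‖x‖ ∧
      ∀ i, 1 ≤ i → i ≤ m → ‖iteratedFDeriv ℝ i (comp h k) x‖
        ≤ (∏ j ∈ Finset.range k, (1 + m ! * e j)) ^ i := by
  intro k
  induction k with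
  | zero =>
    intro h T a e hh hT ha he hbase hder x hx
    refine ⟨by simp [comp_zero], ?_⟩
    intro i hi him
    simp only [Finset.range_zero, Finset.prod_empty, one_pow]
    have h1 : comp h 0 = fun y => y := rfl
    rw [h1]
    obtain ⟨i, rfl⟩ : ∃ i', i = i' + 1 := ⟨i - 1, by omega⟩
    rw [← norm_iteratedFDeriv_fderiv]
    have h2 : fderiv ℝ (fun y : E => y) = fun _ => ContinuousLinearMap.id ℝ E := by
      ext x
      simp
    rw [h2]
    rcases Nat.eq_zero_or_pos i with rfl | hi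
    · rw [norm_iteratedFDeriv_zero]
      exact ContinuousLinearMap.norm_id_le
    · rw [iteratedFDeriv_const_of_ne (by omega)]
      simp
  | succ k ih =>
    intro h T a e hh hT ha he hbase hder x hx
    rw [Finset.prod_range_succ'] at hx
    set Qa := ∏ j ∈ Finset.range k, (1 + a (j + 1)) with hQa
    set Qe := ∏ j ∈ Finset.range k, (1 + m ! * e (j + 1)) with hQe
    have hQa0 : 0 ≤ Qa := Finset.prod_nonneg fun j _ => by linarith [ha (j + 1)]
    have hQe1 : 1 ≤ Qe :=
      one_le_prodR (fun j => m ! * e (j + 1)) (fun j => mul_nonneg (Nat.cast_nonneg _) (he _)) k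
    have hx' : Qa * ‖x‖ ≤ s := by
      refine le_trans ?_ hx
      have h1 : Qa * ‖x‖ * 1 ≤ Qa * ‖x‖ * (1 + a 0) :=
        mul_le_mul_of_nonneg_left (by linarith [ha 0]) (mul_nonneg hQa0 (norm_nonneg _))
      nlinarith
    obtain ⟨h1, h2⟩ := ih (fun j => h (j + 1)) (fun j => T (j + 1)) (fun j => a (j + 1))
      (fun j => e (j + 1)) (fun j => hh _) (fun j => hT _) (fun j => ha _) (fun j => he _)
      (fun j => hbase _) (fun i hi j => hder i hi _) x hx'
    set f := comp (fun j => h (j + 1)) k with hf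
    have hfs : ‖f x‖ ≤ s := h1.trans hx'
    have hcomp : comp h (k + 1) = fun y => h 0 (f y) := by
      ext y
      exact comp_succ' h k y
    have hfC : ContDiff ℝ ∞ f := comp_contDiff _ (fun j => hh _) k
    rw [Finset.prod_range_succ', Finset.prod_range_succ', hcomp]
    refine ⟨?_, ?_⟩
    · calc ‖h 0 (f x)‖ ≤ (1 + a 0) * ‖f x‖ := hbase 0 _ hfs
        _ ≤ (1 + a 0) * (Qa * ‖x‖) := mul_le_mul_of_nonneg_left h1 (by linarith [ha 0])
        _ = Qa * (1 + a 0) * ‖x‖ := by ring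
    · intro i hi him
      have hsplit : (fun y => h 0 (f y)) = (fun y => T 0 (f y)) + ((fun y => h 0 y - T 0 y) ∘ f) := by
        ext y
        simp
      have hq : ContDiff ℝ ∞ (fun y => h 0 y - T 0 y) := (hh 0).sub (T 0).contDiff
      have hi' : ((i : ℕ) : WithTop ℕ∞) ≤ ∞ := by exact_mod_cast le_top
      rw [hsplit, iteratedFDeriv_add_apply (f := fun y => T 0 (f y))
        (((T 0).contDiff.comp hfC).of_le hi').contDiffAt ((hq.comp hfC).of_le hi').contDiffAt]
      have e1 : ‖iteratedFDeriv ℝ i (fun y => T 0 (f y)) x‖ ≤ Qe ^ i := by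
        have h3 : iteratedFDeriv ℝ i (fun y => T 0 (f y)) x
            = (T 0).compContinuousMultilinearMap (iteratedFDeriv ℝ i f x) :=
          (T 0).iteratedFDeriv_comp_left (hfC.of_le hi').contDiffAt le_rfl
        rw [h3]
        refine (ContinuousLinearMap.norm_compContinuousMultilinearMap_le _ _).trans ?_
        calc ‖T 0‖ * ‖iteratedFDeriv ℝ i f x‖ ≤ 1 * Qe ^ i :=
              mul_le_mul (hT 0) (h2 i hi him) (norm_nonneg _) zero_le_one
          _ = Qe ^ i := one_mul _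
      have e2 : ‖iteratedFDeriv ℝ i ((fun y => h 0 y - T 0 y) ∘ f) x‖ ≤ i ! * e 0 * Qe ^ i :=
        norm_iteratedFDeriv_comp_le hq hfC hi' x
          (fun l hl => hder l (hl.trans him) 0 _ hfs) (fun l hl1 hl2 => h2 l hl1 (hl2.trans him))
      have hfac : (i ! : ℝ) ≤ m ! := by exact_mod_cast Nat.factorial_le him
      calc ‖iteratedFDeriv ℝ i (fun y => T 0 (f y)) x
            + iteratedFDeriv ℝ i ((fun y => h 0 y - T 0 y) ∘ f) x‖
          ≤ Qe ^ i + i ! * e 0 * Qe ^ i := (norm_add_le _ _).trans (add_le_add e1 e2)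
        _ ≤ Qe ^ i + m ! * e 0 * Qe ^ i := by
            apply add_le_add le_rfl
            apply mul_le_mul_of_nonneg_right _ (pow_nonneg (by linarith) _)
            exact mul_le_mul_of_nonneg_right hfac (he 0)
        _ = Qe ^ i * (1 + m ! * e 0) := by ring
        _ ≤ Qe ^ i * (1 + m ! * e 0) ^ i := by
            apply mul_le_mul_of_nonneg_left _ (pow_nonneg (by linarith) _)
            have h5 : (0 : ℝ) ≤ m ! * e 0 := mul_nonneg (Nat.cast_nonneg _) (he 0)
            exact le_self_pow₀ (by linarith) (by omega)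
        _ = (Qe * (1 + m ! * e 0)) ^ i := by rw [mul_pow]

theorem fder_est {h : E → E} (hh : ContDiff ℝ ∞ h) {T : E →L[ℝ] E} (hT : HasFDerivAt h T 0)
    {κ : ℝ} (hκ : ∀ y, ‖y‖ ≤ 1 → ‖iteratedFDeriv ℝ 2 h y‖ ≤ κ) {y : E} (hy : ‖y‖ ≤ 1) :
    ‖fderiv ℝ h y - T‖ ≤ κ * ‖y‖ := by
  have h1 : fderiv ℝ h 0 = T := hT.fderiv
  have h2 := Convex.norm_image_sub_le_of_norm_hasFDerivWithin_le (f := fderiv ℝ h)
    (f' := fun y => fderiv ℝ (fderiv ℝ h) y) (s := closedBall (0 : E) 1) (C := κ)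
    (fun z _ => (((hh.fderiv_right (m := 1) (by norm_cast)).differentiable
      one_ne_zero) z).hasFDerivAt.hasFDerivWithinAt)
    (fun z hz => by
      rw [← norm_iteratedFDeriv_one, norm_iteratedFDeriv_fderiv]
      exact hκ z (mem_closedBall_zero_iff.mp hz)) (convex_closedBall _ _)
    (mem_closedBall_self zero_le_one) (mem_closedBall_zero_iff.mpr hy)
  rw [h1, sub_zero] at h2
  exact h2

/-- second order Taylor estimate -/
theorem lip_est {h : E → E} (hh : ContDiff ℝ ∞ h) {T : E →L[ℝ] E} (hT : HasFDerivAt h T 0)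
    {κ : ℝ} (hκ : ∀ y, ‖y‖ ≤ 1 → ‖iteratedFDeriv ℝ 2 h y‖ ≤ κ) {s : ℝ} (hs1 : s ≤ 1)
    {y y' : E} (hy : ‖y‖ ≤ s) (hy' : ‖y'‖ ≤ s) :
    ‖h y - h y' - T (y - y')‖ ≤ κ * s * ‖y - y'‖ := by
  have hκ0 : 0 ≤ κ := (norm_nonneg _).trans (hκ 0 (by simp))
  refine Convex.norm_image_sub_le_of_norm_hasFDerivWithin_le' (f := h) (f' := fun y => fderiv ℝ h y)
    (s := closedBall (0 : E) s) (fun z _ => ((hh.differentiable (by simp)) z).hasFDerivAt.hasFDerivWithinAt)
    (fun z hz => ?_) (convex_closedBall _ _) (mem_closedBall_zero_iff.mpr hy')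
    (mem_closedBall_zero_iff.mpr hy)
  rw [mem_closedBall_zero_iff] at hz
  exact (fder_est hh hT hκ (hz.trans hs1)).trans (mul_le_mul_of_nonneg_left hz hκ0)

theorem comp_scale (h : ℕ → E → E) {l : ℝ} (hl0 : 0 < l) (k : ℕ) (x : E) :
    comp (fun j x => (l ^ j)⁻¹ • h j (l ^ (j + 1) • x)) k x = comp h k (l ^ k • x) := by
  induction k generalizing x with
  | zero => simp [comp_zero]
  | succ k ih =>
    rw [comp_succ, ih, comp_succ, smul_smul, mul_inv_cancel₀ (pow_pos hl0 k).ne', one_smul]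

theorem iter_scale (i : ℕ) {q : E → E} (hq : ContDiff ℝ ∞ q) (a b : ℝ) (hb : 0 ≤ b) (x : E) :
    ‖iteratedFDeriv ℝ i (fun x => a • q (b • x)) x‖ ≤ |a| * (b ^ i * ‖iteratedFDeriv ℝ i q (b • x)‖) := by
  have hi' : ((i : ℕ) : WithTop ℕ∞) ≤ ∞ := by exact_mod_cast le_top
  have hqi : ContDiff ℝ i q := hq.of_le hi'
  have h1 : iteratedFDeriv ℝ i (fun x => q (b • x)) x
      = (iteratedFDeriv ℝ i q (b • x)).compContinuousLinearMap
        (fun _ => (b • ContinuousLinearMap.id ℝ E)) :=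
    (b • ContinuousLinearMap.id ℝ E).iteratedFDeriv_comp_right hqi x le_rfl
  have h2 : ContDiff ℝ i (fun x => q (b • x)) := hqi.comp (contDiff_const_smul b)
  have h3 : iteratedFDeriv ℝ i (fun x => a • q (b • x)) x = a • iteratedFDeriv ℝ i (fun x => q (b • x)) x :=
    iteratedFDeriv_const_smul_apply h2.contDiffAt
  rw [h3, h1, norm_smul, Real.norm_eq_abs]
  apply mul_le_mul_of_nonneg_left _ (abs_nonneg _)
  refine (ContinuousMultilinearMap.norm_compContinuousLinearMap_le _ _).trans ?_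
  rw [mul_comm]
  apply mul_le_mul_of_nonneg_right _ (norm_nonneg _)
  rw [Finset.prod_const, Finset.card_univ, Fintype.card_fin]
  apply pow_le_pow_left₀ (norm_nonneg _)
  refine ContinuousLinearMap.opNorm_le_bound _ hb fun v => ?_
  change ‖b • v‖ ≤ b * ‖v‖
  rw [norm_smul, Real.norm_of_nonneg hb]

/-- main estimates for compositions -/
theorem comp_main (M : Type*) {l : ℝ} (hl0 : 0 < l) (hl1 : l < 1) (K : ℕ → ℝ) {r : ℝ} (hr : 0 < r) :
    ∃ ρ : ℝ, 0 < ρ ∧ ρ ≤ 1 ∧ ∃ C : ℕ → ℝ, ∀ (h : ℕ → E → E) (T : ℕ → E →L[ℝ] E),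
      (∀ j, ContDiff ℝ ∞ (h j)) → (∀ j, h j 0 = 0) → (∀ j, HasFDerivAt (h j) (T j) 0) →
      (∀ j, ‖T j‖ ≤ l⁻¹) →
      (∀ j m y, ‖y‖ ≤ 1 → ‖iteratedFDeriv ℝ m (h j) y‖ ≤ K m) → ∀ k : ℕ,
      (∀ y y', ‖y‖ ≤ ρ * l ^ k → ‖y'‖ ≤ ρ * l ^ k →
        ‖comp h k y - comp h k y'‖ ≤ 2 * (l ^ k)⁻¹ * ‖y - y'‖) ∧
      (∀ x, ‖x‖ ≤ ρ → ∀ m, 1 ≤ m →
        ‖iteratedFDeriv ℝ m (fun x => comp h k (l ^ k • x)) x‖ ≤ C m) ∧
      ∀ b : ℕ → E → M, (∀ j y, ‖y‖ < r → b (j + 1) y = b j (h j y)) →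
        ∀ y, ‖y‖ ≤ ρ * l ^ k → b k y = b 0 (comp h k y) := by
  set κ : ℝ := |K 2| with hκ
  have hκ0 : 0 ≤ κ := abs_nonneg _
  have hl2 : 0 < 1 - l := by linarith
  have hlog : 0 < Real.log 2 := Real.log_pos (by norm_num)
  set ρ0 : ℝ := min (min 1 (r / 2)) ((1 - l) * Real.log 2 / (κ + 1)) with hρ0
  have hρ0pos : 0 < ρ0 := lt_min (lt_min one_pos (by linarith)) (by positivity)
  have hρ01 : ρ0 ≤ 1 := (min_le_left _ _).trans (min_le_left _ _)
  have hρ0r : ρ0 < r := ((min_le_left _ _).trans (min_le_right _ _)).trans_lt (by linarith)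
  have hρ0l : κ * ρ0 / (1 - l) ≤ Real.log 2 := by
    rw [div_le_iff₀ hl2]
    have h1 : ρ0 ≤ (1 - l) * Real.log 2 / (κ + 1) := min_le_right _ _
    rw [le_div_iff₀ (by linarith)] at h1
    nlinarith
  set a : ℕ → ℝ := fun j => κ * ρ0 * l ^ j with ha
  have ha0 : ∀ j, 0 ≤ a j := fun j => by positivity
  set q : ℕ → ℝ := fun k => ∏ i ∈ Finset.range k, (1 + a i) with hq
  have hq1 : ∀ k, 1 ≤ q k := fun k => one_le_prodR a ha0 k
  have hq2 : ∀ k, q k ≤ 2 := fun k => by
    refine (prod_le_exp a ha0 (A := κ * ρ0) hl0 hl1 (fun i => le_rfl) k).trans ?_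
    calc Real.exp (κ * ρ0 / (1 - l)) ≤ Real.exp (Real.log 2) := Real.exp_le_exp.mpr hρ0l
      _ = 2 := Real.exp_log (by norm_num)
  set Ce : ℕ → ℝ := fun m => κ + ∑ i ∈ Finset.range (m + 1), |K i| with hCe
  have hCe0 : ∀ m, 0 ≤ Ce m := fun m => add_nonneg hκ0 (Finset.sum_nonneg fun i _ => abs_nonneg _)
  refine ⟨ρ0 / 2, by linarith, by linarith, fun m => Real.exp (m ! * Ce m / (1 - l)) ^ m, ?_⟩
  intro h T hh h0 hT hTn hK k
  have hK2 : ∀ j y, ‖y‖ ≤ 1 → ‖iteratedFDeriv ℝ 2 (h j) y‖ ≤ κ := fun j y hy =>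
    (hK j 2 y hy).trans (le_abs_self _)
  have hlk : ∀ k, 0 < l ^ k := fun k => pow_pos hl0 k
  have hlk1 : ∀ k, l ^ k ≤ 1 := fun k => pow_le_one₀ hl0.le hl1.le
  -- basic Lipschitz estimate for one map
  have hone : ∀ j y y', ‖y‖ ≤ ρ0 * l ^ (j + 1) → ‖y'‖ ≤ ρ0 * l ^ (j + 1) →
      ‖h j y - h j y'‖ ≤ l⁻¹ * (1 + a j) * ‖y - y'‖ := by
    intro j y y' hy hy'
    have hs1 : ρ0 * l ^ (j + 1) ≤ 1 := by
      calc ρ0 * l ^ (j + 1) ≤ 1 * 1 := mul_le_mul hρ01 (hlk1 _) (hlk _).le zero_le_one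
        _ = 1 := one_mul 1
    have h1 := lip_est (hh j) (hT j) (hK2 j) hs1 hy hy'
    have h2 : ‖T j (y - y')‖ ≤ l⁻¹ * ‖y - y'‖ :=
      ((T j).le_opNorm _).trans (mul_le_mul_of_nonneg_right (hTn j) (norm_nonneg _))
    have h3 : κ * (ρ0 * l ^ (j + 1)) ≤ l⁻¹ * a j := by
      have h4 : l * l ≤ 1 := by nlinarith
      have h5 : κ * (ρ0 * l ^ (j + 1)) = l⁻¹ * (κ * ρ0 * l ^ j * (l * l)) := by
        field_simp
        ring
      rw [h5]
      apply mul_le_mul_of_nonneg_left _ (inv_pos.mpr hl0).le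
      exact mul_le_of_le_one_right (ha0 j) h4
    calc ‖h j y - h j y'‖ = ‖(h j y - h j y' - T j (y - y')) + T j (y - y')‖ := by
          rw [sub_add_cancel]
      _ ≤ κ * (ρ0 * l ^ (j + 1)) * ‖y - y'‖ + l⁻¹ * ‖y - y'‖ :=
          (norm_add_le _ _).trans (add_le_add h1 h2)
      _ ≤ l⁻¹ * a j * ‖y - y'‖ + l⁻¹ * ‖y - y'‖ :=
          add_le_add (mul_le_mul_of_nonneg_right h3 (norm_nonneg _)) le_rfl
      _ = l⁻¹ * (1 + a j) * ‖y - y'‖ := by ring
  have hsmall : ∀ (k : ℕ) (y : E), q k * ‖y‖ ≤ ρ0 * l ^ k → ‖y‖ ≤ ρ0 * l ^ k := by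
    intro k y hy
    nlinarith [hq1 k, norm_nonneg y]
  have hstep : ∀ (k : ℕ) (y : E), q (k + 1) * ‖y‖ ≤ ρ0 * l ^ (k + 1) → q k * ‖h k y‖ ≤ ρ0 * l ^ k := by
    intro k y hy
    have h1 := hone k y 0 (hsmall _ y hy) (by rw [norm_zero]; positivity)
    rw [h0 k, sub_zero, sub_zero] at h1
    have h2 : q (k + 1) = q k * (1 + a k) := Finset.prod_range_succ _ _
    calc q k * ‖h k y‖ ≤ q k * (l⁻¹ * (1 + a k) * ‖y‖) :=
          mul_le_mul_of_nonneg_left h1 (by linarith [hq1 k])
      _ = l⁻¹ * (q (k + 1) * ‖y‖) := by rw [h2]; ring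
      _ ≤ l⁻¹ * (ρ0 * l ^ (k + 1)) := mul_le_mul_of_nonneg_left hy (inv_pos.mpr hl0).le
      _ = ρ0 * l ^ k := by field_simp; ring
  have hbig : ∀ (k : ℕ) (y : E), ‖y‖ ≤ ρ0 / 2 * l ^ k → q k * ‖y‖ ≤ ρ0 * l ^ k := by
    intro k y hy
    calc q k * ‖y‖ ≤ 2 * (ρ0 / 2 * l ^ k) := mul_le_mul (hq2 k) hy (norm_nonneg _) (by norm_num)
      _ = ρ0 * l ^ k := by ring
  refine ⟨?_, ?_, ?_⟩
  · have hP : ∀ k, ∀ y y', q k * ‖y‖ ≤ ρ0 * l ^ k → q k * ‖y'‖ ≤ ρ0 * l ^ k →
        ‖comp h k y - comp h k y'‖ ≤ q k * (l ^ k)⁻¹ * ‖y - y'‖ := by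
      intro k
      induction k with
      | zero =>
        intro y y' _ _
        simp [comp_zero, hq]
      | succ k ih =>
        intro y y' hy hy'
        rw [comp_succ, comp_succ]
        have h2 : q (k + 1) = q k * (1 + a k) := Finset.prod_range_succ _ _
        have hc : 0 ≤ q k * (l ^ k)⁻¹ := mul_nonneg (by linarith [hq1 k]) (inv_pos.mpr (hlk k)).le
        calc ‖comp h k (h k y) - comp h k (h k y')‖ ≤ q k * (l ^ k)⁻¹ * ‖h k y - h k y'‖ :=
              ih _ _ (hstep k y hy) (hstep k y' hy')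
          _ ≤ q k * (l ^ k)⁻¹ * (l⁻¹ * (1 + a k) * ‖y - y'‖) :=
              mul_le_mul_of_nonneg_left (hone k y y' (hsmall _ y hy) (hsmall _ y' hy')) hc
          _ = q (k + 1) * (l ^ (k + 1))⁻¹ * ‖y - y'‖ := by
              rw [h2, pow_succ, mul_inv]
              ring
    intro y y' hy hy'
    refine (hP k y y' (hbig k y hy) (hbig k y' hy')).trans ?_
    apply mul_le_mul_of_nonneg_right _ (norm_nonneg _)
    exact mul_le_mul_of_nonneg_right (hq2 k) (inv_pos.mpr (hlk k)).le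
  · intro x hx m hm
    have hi' : ∀ i : ℕ, ((i : ℕ) : WithTop ℕ∞) ≤ ∞ := fun i => by exact_mod_cast le_top
    set ht : ℕ → E → E := fun j x => (l ^ j)⁻¹ • h j (l ^ (j + 1) • x) with hht
    set Tt : ℕ → E →L[ℝ] E := fun j => l • T j with hTt
    have hcs : (fun x => comp h k (l ^ k • x)) = comp ht k := by
      ext x
      exact (comp_scale h hl0 k x).symm
    rw [hcs]
    have hmain := comp_deriv m ρ0 k ht Tt a (fun j => Ce m * l ^ j)
      (fun j => ((hh j).comp (contDiff_const_smul _)).const_smul _)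
      (fun j => by
        refine ContinuousLinearMap.opNorm_le_bound _ zero_le_one fun v => ?_
        change ‖l • T j v‖ ≤ 1 * ‖v‖
        rw [norm_smul, Real.norm_of_nonneg hl0.le]
        calc l * ‖T j v‖ ≤ l * (l⁻¹ * ‖v‖) := mul_le_mul_of_nonneg_left
              (((T j).le_opNorm _).trans (mul_le_mul_of_nonneg_right (hTn j) (norm_nonneg _))) hl0.le
          _ = 1 * ‖v‖ := by rw [← mul_assoc, mul_inv_cancel₀ hl0.ne'])
      ha0 (fun j => mul_nonneg (hCe0 m) (hlk j).le)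
      (fun j y hy => by
        change ‖(l ^ j)⁻¹ • h j (l ^ (j + 1) • y)‖ ≤ _
        have hz : ‖l ^ (j + 1) • y‖ ≤ ρ0 * l ^ (j + 1) := by
          rw [norm_smul, Real.norm_of_nonneg (hlk _).le, mul_comm]
          exact mul_le_mul_of_nonneg_right hy (hlk _).le
        have h1 := hone j (l ^ (j + 1) • y) 0 hz (by rw [norm_zero]; positivity)
        rw [h0 j, sub_zero, sub_zero, norm_smul, Real.norm_of_nonneg (hlk _).le] at h1
        rw [norm_smul, Real.norm_of_nonneg (inv_pos.mpr (hlk j)).le]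
        calc (l ^ j)⁻¹ * ‖h j (l ^ (j + 1) • y)‖
            ≤ (l ^ j)⁻¹ * (l⁻¹ * (1 + a j) * (l ^ (j + 1) * ‖y‖)) :=
              mul_le_mul_of_nonneg_left h1 (inv_pos.mpr (hlk j)).le
          _ = (1 + a j) * ‖y‖ := by
              rw [pow_succ]
              have := (hlk j).ne'
              field_simp)
      (fun i him j y hy => by
        have hqC : ContDiff ℝ ∞ (fun z => h j z - T j z) := (hh j).sub (T j).contDiff
        have hy1 : ‖l ^ (j + 1) • y‖ ≤ l ^ (j + 1) := by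
          rw [norm_smul, Real.norm_of_nonneg (hlk _).le]
          exact mul_le_of_le_one_right (hlk _).le (hy.trans hρ01)
        have hy2 : ‖l ^ (j + 1) • y‖ ≤ 1 := hy1.trans (hlk1 _)
        have heq : (fun y => ht j y - Tt j y)
            = fun y => (l ^ j)⁻¹ • (fun z => h j z - T j z) (l ^ (j + 1) • y) := by
          ext y
          change (l ^ j)⁻¹ • h j (l ^ (j + 1) • y) - l • T j y = _
          simp only [map_smul, smul_sub, smul_smul]
          congr 2
          rw [pow_succ]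
          have := (hlk j).ne'
          field_simp
        rw [heq]
        refine (iter_scale i hqC _ _ (hlk _).le y).trans ?_
        rw [abs_of_pos (inv_pos.mpr (hlk j))]
        have hCeκ : κ ≤ Ce m := by
          simp only [hCe]
          linarith [Finset.sum_nonneg (s := Finset.range (m + 1)) (f := fun i => |K i|)
            (fun i _ => abs_nonneg _)]
        have key : ∀ t : ℝ, 0 ≤ t → ∀ c : ℝ, c ≤ l ^ (j + 1) * l ^ (j + 1) * t → t ≤ Ce m →
            (l ^ j)⁻¹ * c ≤ Ce m * l ^ j := by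
          intro t ht0 c hc htC
          calc (l ^ j)⁻¹ * c ≤ (l ^ j)⁻¹ * (l ^ (j + 1) * l ^ (j + 1) * t) :=
                mul_le_mul_of_nonneg_left hc (inv_pos.mpr (hlk j)).le
            _ = t * l ^ j * (l * l) := by
                rw [pow_succ]
                have := (hlk j).ne'
                field_simp
            _ ≤ t * l ^ j * 1 := mul_le_mul_of_nonneg_left (by nlinarith)
                (mul_nonneg ht0 (hlk j).le)
            _ ≤ Ce m * l ^ j := by
                rw [mul_one]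
                exact mul_le_mul_of_nonneg_right htC (hlk j).le
        rcases Nat.lt_or_ge i 2 with hi2 | hi2
        · have hi01 : i = 0 ∨ i = 1 := by omega
          rcases hi01 with rfl | rfl
          · apply key κ hκ0 _ _ hCeκ
            rw [pow_zero, one_mul, norm_iteratedFDeriv_zero]
            have h1 := lip_est (hh j) (hT j) (hK2 j) ((le_refl _).trans hy2)
              (y := l ^ (j + 1) • y) (y' := 0) le_rfl (by rw [norm_zero]; exact norm_nonneg _)
            rw [h0 j, sub_zero, sub_zero] at h1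
            refine h1.trans ?_
            calc κ * ‖l ^ (j + 1) • y‖ * ‖l ^ (j + 1) • y‖
                ≤ κ * l ^ (j + 1) * l ^ (j + 1) := by
                  apply mul_le_mul _ hy1 (norm_nonneg _) (by positivity)
                  exact mul_le_mul_of_nonneg_left hy1 hκ0
              _ = l ^ (j + 1) * l ^ (j + 1) * κ := by ring
          · apply key κ hκ0 _ _ hCeκ
            rw [pow_one, norm_iteratedFDeriv_one]
            have h2 : fderiv ℝ (fun z => h j z - T j z) (l ^ (j + 1) • y)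
                = fderiv ℝ (h j) (l ^ (j + 1) • y) - T j := by
              rw [fderiv_fun_sub ((hh j).differentiable (by simp) _) (T j).differentiableAt,
                (T j).fderiv]
            rw [h2]
            calc l ^ (j + 1) * ‖fderiv ℝ (h j) (l ^ (j + 1) • y) - T j‖
                ≤ l ^ (j + 1) * (κ * l ^ (j + 1)) := by
                  apply mul_le_mul_of_nonneg_left _ (hlk _).le
                  exact (fder_est (hh j) (hT j) (hK2 j) hy2).trans
                    (mul_le_mul_of_nonneg_left hy1 hκ0)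
              _ = l ^ (j + 1) * l ^ (j + 1) * κ := by ring
        · have hKi : ‖iteratedFDeriv ℝ i (fun z => h j z - T j z) (l ^ (j + 1) • y)‖ ≤ |K i| := by
            have h3 : iteratedFDeriv ℝ i (fun z => h j z - T j z) (l ^ (j + 1) • y)
                = iteratedFDeriv ℝ i (h j) (l ^ (j + 1) • y)
                  - iteratedFDeriv ℝ i (fun z => T j z) (l ^ (j + 1) • y) :=
              iteratedFDeriv_sub_apply ((hh j).of_le (hi' i)).contDiffAt
                ((T j).contDiff).contDiffAt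
            have h4 : iteratedFDeriv ℝ i (fun z => T j z) (l ^ (j + 1) • y) = 0 := by
              obtain ⟨i', rfl⟩ : ∃ i', i = i' + 2 := ⟨i - 2, by omega⟩
              rw [← norm_eq_zero, ← norm_iteratedFDeriv_fderiv]
              have h5 : fderiv ℝ (fun z => T j z) = fun _ => T j := by
                ext1 z
                exact (T j).fderiv
              rw [h5, iteratedFDeriv_const_of_ne (by omega)]
              simp
            rw [h3, h4, sub_zero]
            exact (hK j i _ hy2).trans (le_abs_self _)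
          apply key |K i| (abs_nonneg _)
          · have h6 : (l ^ (j + 1)) ^ i ≤ l ^ (j + 1) * l ^ (j + 1) := by
              rw [← sq]
              exact pow_le_pow_of_le_one (hlk _).le (hlk1 _) hi2
            exact mul_le_mul h6 hKi (norm_nonneg _) (by positivity)
          · simp only [hCe]
            have h7 := Finset.single_le_sum (s := Finset.range (m + 1)) (f := fun i => |K i|)
              (fun i _ => abs_nonneg _) (Finset.mem_range.mpr (Nat.lt_succ_of_le him))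
            linarith)
      x (by
        have := mul_le_mul (hq2 k) hx (norm_nonneg x) (by norm_num)
        calc q k * ‖x‖ ≤ 2 * (ρ0 / 2) := this
          _ = ρ0 := by ring)
    refine (hmain.2 m hm le_rfl).trans ?_
    apply pow_le_pow_left₀ _ _ m
    · exact zero_le_one.trans (one_le_prodR (fun j => m ! * (Ce m * l ^ j))
        (fun j => mul_nonneg (Nat.cast_nonneg _) (mul_nonneg (hCe0 m) (hlk j).le)) k)
    · apply prod_le_exp (fun j => m ! * (Ce m * l ^ j))
        (fun j => mul_nonneg (Nat.cast_nonneg _) (mul_nonneg (hCe0 m) (hlk j).le)) hl0 hl1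
      intro i
      rw [mul_assoc]
  · intro b hb
    have hB : ∀ k y, q k * ‖y‖ ≤ ρ0 * l ^ k → b k y = b 0 (comp h k y) := by
      intro k
      induction k with
      | zero =>
        intro y _
        rfl
      | succ k ih =>
        intro y hy
        rw [comp_succ, ← ih _ (hstep k y hy)]
        apply hb
        calc ‖y‖ ≤ ρ0 * l ^ (k + 1) := hsmall _ y hy
          _ ≤ ρ0 * 1 := mul_le_mul_of_nonneg_left (hlk1 _) hρ0pos.le
          _ < r := by rw [mul_one]; exact hρ0r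
    exact fun y hy => hB k y (hbig k y hy)

end Comp
end LatLin
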