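import Mathlib

/-! Definitions for the linearization of actions of cocompact lattices (MP_2392aa_gt). -/

open scoped ContDiff
open Metric

namespace LatLin

/-- iterated differences in the direction `w` with step lengths in a list -/
def mixDiff {E F : Type*} [AddCommGroup E] [Module ℝ E] [AddCommGroup F] (w : E) :
    List ℝ → (E → F) → E → F
  | [], f => f
  | (h :: l), f => mixDiff w l (fun z => f (z + h • w) - f z)

section
variable {E : Type*} [NormedAddCommGroup E] [NormedSpace ℝ E]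

/-- size of a linear automorphism -/
noncomputable def sz (g : E ≃L[ℝ] E) : ℝ :=
  max ‖(g : E →L[ℝ] E)‖ ‖((g⁻¹ : E ≃L[ℝ] E) : E →L[ℝ] E)‖

/-- determinant one -/
def IsSL (g : E ≃L[ℝ] E) : Prop := LinearMap.det ((g : E →L[ℝ] E) : E →ₗ[ℝ] E) = 1

/-- local description of an action near a fixed point in a coordinate system `χ` -/
structure LocData {Γ M : Type*} [Group Γ] [TopologicalSpace M] [MulAction Γ M]
    (ρ : Γ →* (E ≃L[ℝ] E)) where
  χ : E → M
  r0 : ℝ
  r0_pos : 0 < r0
  inj : Set.InjOn χ (ball 0 r0)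
  cont : ContinuousOn χ (ball 0 r0)
  F : Γ → E → E
  F_smooth : ∀ γ, ContDiff ℝ ∞ (F γ)
  F_zero : ∀ γ, F γ 0 = 0
  F_deriv : ∀ γ, HasFDerivAt (F γ) (ρ γ : E →L[ℝ] E) 0
  F_act : ∀ γ, ∀ᶠ y in nhds (0 : E), γ • χ y = χ (F γ y)

/-- the matrix group acting on Euclidean space -/
noncomputable def act {n : ℕ} (A : Matrix (Fin n) (Fin n) ℝ) :
    EuclideanSpace ℝ (Fin n) →L[ℝ] EuclideanSpace ℝ (Fin n) :=
  LinearMap.toContinuousLinearMap (Matrix.toEuclideanLin A)

end
end LatLin
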