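import Pool.Agent.Lib.MP_2392aa_gt.Defs

/-! Module Lattice: finiteness and coarse density of finite index subgroups of cocompact
lattices of `SL(n, ℝ)`. -/

open scoped ContDiff Manifold Matrix
open Metric

namespace LatLin

section lattice

variable {n : ℕ}

/-- Euclidean space -/
abbrev EEn (n : ℕ) : Type := EuclideanSpace ℝ (Fin n)

/-- the special linear group -/
abbrev SLn (n : ℕ) : Type := Matrix.SpecialLinearGroup (Fin n) ℝ

lemma act_apply (A : Matrix (Fin n) (Fin n) ℝ) (v : EEn n) :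
    act A v = WithLp.toLp 2 (A *ᵥ v.ofLp) := rfl

lemma act_mul (A B : Matrix (Fin n) (Fin n) ℝ) : act (A * B) = (act A).comp (act B) := by
  ext1 v
  rw [ContinuousLinearMap.comp_apply, act_apply, act_apply, act_apply, Matrix.mulVec_mulVec]

lemma act_mul_apply (A B : Matrix (Fin n) (Fin n) ℝ) (v : EEn n) :
    act (A * B) v = act A (act B v) := by
  rw [act_mul, ContinuousLinearMap.comp_apply]

lemma act_one_apply (v : EEn n) : act (1 : Matrix (Fin n) (Fin n) ℝ) v = v := by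
  rw [act_apply, Matrix.one_mulVec]

lemma act_transpose_norm (A : Matrix (Fin n) (Fin n) ℝ) : ‖act A.transpose‖ = ‖act A‖ := by
  have h : act A.transpose = ContinuousLinearMap.adjoint (act A) := by
    have h1 := Matrix.toEuclideanLin_conjTranspose_eq_adjoint (𝕜 := ℝ) A
    have h2 : A.conjTranspose = A.transpose := by
      ext i j; simp [Matrix.conjTranspose_apply]
    rw [h2] at h1
    unfold act
    rw [h1]
    rfl
  rw [h, LinearIsometryEquiv.norm_map]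

/-- size of a special linear matrix -/
noncomputable def nn (X : SLn n) : ℝ :=
  max ‖act (X : Matrix (Fin n) (Fin n) ℝ)‖ ‖act ((X⁻¹ : SLn n) : Matrix (Fin n) (Fin n) ℝ)‖

lemma nn_nonneg (X : SLn n) : 0 ≤ nn X := le_max_of_le_left (norm_nonneg _)

lemma nn_inv (X : SLn n) : nn X⁻¹ = nn X := by
  unfold nn; rw [inv_inv, max_comm]

lemma nn_mul (X Y : SLn n) : nn (X * Y) ≤ nn X * nn Y := by
  apply max_le
  · rw [Matrix.SpecialLinearGroup.coe_mul, act_mul]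
    refine (ContinuousLinearMap.opNorm_comp_le _ _).trans ?_
    exact mul_le_mul (le_max_left _ _) (le_max_left _ _) (norm_nonneg _) (nn_nonneg X)
  · rw [mul_inv_rev, Matrix.SpecialLinearGroup.coe_mul, act_mul]
    refine (ContinuousLinearMap.opNorm_comp_le _ _).trans ?_
    refine (mul_le_mul (le_max_right ‖act ((Y : SLn n) : Matrix (Fin n) (Fin n) ℝ)‖ _)
      (le_max_right ‖act ((X : SLn n) : Matrix (Fin n) (Fin n) ℝ)‖ _)
      (norm_nonneg _) (nn_nonneg Y)).trans ?_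
    exact (mul_comm _ _).le

/-- inverse transpose -/
noncomputable def tt (X : SLn n) : SLn n := (X⁻¹).transpose

lemma tt_coe (X : SLn n) : ((tt X : SLn n) : Matrix (Fin n) (Fin n) ℝ) =
    (((X⁻¹ : SLn n) : Matrix (Fin n) (Fin n) ℝ)).transpose := rfl

lemma tt_mul (X Y : SLn n) : tt (X * Y) = tt X * tt Y := by
  apply Subtype.ext
  change ((tt (X * Y) : SLn n) : Matrix (Fin n) (Fin n) ℝ) =
    ((tt X * tt Y : SLn n) : Matrix (Fin n) (Fin n) ℝ)
  rw [tt_coe, mul_inv_rev, Matrix.SpecialLinearGroup.coe_mul, Matrix.transpose_mul,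
    Matrix.SpecialLinearGroup.coe_mul, tt_coe, tt_coe]

lemma tt_one : tt (1 : SLn n) = 1 := by
  have h := tt_mul (1 : SLn n) 1
  rw [mul_one] at h
  exact (mul_eq_left.1 h.symm)

lemma tt_inv (X : SLn n) : tt X⁻¹ = (tt X)⁻¹ := by
  rw [eq_inv_iff_mul_eq_one, ← tt_mul, inv_mul_cancel, tt_one]

lemma tt_tt (X : SLn n) : tt (tt X) = X := by
  have h1 : (tt X)⁻¹ = X.transpose := by
    rw [← tt_inv]
    unfold tt
    rw [inv_inv]
  have h2 : tt (tt X) = ((tt X)⁻¹).transpose := rfl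
  rw [h2, h1]
  apply Subtype.ext
  change ((X.transpose).transpose : Matrix (Fin n) (Fin n) ℝ) = _
  exact Matrix.transpose_transpose _

lemma nn_tt (X : SLn n) : nn (tt X) = nn X := by
  have h1 : ((tt X)⁻¹ : SLn n) = X.transpose := by
    rw [← tt_inv]
    unfold tt
    rw [inv_inv]
  unfold nn
  rw [h1, tt_coe, act_transpose_norm]
  have h2 : ((X.transpose : SLn n) : Matrix (Fin n) (Fin n) ℝ) =
      ((X : SLn n) : Matrix (Fin n) (Fin n) ℝ).transpose := rfl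
  rw [h2, act_transpose_norm, max_comm]

/-- `act` as a continuous linear equivalence -/
noncomputable def actE (n : ℕ) : Matrix (Fin n) (Fin n) ℝ ≃L[ℝ] (EEn n →L[ℝ] EEn n) :=
  (Matrix.toEuclideanLin.trans LinearMap.toContinuousLinearMap).toContinuousLinearEquiv

lemma actE_apply (A : Matrix (Fin n) (Fin n) ℝ) : actE n A = act A := rfl

lemma continuous_nn : Continuous (nn : SLn n → ℝ) := by
  have h0 : Continuous (fun X : SLn n => (X : Matrix (Fin n) (Fin n) ℝ)) :=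
    continuous_subtype_val
  have h1 : Continuous (fun X : SLn n => act (X : Matrix (Fin n) (Fin n) ℝ)) :=
    (actE n).continuous.comp h0
  have h2 : Continuous (fun X : SLn n => act ((X⁻¹ : SLn n) : Matrix (Fin n) (Fin n) ℝ)) :=
    (actE n).continuous.comp (h0.comp continuous_inv)
  exact h1.norm.max h2.norm

lemma isCompact_act (R : ℝ) :
    IsCompact {X : SLn n | ‖act (X : Matrix (Fin n) (Fin n) ℝ)‖ ≤ R} := by
  have h1 : IsCompact (closedBall (0 : EEn n →L[ℝ] EEn n) R) := isCompact_closedBall _ _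
  have h2 : IsCompact ((actE n).toHomeomorph ⁻¹' closedBall (0 : EEn n →L[ℝ] EEn n) R) :=
    (actE n).toHomeomorph.isCompact_preimage.2 h1
  have h3 := (Matrix.SpecialLinearGroup.isClosedEmbedding_val (n := Fin n) (R := ℝ)).isCompact_preimage h2
  have h4 : {X : SLn n | ‖act (X : Matrix (Fin n) (Fin n) ℝ)‖ ≤ R} =
      (fun X : SLn n => (X : Matrix (Fin n) (Fin n) ℝ)) ⁻¹'
        ((actE n).toHomeomorph ⁻¹' closedBall (0 : EEn n →L[ℝ] EEn n) R) := by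
    ext X
    change ‖act (X : Matrix (Fin n) (Fin n) ℝ)‖ ≤ R ↔
      actE n (X : Matrix (Fin n) (Fin n) ℝ) ∈ closedBall (0 : EEn n →L[ℝ] EEn n) R
    rw [mem_closedBall_zero_iff, actE_apply]
  rw [h4]
  exact h3

lemma finite_small (Γ : Subgroup (SLn n)) [DiscreteTopology Γ] (R : ℝ) :
    {γ : Γ | nn (γ : SLn n) ≤ R}.Finite := by
  have h1 := Γ.tendsto_coe_cofinite_of_discrete (isDiscrete_iff_discreteTopology.2 inferInstance)
  have h2 := h1 (isCompact_act (n := n) R).compl_mem_cocompact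
  rw [Filter.mem_map, Filter.mem_cofinite] at h2
  refine h2.subset ?_
  intro γ hγ hc
  have h3 : ‖act ((γ : SLn n) : Matrix (Fin n) (Fin n) ℝ)‖ ≤ R := (le_max_left _ _).trans hγ
  exact hc h3

lemma exists_bound (Γ : Subgroup (SLn n)) [CompactSpace (SLn n ⧸ Γ)] :
    ∃ R : ℝ, ∀ A : SLn n, ∃ X : SLn n, nn X ≤ R ∧ X⁻¹ * A ∈ Γ := by
  have ho : IsOpenMap (QuotientGroup.mk : SLn n → SLn n ⧸ Γ) := QuotientGroup.isOpenMap_coe
  obtain ⟨N, hN⟩ := isCompact_univ.elim_directed_cover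
    (fun k : ℕ => (QuotientGroup.mk : SLn n → SLn n ⧸ Γ) '' {X | nn X < k})
    (fun k => ho _ (isOpen_lt continuous_nn continuous_const))
    (by
      intro q _
      obtain ⟨X, rfl⟩ := QuotientGroup.mk_surjective q
      obtain ⟨k, hk⟩ := exists_nat_gt (nn X)
      exact Set.mem_iUnion.2 ⟨k, X, hk, rfl⟩)
    (by
      intro i j
      refine ⟨max i j, ?_, ?_⟩
      · apply Set.image_mono
        intro X hX
        have h1 : nn X < (i : ℝ) := hX
        have h2 : (i : ℝ) ≤ ((max i j : ℕ) : ℝ) := by exact_mod_cast le_max_left i j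
        exact (lt_of_lt_of_le h1 h2 : nn X < ((max i j : ℕ) : ℝ))
      · apply Set.image_mono
        intro X hX
        have h1 : nn X < (j : ℝ) := hX
        have h2 : (j : ℝ) ≤ ((max i j : ℕ) : ℝ) := by exact_mod_cast le_max_right i j
        exact (lt_of_lt_of_le h1 h2 : nn X < ((max i j : ℕ) : ℝ)))
  refine ⟨N, fun A => ?_⟩
  obtain ⟨X, hX, he⟩ := hN (Set.mem_univ (A : SLn n ⧸ Γ))
  exact ⟨X, le_of_lt hX, QuotientGroup.eq.1 he⟩

lemma exists_bound_H (Γ : Subgroup (SLn n)) [CompactSpace (SLn n ⧸ Γ)] (H : Subgroup Γ)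
    [H.FiniteIndex] :
    ∃ R : ℝ, ∀ A : SLn n, ∃ γ : H, nn (((γ : Γ) : SLn n) * A⁻¹) ≤ R := by
  obtain ⟨R, hR⟩ := exists_bound Γ
  have : Finite (Γ ⧸ H) := H.finite_quotient_of_finiteIndex
  obtain ⟨R1, hR1⟩ := (Set.finite_range (fun q : Γ ⧸ H => nn ((q.out : Γ) : SLn n))).bddAbove
  refine ⟨R * R1, fun A => ?_⟩
  obtain ⟨X, hX, hXA⟩ := hR A
  set g : Γ := ⟨X⁻¹ * A, hXA⟩ with hg
  set c : Γ := (QuotientGroup.mk g : Γ ⧸ H).out with hc
  have hc1 : (QuotientGroup.mk c : Γ ⧸ H) = QuotientGroup.mk g := QuotientGroup.out_eq' _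
  have hh : c⁻¹ * g ∈ H := QuotientGroup.eq.1 hc1
  refine ⟨⟨c⁻¹ * g, hh⟩, ?_⟩
  have e : (((c⁻¹ * g : Γ)) : SLn n) * A⁻¹ = (X * (c : SLn n))⁻¹ := by
    rw [Subgroup.coe_mul, Subgroup.coe_inv, hg]
    group
  change nn (((c⁻¹ * g : Γ) : SLn n) * A⁻¹) ≤ R * R1
  rw [e, nn_inv]
  refine (nn_mul _ _).trans ?_
  have h0 : nn (c : SLn n) ≤ R1 := hR1 ⟨_, rfl⟩
  exact mul_le_mul hX h0 (nn_nonneg _) ((nn_nonneg X).trans hX)

/-! ### comparison of sizes -/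

lemma conj_bound (L : EEn n ≃L[ℝ] EEn n) {T S : EEn n →L[ℝ] EEn n} {e : ℝ} (he : |e| = 1)
    (h : ∀ v, L (T v) = e • S (L v)) :
    ‖T‖ ≤ ‖(L.symm : EEn n →L[ℝ] EEn n)‖ * ‖(L : EEn n →L[ℝ] EEn n)‖ * ‖S‖ ∧
    ‖S‖ ≤ ‖(L.symm : EEn n →L[ℝ] EEn n)‖ * ‖(L : EEn n →L[ℝ] EEn n)‖ * ‖T‖ := by
  have hee : e * e = 1 := by
    have := abs_mul_abs_self e
    rw [he] at this
    linarith
  constructor
  · apply ContinuousLinearMap.opNorm_le_bound _ (by positivity)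
    intro v
    have h1 : T v = L.symm (e • S (L v)) := by rw [← h, L.symm_apply_apply]
    rw [h1]
    calc ‖L.symm (e • S (L v))‖ ≤ ‖(L.symm : EEn n →L[ℝ] EEn n)‖ * ‖e • S (L v)‖ :=
          (L.symm : EEn n →L[ℝ] EEn n).le_opNorm _
      _ = ‖(L.symm : EEn n →L[ℝ] EEn n)‖ * ‖S (L v)‖ := by
          rw [norm_smul, Real.norm_eq_abs, he, one_mul]
      _ ≤ ‖(L.symm : EEn n →L[ℝ] EEn n)‖ * (‖S‖ * (‖(L : EEn n →L[ℝ] EEn n)‖ * ‖v‖)) := by
          gcongr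
          exact (S.le_opNorm _).trans
            (mul_le_mul_of_nonneg_left ((L : EEn n →L[ℝ] EEn n).le_opNorm v) (norm_nonneg _))
      _ = _ := by ring
  · apply ContinuousLinearMap.opNorm_le_bound _ (by positivity)
    intro v
    have h1 : S v = e • L (T (L.symm v)) := by
      rw [h, smul_smul, hee, one_smul, L.apply_symm_apply]
    rw [h1, norm_smul, Real.norm_eq_abs, he, one_mul]
    calc ‖L (T (L.symm v))‖ ≤ ‖(L : EEn n →L[ℝ] EEn n)‖ * ‖T (L.symm v)‖ :=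
          (L : EEn n →L[ℝ] EEn n).le_opNorm _
      _ ≤ ‖(L : EEn n →L[ℝ] EEn n)‖ * (‖T‖ * (‖(L.symm : EEn n →L[ℝ] EEn n)‖ * ‖v‖)) := by
          gcongr
          exact (T.le_opNorm _).trans
            (mul_le_mul_of_nonneg_left ((L.symm : EEn n →L[ℝ] EEn n).le_opNorm v)
              (norm_nonneg _))
      _ = _ := by ring

lemma sz_bound (L : EEn n ≃L[ℝ] EEn n) (T : EEn n ≃L[ℝ] EEn n) (X : SLn n) {e : ℝ}
    (he : |e| = 1) (h : ∀ v, L (T v) = e • act (X : Matrix (Fin n) (Fin n) ℝ) (L v)) :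
    sz T ≤ ‖(L.symm : EEn n →L[ℝ] EEn n)‖ * ‖(L : EEn n →L[ℝ] EEn n)‖ * nn X ∧
    nn X ≤ ‖(L.symm : EEn n →L[ℝ] EEn n)‖ * ‖(L : EEn n →L[ℝ] EEn n)‖ * sz T := by
  have hee : e * e = 1 := by
    have := abs_mul_abs_self e
    rw [he] at this
    linarith
  have hinv : ∀ v, L ((T⁻¹ : EEn n ≃L[ℝ] EEn n) v) =
      e • act ((X⁻¹ : SLn n) : Matrix (Fin n) (Fin n) ℝ) (L v) := by
    intro v
    have h1 := h ((T⁻¹ : EEn n ≃L[ℝ] EEn n) v)
    have h2 : T ((T⁻¹ : EEn n ≃L[ℝ] EEn n) v) = v := T.apply_symm_apply v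
    rw [h2] at h1
    rw [h1, map_smul, smul_smul, hee, one_smul, ← act_mul_apply,
      ← Matrix.SpecialLinearGroup.coe_mul, inv_mul_cancel, Matrix.SpecialLinearGroup.coe_one,
      act_one_apply]
  have b1 := conj_bound L (T := (T : EEn n →L[ℝ] EEn n))
    (S := act (X : Matrix (Fin n) (Fin n) ℝ)) he h
  have b2 := conj_bound L (T := ((T⁻¹ : EEn n ≃L[ℝ] EEn n) : EEn n →L[ℝ] EEn n))
    (S := act ((X⁻¹ : SLn n) : Matrix (Fin n) (Fin n) ℝ)) he hinv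
  have hc : 0 ≤ ‖(L.symm : EEn n →L[ℝ] EEn n)‖ * ‖(L : EEn n →L[ℝ] EEn n)‖ := by positivity
  constructor
  · apply max_le
    · exact b1.1.trans (mul_le_mul_of_nonneg_left (le_max_left _ _) hc)
    · exact b2.1.trans (mul_le_mul_of_nonneg_left (le_max_right _ _) hc)
  · apply max_le
    · exact b1.2.trans (mul_le_mul_of_nonneg_left (le_max_left _ _) hc)
    · exact b2.2.trans (mul_le_mul_of_nonneg_left (le_max_right _ _) hc)

/-- the matrix of a linear automorphism of determinant one -/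
lemma exists_matrix (L : EEn n ≃L[ℝ] EEn n) (g : EEn n ≃L[ℝ] EEn n) (hg : IsSL g) :
    ∃ A : SLn n, ∀ v, L ((g⁻¹ : EEn n ≃L[ℝ] EEn n) v) =
      act ((A⁻¹ : SLn n) : Matrix (Fin n) (Fin n) ℝ) (L v) := by
  set f : EEn n →ₗ[ℝ] EEn n :=
    (L.toLinearEquiv : EEn n →ₗ[ℝ] EEn n) ∘ₗ (((g : EEn n →L[ℝ] EEn n)) : EEn n →ₗ[ℝ] EEn n) ∘ₗ
      (L.toLinearEquiv.symm : EEn n →ₗ[ℝ] EEn n) with hf
  set A0 : Matrix (Fin n) (Fin n) ℝ := Matrix.toEuclideanLin.symm f with hA0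
  have hA1 : Matrix.toEuclideanLin A0 = f := LinearEquiv.apply_symm_apply _ _
  have hdet : A0.det = 1 := by
    rw [← LinearMap.det_toLpLin 2 A0]
    change LinearMap.det (Matrix.toEuclideanLin A0) = 1
    rw [hA1, hf, LinearMap.det_conj]
    exact hg
  refine ⟨⟨A0, hdet⟩, fun v => ?_⟩
  set A : SLn n := ⟨A0, hdet⟩ with hA
  have h1 : ∀ u, act ((A : SLn n) : Matrix (Fin n) (Fin n) ℝ) (L u) = L (g u) := by
    intro u
    change Matrix.toEuclideanLin A0 (L u) = L (g u)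
    rw [hA1, hf]
    change L (g (L.symm (L u))) = L (g u)
    rw [L.symm_apply_apply]
  have h2 := h1 ((g⁻¹ : EEn n ≃L[ℝ] EEn n) v)
  have h3 : g ((g⁻¹ : EEn n ≃L[ℝ] EEn n) v) = v := g.apply_symm_apply v
  rw [h3] at h2
  rw [← h2, ← act_mul_apply, ← Matrix.SpecialLinearGroup.coe_mul, inv_mul_cancel,
    Matrix.SpecialLinearGroup.coe_one, act_one_apply]

end lattice

theorem lattice_props (n : ℕ) (Γ : Subgroup (Matrix.SpecialLinearGroup (Fin n) ℝ))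
    [DiscreteTopology Γ] [CompactSpace (Matrix.SpecialLinearGroup (Fin n) ℝ ⧸ Γ)]
    (H : Subgroup Γ) [H.FiniteIndex]
    (L : EuclideanSpace ℝ (Fin n) ≃L[ℝ] EuclideanSpace ℝ (Fin n)) (ε : H → ℝ)
    (hε : ∀ γ, ε γ = 1 ∨ ε γ = -1)
    (ρ : H →* (EuclideanSpace ℝ (Fin n) ≃L[ℝ] EuclideanSpace ℝ (Fin n)))
    (hstd : (∀ γ v, L (ρ γ v) = ε γ • act (((γ : Γ) : Matrix.SpecialLinearGroup (Fin n) ℝ) :
        Matrix (Fin n) (Fin n) ℝ) (L v)) ∨
      (∀ γ v, L (ρ γ v) = ε γ • act ((((γ : Γ) : Matrix.SpecialLinearGroup (Fin n) ℝ)⁻¹ :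
        Matrix.SpecialLinearGroup (Fin n) ℝ) : Matrix (Fin n) (Fin n) ℝ).transpose (L v))) :
    (∀ R : ℝ, {γ : H | sz (ρ γ) ≤ R}.Finite) ∧
      ∃ R : ℝ, ∀ g : EuclideanSpace ℝ (Fin n) ≃L[ℝ] EuclideanSpace ℝ (Fin n), IsSL g →
        ∃ γ : H, sz (ρ γ * g⁻¹) ≤ R := by
  have hε' : ∀ γ, |ε γ| = 1 := by
    intro γ
    rcases hε γ with h | h <;> rw [h] <;> simp
  set c : ℝ := ‖(L.symm : EEn n →L[ℝ] EEn n)‖ * ‖(L : EEn n →L[ℝ] EEn n)‖ with hc
  have hc0 : 0 ≤ c := by positivity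
  -- a common form of the two cases
  obtain ⟨θ, hθ1, hθ2, hθ3⟩ : ∃ θ : SLn n → SLn n, (∀ X Y, θ (X * Y⁻¹) = θ X * (θ Y)⁻¹) ∧
      (∀ X, nn (θ X) = nn X ∧ θ (θ X) = X) ∧
      ∀ γ v, L (ρ γ v) = ε γ • act ((θ ((γ : Γ) : SLn n) : SLn n) :
        Matrix (Fin n) (Fin n) ℝ) (L v) := by
    rcases hstd with h | h
    · exact ⟨id, fun _ _ => rfl, fun _ => ⟨rfl, rfl⟩, h⟩
    · refine ⟨tt, fun X Y => by rw [tt_mul, tt_inv], fun X => ⟨nn_tt X, tt_tt X⟩, ?_⟩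
      intro γ v
      rw [tt_coe]
      exact h γ v
  constructor
  · intro R
    have h1 := finite_small Γ (c * R)
    refine Set.Finite.subset (h1.preimage (f := fun γ : H => (γ : Γ))
      (Subtype.val_injective.injOn)) ?_
    intro γ hγ
    have h2 := (sz_bound L (ρ γ) (θ ((γ : Γ) : SLn n)) (hε' γ) (hθ3 γ)).2
    rw [(hθ2 _).1] at h2
    exact h2.trans (mul_le_mul_of_nonneg_left hγ hc0)
  · obtain ⟨R, hR⟩ := exists_bound_H Γ H
    refine ⟨c * R, fun g hg => ?_⟩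
    obtain ⟨A, hA⟩ := exists_matrix L g hg
    obtain ⟨γ, hγ⟩ := hR (θ A)
    refine ⟨γ, ?_⟩
    have h1 : ∀ v, L ((ρ γ * g⁻¹ : EEn n ≃L[ℝ] EEn n) v) = ε γ •
        act ((θ ((γ : Γ) : SLn n) * A⁻¹ : SLn n) : Matrix (Fin n) (Fin n) ℝ) (L v) := by
      intro v
      change L (ρ γ ((g⁻¹ : EEn n ≃L[ℝ] EEn n) v)) = _
      rw [hθ3, hA, Matrix.SpecialLinearGroup.coe_mul, act_mul_apply]
    have h2 := (sz_bound L (ρ γ * g⁻¹) _ (hε' γ) h1).1
    refine h2.trans (mul_le_mul_of_nonneg_left ?_ hc0)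
    have h3 : θ ((γ : Γ) : SLn n) * A⁻¹ = θ (((γ : Γ) : SLn n) * (θ A)⁻¹) := by
      rw [hθ1, (hθ2 A).2]
    rw [h3, (hθ2 _).1]
    exact hγ

end LatLin
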