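import Pool.Agent.Lib.MP_2392aa_gt.Tower
import Pool.Agent.Lib.MP_2392aa_gt.Comp

/-! Canonical contraction paths and their limits (for MP_2392aa_gt). -/

open scoped ContDiff Nat
open Metric

namespace LatLin

variable {E : Type*} [NormedAddCommGroup E] [InnerProductSpace ℝ E] [FiniteDimensional ℝ E]
  {Γ M : Type*} [Group Γ] [TopologicalSpace M] [MulAction Γ M] {ρ : Γ →* (E ≃L[ℝ] E)}

/-- the tower property -/
def IsTower (D : LocData (M := M) ρ) (B : (E ≃L[ℝ] E) → E → M) : Prop :=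
  (∀ y, B 1 y = D.χ y) ∧
      ∀ β : ℝ, ∃ r > 0, ∃ K : ℕ → ℝ, ∀ (δ : Γ) (g g' : E ≃L[ℝ] E), IsSL g → IsSL g' →
        sz (g' * ρ δ * g⁻¹) ≤ β → ∃ h : E → E, ContDiff ℝ ∞ h ∧ h 0 = 0 ∧
          HasFDerivAt h (((g' * ρ δ * g⁻¹)⁻¹ : E ≃L[ℝ] E) : E →L[ℝ] E) 0 ∧
          (∀ m, ∀ y ∈ closedBall (0 : E) 1, ‖iteratedFDeriv ℝ m h y‖ ≤ K m) ∧
          ∀ y ∈ ball (0 : E) r, δ⁻¹ • B g' y = B g (h y)

/-- `Φ` describes `B g` in the chart, at scale `l ^ k` -/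
structure Good (D : LocData (M := M) ρ) (B : (E ≃L[ℝ] E) → E → M) (l σ : ℝ) (C : ℕ → ℝ) (k : ℕ)
    (g : E ≃L[ℝ] E) (Φ : E → E) : Prop where
  sl : IsSL g
  smooth : ContDiff ℝ ∞ Φ
  zero : Φ 0 = 0
  eq : ∀ y, ‖y‖ ≤ σ * l ^ k → B g y = D.χ (Φ y)
  lip : ∀ y y', ‖y‖ ≤ σ * l ^ k → ‖y'‖ ≤ σ * l ^ k → ‖Φ y - Φ y'‖ ≤ 2 * (l ^ k)⁻¹ * ‖y - y'‖
  der : ∀ x, ‖x‖ ≤ σ → ∀ m, 1 ≤ m → ‖iteratedFDeriv ℝ m (fun x => Φ (l ^ k • x)) x‖ ≤ C m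

/-- product along a path -/
def pathprod (A : ℕ → (E ≃L[ℝ] E)) : ℕ → (E ≃L[ℝ] E)
  | 0 => 1
  | (k + 1) => A k * pathprod A k

theorem good_norm {D : LocData (M := M) ρ} {B : (E ≃L[ℝ] E) → E → M} {l σ : ℝ} {C : ℕ → ℝ}
    (hl0 : 0 < l) (hσ : 0 < σ) {k : ℕ} {g : E ≃L[ℝ] E} {Φ : E → E} (h : Good D B l σ C k g Φ)
    {y : E} (hy : ‖y‖ ≤ σ * l ^ k) : ‖Φ y‖ ≤ 2 * (l ^ k)⁻¹ * ‖y‖ := by
  have h1 := h.lip y 0 hy (by rw [norm_zero]; positivity)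
  rwa [h.zero, sub_zero, sub_zero] at h1

theorem good_mem {D : LocData (M := M) ρ} {B : (E ≃L[ℝ] E) → E → M} {l σ : ℝ} {C : ℕ → ℝ}
    (hl0 : 0 < l) (hσ : 0 < σ) (hσr : 2 * σ < D.r0) {k : ℕ} {g : E ≃L[ℝ] E} {Φ : E → E}
    (h : Good D B l σ C k g Φ) {y : E} (hy : ‖y‖ ≤ σ * l ^ k) : Φ y ∈ ball (0 : E) D.r0 := by
  rw [mem_ball_zero_iff]
  have hlk := pow_pos hl0 k
  calc ‖Φ y‖ ≤ 2 * (l ^ k)⁻¹ * ‖y‖ := good_norm hl0 hσ h hy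
    _ ≤ 2 * (l ^ k)⁻¹ * (σ * l ^ k) := mul_le_mul_of_nonneg_left hy (by positivity)
    _ = 2 * σ := by field_simp
    _ < D.r0 := hσr

theorem good_uniq {D : LocData (M := M) ρ} {B : (E ≃L[ℝ] E) → E → M} {l σ : ℝ} {C : ℕ → ℝ}
    (hl0 : 0 < l) (hσ : 0 < σ) (hσr : 2 * σ < D.r0) {k : ℕ} {g : E ≃L[ℝ] E} {Φ Φ' : E → E}
    (h : Good D B l σ C k g Φ) (h' : Good D B l σ C k g Φ') {y : E} (hy : ‖y‖ ≤ σ * l ^ k) :
    Φ y = Φ' y :=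
  D.inj (good_mem hl0 hσ hσr h hy) (good_mem hl0 hσ hσr h' hy) ((h.eq y hy).symm.trans (h'.eq y hy))

/-- existence of good coordinate maps along paths -/
theorem exists_good (D : LocData (M := M) ρ) (B : (E ≃L[ℝ] E) → E → M) (hB : IsTower D B)
    {l : ℝ} (hl0 : 0 < l) (hl1 : l < 1) (β : ℝ) :
    ∃ σ : ℝ, 0 < σ ∧ σ ≤ 1 ∧ 2 * σ < D.r0 ∧ ∃ C : ℕ → ℝ, ∀ A : ℕ → (E ≃L[ℝ] E),
      (∀ j, IsSL (A j)) → (∀ j, sz (A j) ≤ β) → (∀ j x, ‖(A j)⁻¹ x‖ ≤ l⁻¹ * ‖x‖) →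
      ∀ k, ∃ Φ : E → E, Good D B l σ C k (pathprod A k) Φ := by
  obtain ⟨hB1, hB2⟩ := hB
  obtain ⟨r, hr, K, hK⟩ := hB2 β
  obtain ⟨σ0, hσ0, hσ1, C, hC⟩ := comp_main (E := E) M hl0 hl1 K hr
  have hr0 := D.r0_pos
  set σ := min σ0 (D.r0 / 4) with hσdef
  have hσpos : 0 < σ := lt_min hσ0 (by linarith)
  have hσle : σ ≤ σ0 := min_le_left _ _
  refine ⟨σ, hσpos, hσle.trans hσ1, ?_, C, ?_⟩
  · have : σ ≤ D.r0 / 4 := min_le_right _ _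
    linarith
  · intro A hA1 hA2 hA3 k
    have hSL : ∀ k, IsSL (pathprod A k) := by
      intro k
      induction k with
      | zero => exact IsSL.one
      | succ k ih => exact (hA1 k).mul ih
    have hτ : ∀ j, pathprod A (j + 1) * ρ 1 * (pathprod A j)⁻¹ = A j := by
      intro j
      rw [map_one, mul_one]
      change A j * pathprod A j * (pathprod A j)⁻¹ = A j
      group
    have hex := fun j => hK 1 (pathprod A j) (pathprod A (j + 1)) (hSL j) (hSL (j + 1))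
      (by rw [hτ]; exact hA2 j)
    choose h hh1 hh2 hh3 hh4 hh5 using hex
    obtain ⟨hL, hD, hE⟩ := hC h (fun j => (((A j)⁻¹ : E ≃L[ℝ] E) : E →L[ℝ] E)) hh1 hh2
      (fun j => by
        have := hh3 j
        rwa [hτ] at this)
      (fun j => ContinuousLinearMap.opNorm_le_bound _ (inv_pos.mpr hl0).le (hA3 j))
      (fun j m y hy => hh4 j m y (mem_closedBall_zero_iff.mpr hy)) k
    have hlk := pow_pos hl0 k
    have hmono : ∀ y : E, ‖y‖ ≤ σ * l ^ k → ‖y‖ ≤ σ0 * l ^ k := fun y hy =>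
      hy.trans (mul_le_mul_of_nonneg_right hσle hlk.le)
    refine ⟨comp h k, hSL k, comp_contDiff h hh1 k, comp_fix h hh2 k, ?_, ?_, ?_⟩
    · intro y hy
      have h1 := hE (fun j => B (pathprod A j)) (fun j y hy => by
        have h2 := hh5 j y (mem_ball_zero_iff.mpr hy)
        rwa [inv_one, one_smul] at h2) y (hmono y hy)
      rw [h1]
      exact hB1 _
    · exact fun y y' hy hy' => hL y y' (hmono y hy) (hmono y' hy')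
    · exact fun x hx m hm => hD x (hx.trans hσle) m hm

/-- comparison of neighbouring elements -/
theorem compare (D : LocData (M := M) ρ) (B : (E ≃L[ℝ] E) → E → M) (hB : IsTower D B)
    {l : ℝ} (hl0 : 0 < l) (hl1 : l < 1) {σ : ℝ} (hσ : 0 < σ) (hσr : 2 * σ < D.r0) (C : ℕ → ℝ)
    (β : ℝ) :
    ∃ κ > 0, ∃ K : ℝ, 0 ≤ K ∧ ∀ (k : ℕ) (g : E ≃L[ℝ] E) (Φ : E → E), Good D B l σ C k g Φ →
      ∀ (δ : Γ) (g' : E ≃L[ℝ] E), IsSL g' → sz (g' * ρ δ * g⁻¹) ≤ β →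
      ∀ y, ‖y‖ ≤ σ / 2 * l ^ k → ‖y‖ ≤ κ →
        ∃ y'' ∈ ball (0 : E) D.r0, δ⁻¹ • B g' ((g' * ρ δ * g⁻¹) y) = D.χ y'' ∧
          ‖y'' - Φ y‖ ≤ 2 * (l ^ k)⁻¹ * (K * ‖y‖ ^ 2) := by
  obtain ⟨hB1, hB2⟩ := hB
  obtain ⟨r, hr, K, hK⟩ := hB2 β
  set β' : ℝ := |β| + 1 with hβ'
  have hβ'1 : 1 ≤ β' := by
    have := abs_nonneg β
    linarith
  set K' : ℝ := |K 2| * β' ^ 2 with hK'
  have hK'0 : 0 ≤ K' := by positivity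
  refine ⟨min (min 1 (r / 2) / β') (1 / (K' + 1)), lt_min (by positivity) (by positivity), K', hK'0, ?_⟩
  intro k g Φ hg δ g' hg' hsz y hy hyκ
  obtain ⟨h, h1, h2, h3, h4, h5⟩ := hK δ g g' hg.sl hg' hsz
  set τ := g' * ρ δ * g⁻¹ with hτ
  have hyκ1 : β' * ‖y‖ ≤ min 1 (r / 2) := by
    have h6 : ‖y‖ ≤ min 1 (r / 2) / β' := hyκ.trans (min_le_left _ _)
    rw [le_div_iff₀ (by linarith)] at h6
    linarith
  have hτy : ‖τ y‖ ≤ β' * ‖y‖ := by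
    calc ‖τ y‖ ≤ sz τ * ‖y‖ := norm_le_sz _ _
      _ ≤ β' * ‖y‖ := mul_le_mul_of_nonneg_right (hsz.trans ((le_abs_self β).trans (by linarith)))
          (norm_nonneg _)
  have hτ1 : ‖τ y‖ ≤ 1 := hτy.trans (hyκ1.trans (min_le_left _ _))
  have hτr : ‖τ y‖ < r := by
    have h7 := hτy.trans (hyκ1.trans (min_le_right _ _))
    linarith
  have hlip := lip_est h1 h3 (fun z hz => (h4 2 z (mem_closedBall_zero_iff.mpr hz)).trans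
    (le_abs_self (K 2))) hτ1 (y := τ y) (y' := 0) le_rfl (by rw [norm_zero]; exact norm_nonneg _)
  have hinv : ((τ⁻¹ : E ≃L[ℝ] E) : E →L[ℝ] E) (τ y) = y := τ.symm_apply_apply y
  rw [h2, sub_zero, sub_zero, hinv] at hlip
  have hest : ‖h (τ y) - y‖ ≤ K' * ‖y‖ ^ 2 := by
    calc ‖h (τ y) - y‖ ≤ |K 2| * ‖τ y‖ * ‖τ y‖ := hlip
      _ ≤ |K 2| * (β' * ‖y‖) * (β' * ‖y‖) := by
          apply mul_le_mul _ hτy (norm_nonneg _) (by positivity)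
          exact mul_le_mul_of_nonneg_left hτy (abs_nonneg _)
      _ = K' * ‖y‖ ^ 2 := by rw [hK']; ring
  have hKy : K' * ‖y‖ ≤ 1 := by
    have h8 : ‖y‖ ≤ 1 / (K' + 1) := hyκ.trans (min_le_right _ _)
    rw [le_div_iff₀ (by linarith)] at h8
    nlinarith [norm_nonneg y]
  have hest2 : ‖h (τ y)‖ ≤ 2 * ‖y‖ := by
    calc ‖h (τ y)‖ = ‖(h (τ y) - y) + y‖ := by rw [sub_add_cancel]
      _ ≤ K' * ‖y‖ ^ 2 + ‖y‖ := (norm_add_le _ _).trans (add_le_add hest le_rfl)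
      _ ≤ 2 * ‖y‖ := by nlinarith [norm_nonneg y]
  have hhσ : ‖h (τ y)‖ ≤ σ * l ^ k := by linarith
  have hlk := pow_pos hl0 k
  have hyσ : ‖y‖ ≤ σ * l ^ k := by
    have := mul_pos hσ hlk
    nlinarith [norm_nonneg y]
  refine ⟨Φ (h (τ y)), good_mem hl0 hσ hσr hg hhσ, ?_, ?_⟩
  · rw [h5 _ (mem_ball_zero_iff.mpr hτr), hg.eq _ hhσ]
  · calc ‖Φ (h (τ y)) - Φ y‖ ≤ 2 * (l ^ k)⁻¹ * ‖h (τ y) - y‖ := hg.lip _ _ hhσ hyσ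
      _ ≤ 2 * (l ^ k)⁻¹ * (K' * ‖y‖ ^ 2) := mul_le_mul_of_nonneg_left hest (by positivity)

end LatLin
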