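import Pool.Agent.Lib.MP_2392aa_gt.Limit

/-! The canonical linearizing map (for MP_2392aa_gt), first part. -/

open scoped ContDiff Nat
open Metric Filter

namespace LatLin

section Geo
variable {E : Type*} [NormedAddCommGroup E] [InnerProductSpace ℝ E] [FiniteDimensional ℝ E]

/-- contraction factor -/
noncomputable def ll (E : Type*) [NormedAddCommGroup E] [InnerProductSpace ℝ E] : ℝ :=
  ((2 : ℝ) ^ (Module.finrank ℝ E - 1))⁻¹

/-- size of one step -/
noncomputable def bb (E : Type*) [NormedAddCommGroup E] [InnerProductSpace ℝ E] : ℝ :=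
  ((ll E) ^ (Module.finrank ℝ E - 1))⁻¹

theorem ll_pos : 0 < ll E := by
  unfold ll
  positivity

theorem ll_lt (hn : 3 ≤ Module.finrank ℝ E) : ll E < 1 := by
  unfold ll
  apply inv_lt_one_of_one_lt₀
  exact one_lt_pow₀ (by norm_num) (by omega)

theorem two_le_inv (hn : 3 ≤ Module.finrank ℝ E) : 2 ≤ (ll E)⁻¹ := by
  unfold ll
  rw [inv_inv]
  calc (2 : ℝ) = 2 ^ 1 := (pow_one _).symm
    _ ≤ 2 ^ (Module.finrank ℝ E - 1) := pow_le_pow_right₀ (by norm_num) (by omega)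

theorem inv_le_bb (hn : 3 ≤ Module.finrank ℝ E) : (ll E)⁻¹ ≤ bb E := by
  unfold bb
  apply inv_anti₀ (pow_pos ll_pos _)
  calc ll E ^ (Module.finrank ℝ E - 1) ≤ ll E ^ 1 :=
        pow_le_pow_of_le_one ll_pos.le (ll_lt hn).le (by omega)
    _ = ll E := pow_one _

theorem R2_inv (hn : 3 ≤ Module.finrank ℝ E) {ν : E} (hν : ‖ν‖ = 1) (x : E) :
    ‖(R ν 2)⁻¹ x‖ ≤ (ll E)⁻¹ * ‖x‖ := by
  apply R_inv_norm_le hν two_pos
  · have := two_le_inv (E := E) hn
    linarith
  · unfold ll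
    rw [inv_inv]

theorem R2_sz (hn : 3 ≤ Module.finrank ℝ E) {ν : E} (hν : ‖ν‖ = 1) : sz (R ν 2) ≤ bb E := by
  have h1 := two_le_inv (E := E) hn
  have h2 := inv_le_bb (E := E) hn
  apply sz_le_of (by linarith)
  · intro x
    apply R_norm_le hν two_pos (by linarith)
    change ll E ≤ bb E
    have := ll_lt (E := E) hn
    linarith
  · intro x
    exact (R2_inv hn hν x).trans (mul_le_mul_of_nonneg_right h2 (norm_nonneg _))

theorem R2_self {ν : E} (hν : ‖ν‖ = 1) : R ν 2 ν = ll E • ν := R_self hν two_pos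

theorem Rl_inv (hn : 3 ≤ Module.finrank ℝ E) {ν : E} (hν : ‖ν‖ = 1) (x : E) :
    ‖(R ν (ll E))⁻¹ x‖ ≤ (ll E)⁻¹ * ‖x‖ := by
  apply R_inv_norm_le hν ll_pos le_rfl
  have h1 := two_le_inv (E := E) hn
  have h2 : ll E ^ (Module.finrank ℝ E - 1) ≤ 1 := pow_le_one₀ ll_pos.le (ll_lt hn).le
  linarith

theorem Rl_sz (hn : 3 ≤ Module.finrank ℝ E) {ν : E} (hν : ‖ν‖ = 1) : sz (R ν (ll E)) ≤ bb E := by
  have h1 := two_le_inv (E := E) hn
  have h2 := inv_le_bb (E := E) hn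
  apply sz_le_of (by linarith)
  · intro x
    apply R_norm_le hν ll_pos
    · have := ll_lt (E := E) hn
      linarith
    · exact le_rfl
  · intro x
    exact (Rl_inv hn hν x).trans (mul_le_mul_of_nonneg_right h2 (norm_nonneg _))

theorem pathprod_const (A : E ≃L[ℝ] E) (k : ℕ) : pathprod (fun _ => A) k = A ^ k := by
  induction k with
  | zero => rfl
  | succ k ih =>
    change A * pathprod (fun _ => A) k = _
    rw [ih, pow_succ']

theorem pathprod_word (A A' : E ≃L[ℝ] E) (i k : ℕ) :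
    pathprod (fun j => if j < i then A else A') (i + k) = A' ^ k * A ^ i := by
  induction k with
  | zero =>
    rw [add_zero, pow_zero, one_mul]
    have : ∀ j ≤ i, pathprod (fun j => if j < i then A else A') j = A ^ j := by
      intro j
      induction j with
      | zero => intro _; rfl
      | succ j ih =>
        intro hj
        change (if j < i then A else A') * pathprod _ j = _
        rw [ih (by omega), if_pos (by omega), pow_succ']
    exact this i le_rfl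
  | succ k ih =>
    change (if i + k < i then A else A') * pathprod _ (i + k) = _
    rw [ih, if_neg (by omega), pow_succ', mul_assoc]

theorem R2_pow_self {ν : E} (hν : ‖ν‖ = 1) (k : ℕ) : (R ν 2 ^ k) ν = ll E ^ k • ν := by
  induction k with
  | zero =>
    rw [pow_zero, pow_zero, one_smul]
    rfl
  | succ k ih =>
    rw [pow_succ']
    change R ν 2 ((R ν 2 ^ k) ν) = _
    rw [ih, map_smul, R2_self hν, smul_smul, pow_succ]

theorem Rl_pow_perp {ν : E} (hν : ‖ν‖ = 1) {x : E} (hx : inner ℝ ν x = (0 : ℝ)) (k : ℕ) :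
    (R ν (ll E) ^ k) x = ll E ^ k • x := by
  induction k with
  | zero =>
    rw [pow_zero, pow_zero, one_smul]
    rfl
  | succ k ih =>
    rw [pow_succ']
    change R ν (ll E) ((R ν (ll E) ^ k) x) = _
    rw [ih, map_smul, R_perp hν ll_pos hx, smul_smul, pow_succ]

/-- conjugates of a fixed map by matching contractions stay bounded -/
theorem conj_bdd (hn : 3 ≤ Module.finrank ℝ E) {ν ν' : E} (hν : ‖ν‖ = 1) (hν' : ‖ν'‖ = 1)
    (A : E ≃L[ℝ] E) {c : ℝ} (hc : A ν = c • ν') {a : ℝ} (ha : 1 ≤ a) (x : E) :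
    ‖R ν' a (A ((R ν a)⁻¹ x))‖ ≤ 2 * sz A * ‖x‖ := by
  have ha0 : 0 < a := by linarith
  set t : ℝ := inner ℝ ν x with ht
  have hperp : ‖x - t • ν‖ ≤ ‖x‖ := by
    have h1 := Rlin_norm_le hν (a := 1) (b := 0) (c := 1) (by simp) (by simp) x
    rw [Rlin_apply, one_smul, one_mul] at h1
    have h2 : x + ((0 - 1) * inner ℝ ν x) • ν = x - t • ν := by
      rw [← ht, zero_sub, neg_one_mul, neg_smul, ← sub_eq_add_neg]
    rwa [h2] at h1
  have hinv : (R ν a)⁻¹ x = a⁻¹ • (x - t • ν) + (a ^ (Module.finrank ℝ E - 1) * t) • ν := by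
    rw [R_inv_apply hν ha0, Rlin_apply, ← ht, smul_sub, smul_smul, sub_add, ← sub_smul]
    rw [show a⁻¹ * t - a ^ (Module.finrank ℝ E - 1) * t
      = -((a ^ (Module.finrank ℝ E - 1) - a⁻¹) * t) by ring, neg_smul, sub_neg_eq_add]
  have hpow : a ^ (Module.finrank ℝ E - 1) ≠ 0 := (pow_pos ha0 _).ne'
  have hR : R ν' a (A ((R ν a)⁻¹ x)) = a⁻¹ • R ν' a (A (x - t • ν)) + t • A ν := by
    rw [hinv, map_add, map_add, map_smul, map_smul, map_smul, map_smul, hc, map_smul,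
      R_self hν' ha0, smul_smul, smul_smul]
    congr 1
    rw [smul_smul]
    congr 1
    field_simp
  have hA := sz_nonneg A
  have hst : |t| ≤ ‖x‖ := by
    have := abs_real_inner_le_norm ν x
    rwa [hν, one_mul] at this
  have h5 : ‖R ν' a (A (x - t • ν))‖ ≤ a * ‖A (x - t • ν)‖ := by
    apply R_norm_le hν' ha0 le_rfl
    have h6 : (a ^ (Module.finrank ℝ E - 1))⁻¹ ≤ 1 := inv_le_one_of_one_le₀ (one_le_pow₀ ha)
    linarith
  rw [hR]
  calc ‖a⁻¹ • R ν' a (A (x - t • ν)) + t • A ν‖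
      ≤ a⁻¹ * (a * ‖A (x - t • ν)‖) + |t| * ‖A ν‖ := by
        refine (norm_add_le _ _).trans (add_le_add ?_ ?_)
        · rw [norm_smul, Real.norm_of_nonneg (inv_pos.mpr ha0).le]
          exact mul_le_mul_of_nonneg_left h5 (inv_pos.mpr ha0).le
        · rw [norm_smul, Real.norm_eq_abs]
    _ = ‖A (x - t • ν)‖ + |t| * ‖A ν‖ := by
        rw [← mul_assoc, inv_mul_cancel₀ ha0.ne', one_mul]
    _ ≤ sz A * ‖x‖ + ‖x‖ * (sz A * 1) := by
        apply add_le_add
        · exact (norm_le_sz _ _).trans (mul_le_mul_of_nonneg_left hperp hA)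
        · apply mul_le_mul hst _ (norm_nonneg _) (norm_nonneg _)
          have := norm_le_sz A ν
          rwa [hν] at this
    _ = 2 * sz A * ‖x‖ := by ring

theorem conj_sz (hn : 3 ≤ Module.finrank ℝ E) {ν ν' : E} (hν : ‖ν‖ = 1) (hν' : ‖ν'‖ = 1)
    (A : E ≃L[ℝ] E) {c : ℝ} (hc : A ν = c • ν') {a : ℝ} (ha : 1 ≤ a) :
    sz (R ν' a * A * (R ν a)⁻¹) ≤ 2 * sz A := by
  have hc0 : c ≠ 0 := by
    rintro rfl
    rw [zero_smul] at hc
    have : ν = 0 := A.map_eq_zero_iff.mp hc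
    rw [this, norm_zero] at hν
    exact zero_ne_one hν
  have hc' : A⁻¹ ν' = c⁻¹ • ν := by
    have h1 : A⁻¹ (A ν) = ν := A.symm_apply_apply ν
    rw [hc, map_smul] at h1
    rw [← h1, smul_smul, inv_mul_cancel₀ hc0, one_smul]
  apply sz_le_of (mul_nonneg two_pos.le (sz_nonneg _))
  · exact fun x => conj_bdd hn hν hν' A hc ha x
  · intro x
    have h2 : (R ν' a * A * (R ν a)⁻¹)⁻¹ = R ν a * A⁻¹ * (R ν' a)⁻¹ := by group
    rw [h2]
    have h3 := conj_bdd hn hν' hν A⁻¹ hc' ha x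
    rwa [sz_inv] at h3

theorem exists_dir (hn : 3 ≤ Module.finrank ℝ E) : ∃ dir : E → E, ∀ z, ‖dir z‖ = 1 ∧ z = ‖z‖ • dir z := by
  have hex : ∀ z : E, ∃ d : E, ‖d‖ = 1 ∧ z = ‖z‖ • d := by
    intro z
    by_cases hz : z = 0
    · have : Nontrivial E := Module.nontrivial_of_finrank_pos (R := ℝ) (by omega)
      obtain ⟨v, hv⟩ := exists_norm_eq E (zero_le_one (α := ℝ))
      exact ⟨v, hv, by simp [hz]⟩
    · refine ⟨‖z‖⁻¹ • z, ?_, ?_⟩
      · rw [norm_smul, norm_inv, norm_norm, inv_mul_cancel₀ (norm_ne_zero_iff.mpr hz)]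
      · rw [smul_smul, mul_inv_cancel₀ (norm_ne_zero_iff.mpr hz), one_smul]
  choose dir hdir using hex
  exact ⟨dir, hdir⟩

theorem exists_perp (hn : 3 ≤ Module.finrank ℝ E) (z w : E) :
    ∃ ν : E, ‖ν‖ = 1 ∧ inner ℝ ν z = (0 : ℝ) ∧ inner ℝ ν w = (0 : ℝ) := by
  set V : Submodule ℝ E := Submodule.span ℝ {z, w} with hV
  have h1 : Module.finrank ℝ V ≤ 2 := by
    classical
    have h2 := finrank_span_finset_le_card (R := ℝ) ({z, w} : Finset E)
    rw [Finset.coe_insert, Finset.coe_singleton] at h2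
    exact h2.trans Finset.card_le_two
  have h2 : V.orthogonal ≠ ⊥ := by
    intro hbot
    have h3 := V.finrank_add_finrank_orthogonal
    rw [hbot, finrank_bot, add_zero] at h3
    omega
  obtain ⟨v, hv, hv0⟩ := Submodule.exists_mem_ne_zero_of_ne_bot h2
  have hz : inner ℝ v z = (0 : ℝ) := by
    rw [real_inner_comm]
    exact (Submodule.mem_orthogonal V v).mp hv z (Submodule.subset_span (by simp))
  have hw : inner ℝ v w = (0 : ℝ) := by
    rw [real_inner_comm]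
    exact (Submodule.mem_orthogonal V v).mp hv w (Submodule.subset_span (by simp))
  refine ⟨‖v‖⁻¹ • v, ?_, ?_, ?_⟩
  · rw [norm_smul, norm_inv, norm_norm, inv_mul_cancel₀ (norm_ne_zero_iff.mpr hv0)]
  · rw [inner_smul_left, hz, mul_zero]
  · rw [inner_smul_left, hw, mul_zero]

/-- two vectors can be contracted simultaneously -/
theorem contract_two (hn : 3 ≤ Module.finrank ℝ E) {Γ : Type*} [Group Γ]
    (ρ : Γ →* (E ≃L[ℝ] E))
    (hcoc : ∃ R : ℝ, ∀ g : E ≃L[ℝ] E, IsSL g → ∃ γ : Γ, sz (ρ γ * g⁻¹) ≤ R)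
    (z w : E) {r : ℝ} (hr : 0 < r) : ∃ γ : Γ, ‖ρ γ z‖ < r ∧ ‖ρ γ w‖ < r := by
  obtain ⟨C, hC⟩ := hcoc
  obtain ⟨ν, hν, hz, hw⟩ := exists_perp hn z w
  have hlim : Tendsto (fun k : ℕ => |C| * (ll E ^ k * (‖z‖ + ‖w‖))) atTop (nhds (|C| * (0 * (‖z‖ + ‖w‖)))) :=
    ((tendsto_pow_atTop_nhds_zero_of_lt_one ll_pos.le (ll_lt hn)).mul_const _).const_mul _
  rw [zero_mul, mul_zero] at hlim
  obtain ⟨k, hk⟩ := (hlim.eventually (gt_mem_nhds hr)).exists
  have hSL : IsSL (R ν (ll E) ^ k) := by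
    have : ∀ k, IsSL (R ν (ll E) ^ k) := by
      intro k
      induction k with
      | zero => rw [pow_zero]; exact IsSL.one
      | succ k ih => rw [pow_succ]; exact ih.mul (R_SL (by omega) hν ll_pos)
    exact this k
  obtain ⟨γ, hγ⟩ := hC _ hSL
  have key : ∀ x, inner ℝ ν x = (0 : ℝ) → ‖ρ γ x‖ ≤ |C| * (ll E ^ k * ‖x‖) := by
    intro x hx
    have h1 : ρ γ x = (ρ γ * (R ν (ll E) ^ k)⁻¹) ((R ν (ll E) ^ k) x) := by
      change _ = ρ γ ((R ν (ll E) ^ k)⁻¹ ((R ν (ll E) ^ k) x))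
      congr 1
      exact ((R ν (ll E) ^ k).symm_apply_apply x).symm
    rw [h1]
    refine (norm_le_sz _ _).trans ?_
    rw [Rl_pow_perp hν hx, norm_smul, Real.norm_of_nonneg (pow_pos ll_pos k).le]
    exact mul_le_mul_of_nonneg_right (hγ.trans (le_abs_self C))
      (mul_nonneg (pow_pos ll_pos k).le (norm_nonneg _))
  have hpos := pow_pos (ll_pos (E := E)) k
  refine ⟨γ, (key z hz).trans_lt (lt_of_le_of_lt ?_ hk), (key w hw).trans_lt (lt_of_le_of_lt ?_ hk)⟩
  · apply mul_le_mul_of_nonneg_left _ (abs_nonneg _)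
    exact mul_le_mul_of_nonneg_left (by linarith [norm_nonneg w]) hpos.le
  · apply mul_le_mul_of_nonneg_left _ (abs_nonneg _)
    exact mul_le_mul_of_nonneg_left (by linarith [norm_nonneg z]) hpos.le

end Geo
end LatLin
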