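import Pool.Agent.Lib.MP_2392aa_gt.Defs

/-! Module Mfd of MP_2392aa_gt (helper36): the global linearization from the local one. -/

open scoped ContDiff Manifold Topology
open Metric

namespace LatLin

section A
variable {E : Type*} [NormedAddCommGroup E] [InnerProductSpace ℝ E] [FiniteDimensional ℝ E]

/-- a locally smooth map agrees near `0` with a globally smooth one -/
theorem exists_global_ext {F : Type*} [NormedAddCommGroup F] [NormedSpace ℝ F] (f : E → F)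
    (S : Set E) (hS : IsOpen S) (h0 : (0 : E) ∈ S) (hf : ContDiffOn ℝ ∞ f S) :
    ∃ g : E → F, ContDiff ℝ ∞ g ∧ g =ᶠ[𝓝 0] f := by
  obtain ⟨s, hs, hsS⟩ := Metric.isOpen_iff.1 hS 0 h0
  let b : ContDiffBump (0 : E) := ⟨s / 4, s / 2, by positivity, by linarith⟩
  refine ⟨fun y => b y • f y, ?_, ?_⟩
  · rw [contDiff_iff_contDiffAt]
    intro y
    by_cases hy : y ∈ ball (0 : E) s
    · exact (b.contDiff.contDiffAt).smul (hf.contDiffAt (hS.mem_nhds (hsS hy)))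
    · have h1 : (fun y => b y • f y) =ᶠ[𝓝 y] fun _ => 0 := by
        have h2 : (closedBall (0 : E) (s / 2))ᶜ ∈ 𝓝 y := by
          apply (isClosed_closedBall.isOpen_compl).mem_nhds
          simp only [Set.mem_compl_iff, mem_closedBall, dist_zero_right, not_le]
          simp only [mem_ball, dist_zero_right, not_lt] at hy
          linarith
        filter_upwards [h2] with z hz
        have : b z = 0 := by
          apply b.zero_of_le_dist
          simp only [Set.mem_compl_iff, mem_closedBall, not_le] at hz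
          exact hz.le
        rw [this, zero_smul]
      exact contDiffAt_const.congr_of_eventuallyEq h1
  · filter_upwards [b.eventuallyEq_one] with z hz
    rw [hz]; simp

/-- inverse function theorem on a ball -/
theorem local_inv (u : E → E) {r : ℝ} (hr : 0 < r) (hu : ContDiffOn ℝ ∞ u (ball 0 r))
    (hd : HasFDerivAt u (ContinuousLinearMap.id ℝ E) 0) :
    ∃ s : ℝ, 0 < s ∧ s ≤ r ∧ ∃ v : E → E, IsOpen (u '' ball 0 s) ∧
      (∀ z ∈ ball (0 : E) s, v (u z) = z) ∧ ContDiffOn ℝ ∞ v (u '' ball 0 s) := by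
  have hu0 : ContDiffAt ℝ ∞ u 0 := hu.contDiffAt (ball_mem_nhds 0 hr)
  have hd' : HasFDerivAt u ((ContinuousLinearEquiv.refl ℝ E : E ≃L[ℝ] E) : E →L[ℝ] E) 0 := by
    rw [ContinuousLinearEquiv.coe_refl]; exact hd
  have hinf : (∞ : WithTop ℕ∞) ≠ 0 := by decide
  let g := hu0.toOpenPartialHomeomorph u hd' hinf
  have hg0 : (0 : E) ∈ g.source := hu0.mem_toOpenPartialHomeomorph_source hd' hinf
  have hgc : ∀ z, g z = u z := fun z => rfl
  -- derivative invertible near 0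
  have hfd : ∀ᶠ z in 𝓝 (0 : E), ∃ L : E ≃L[ℝ] E, (L : E →L[ℝ] E) = fderiv ℝ u z := by
    have hc : ContinuousAt (fderiv ℝ u) 0 := by
      have := (hu.continuousOn_fderiv_of_isOpen isOpen_ball (by decide))
      exact this.continuousAt (ball_mem_nhds 0 hr)
    have h1 : fderiv ℝ u 0 = ((ContinuousLinearEquiv.refl ℝ E : E ≃L[ℝ] E) : E →L[ℝ] E) :=
      hd'.fderiv
    have h2 : Set.range ((↑) : (E ≃L[ℝ] E) → E →L[ℝ] E) ∈ 𝓝 (fderiv ℝ u 0) := by
      rw [h1]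
      exact ContinuousLinearEquiv.nhds _
    filter_upwards [hc h2] with z hz
    exact hz
  obtain ⟨s1, hs1, hs1'⟩ := Metric.eventually_nhds_iff_ball.1 hfd
  obtain ⟨s2, hs2, hs2'⟩ := Metric.isOpen_iff.1 g.open_source 0 hg0
  refine ⟨min r (min s1 s2), by positivity, min_le_left _ _, g.symm, ?_, ?_, ?_⟩
  · have hsub : ball (0 : E) (min r (min s1 s2)) ⊆ g.source :=
      (ball_subset_ball ((min_le_right _ _).trans (min_le_right _ _))).trans hs2'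
    exact g.isOpen_image_of_subset_source isOpen_ball hsub
  · intro z hz
    have hz' : z ∈ g.source :=
      hs2' (ball_subset_ball ((min_le_right _ _).trans (min_le_right _ _)) hz)
    rw [← hgc z]
    exact g.left_inv hz'
  · rintro y ⟨z, hz, rfl⟩
    have hz' : z ∈ g.source :=
      hs2' (ball_subset_ball ((min_le_right _ _).trans (min_le_right _ _)) hz)
    have hzs : g.symm (u z) = z := by
      rw [← hgc z]
      exact g.left_inv hz'
    obtain ⟨L, hL⟩ := hs1' z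
      (ball_subset_ball ((min_le_right _ _).trans (min_le_left _ _)) hz)
    have hzr : z ∈ ball (0 : E) r := ball_subset_ball (min_le_left _ _) hz
    have huz : ContDiffAt ℝ ∞ u z := hu.contDiffAt (isOpen_ball.mem_nhds hzr)
    have : ContDiffAt ℝ ∞ g.symm (u z) := by
      apply g.contDiffAt_symm (f₀' := L)
      · rw [← hgc z]; exact g.map_source hz'
      · rw [hzs, hL]
        exact (huz.differentiableAt hinf).hasFDerivAt
      · rw [hzs]; exact huz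
    exact this.contDiffWithinAt

end A
section B
variable {E : Type*} [NormedAddCommGroup E] [InnerProductSpace ℝ E]
variable {M : Type*} [TopologicalSpace M] [ChartedSpace E M] 

/-- the centred inverse chart -/
noncomputable def chi (p : M) : E → M := fun y =>
  (extChartAt 𝓘(ℝ, E) p).symm (extChartAt 𝓘(ℝ, E) p p + y)

/-- the domain of the centred inverse chart -/
def dom (E : Type*) [NormedAddCommGroup E] [NormedSpace ℝ E] {M : Type*} [TopologicalSpace M]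
    [ChartedSpace E M] (p : M) : Set E :=
  {y | extChartAt 𝓘(ℝ, E) p p + y ∈ (extChartAt 𝓘(ℝ, E) p).target}

theorem isOpen_dom (p : M) : IsOpen (dom E p) :=
  (isOpen_extChartAt_target (I := 𝓘(ℝ, E)) p).preimage (by fun_prop)

theorem zero_mem_dom (p : M) : (0 : E) ∈ dom E p := by
  simp only [dom, Set.mem_ofPred_eq, add_zero]
  exact mem_extChartAt_target p

theorem chi_zero (p : M) : chi (E := E) p 0 = p := by
  simp [chi]

theorem chi_inj (p : M) : Set.InjOn (chi (E := E) p) (dom E p) := by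
  intro y hy z hz h
  have := (extChartAt 𝓘(ℝ, E) p).symm.injOn hy hz h
  exact add_left_cancel this

theorem chart_chi (p : M) {y : E} (hy : y ∈ dom E p) :
    extChartAt 𝓘(ℝ, E) p (chi p y) - extChartAt 𝓘(ℝ, E) p p = y := by
  rw [chi, (extChartAt 𝓘(ℝ, E) p).right_inv hy]; abel

theorem chi_mem_source (p : M) {y : E} (hy : y ∈ dom E p) :
    chi p y ∈ (extChartAt 𝓘(ℝ, E) p).source :=
  (extChartAt 𝓘(ℝ, E) p).map_target hy

theorem chi_chart (p : M) {x : M} (hx : x ∈ (extChartAt 𝓘(ℝ, E) p).source) :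
    chi p (extChartAt 𝓘(ℝ, E) p x - extChartAt 𝓘(ℝ, E) p p) = x ∧
      extChartAt 𝓘(ℝ, E) p x - extChartAt 𝓘(ℝ, E) p p ∈ dom E p := by
  constructor
  · rw [chi, add_sub_cancel, (extChartAt 𝓘(ℝ, E) p).left_inv hx]
  · simp only [dom, Set.mem_ofPred_eq, add_sub_cancel]
    exact (extChartAt 𝓘(ℝ, E) p).map_source hx

theorem chi_smooth [IsManifold 𝓘(ℝ, E) ∞ M] (p : M) :
    ContMDiffOn 𝓘(ℝ, E) 𝓘(ℝ, E) ∞ (chi (E := E) p) (dom E p) := by
  have h1 : ContMDiffOn 𝓘(ℝ, E) 𝓘(ℝ, E) ∞ (extChartAt 𝓘(ℝ, E) p).symm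
      (extChartAt 𝓘(ℝ, E) p).target := contMDiffOn_extChartAt_symm p
  have h2 : ContMDiff 𝓘(ℝ, E) 𝓘(ℝ, E) ∞ (fun y : E => extChartAt 𝓘(ℝ, E) p p + y) := by
    rw [contMDiff_iff_contDiff]
    fun_prop
  exact h1.comp h2.contMDiffOn (fun y hy => hy)

theorem chart_smooth [IsManifold 𝓘(ℝ, E) ∞ M] (p : M) :
    ContMDiffOn 𝓘(ℝ, E) 𝓘(ℝ, E) ∞ 
      (fun x => extChartAt 𝓘(ℝ, E) p x - extChartAt 𝓘(ℝ, E) p p)
      (extChartAt 𝓘(ℝ, E) p).source := by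
  have h1 : ContMDiffOn 𝓘(ℝ, E) 𝓘(ℝ, E) ∞ (extChartAt 𝓘(ℝ, E) p)
      (extChartAt 𝓘(ℝ, E) p).source := by
    rw [extChartAt_source]
    exact contMDiffOn_extChartAt
  have h2 : ContMDiff 𝓘(ℝ, E) 𝓘(ℝ, E) ∞ (fun y : E => y - extChartAt 𝓘(ℝ, E) p p) := by
    rw [contMDiff_iff_contDiff]
    fun_prop
  exact h2.comp_contMDiffOn h1

theorem hfd_aux [IsManifold 𝓘(ℝ, E) ∞ M] {Γ : Type*} [Group Γ]
    [MulAction Γ M] (hs : ∀ γ : Γ, ContMDiff 𝓘(ℝ, E) 𝓘(ℝ, E) ∞ (fun x : M => γ • x))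
    (p : M) (hp : ∀ γ : Γ, γ • p = p) (ρ : Γ →* (E ≃L[ℝ] E))
    (hρ : ∀ (γ : Γ) (v : E),
      (mfderiv 𝓘(ℝ, E) 𝓘(ℝ, E) (fun x : M => γ • x) p : E →L[ℝ] E) v = ρ γ v) (γ : Γ) :
    HasFDerivAt (fun y => extChartAt 𝓘(ℝ, E) p (γ • chi p y) - extChartAt 𝓘(ℝ, E) p p)
      (ρ γ : E →L[ℝ] E) 0 := by
  have hinf : (∞ : WithTop ℕ∞) ≠ 0 := by decide
  have h2 : (writtenInExtChartAt 𝓘(ℝ, E) 𝓘(ℝ, E) p (fun x : M => γ • x)) = 
     fun z => extChartAt 𝓘(ℝ, E) p (γ • (extChartAt 𝓘(ℝ, E) p).symm z) := by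
    funext z
    simp only [writtenInExtChartAt, Function.comp_apply, hp]
  obtain ⟨A, h1, h3⟩ : ∃ A : E →L[ℝ] E,
      HasFDerivWithinAt (writtenInExtChartAt 𝓘(ℝ, E) 𝓘(ℝ, E) p (fun x : M => γ • x)) A
        (Set.range 𝓘(ℝ, E)) (extChartAt 𝓘(ℝ, E) p p) ∧ ∀ v, A v = ρ γ v :=
    ⟨mfderiv 𝓘(ℝ, E) 𝓘(ℝ, E) (fun x : M => γ • x) p,
      ((hs γ).mdifferentiableAt hinf (x := p)).hasMFDerivAt.2, hρ γ⟩
  have h3' : A = (ρ γ : E →L[ℝ] E) := by
    ext v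
    exact h3 v
  rw [h3', h2, modelWithCornersSelf_coe, Set.range_id, hasFDerivWithinAt_univ] at h1
  have h4 : HasFDerivAt (fun z => extChartAt 𝓘(ℝ, E) p (γ • (extChartAt 𝓘(ℝ, E) p).symm z))
      (ρ γ : E →L[ℝ] E) (extChartAt 𝓘(ℝ, E) p p + 0) := by
    rw [add_zero]
    exact h1
  have h5 := h4.comp (0 : E) ((hasFDerivAt_id (𝕜 := ℝ) (0 : E)).const_add (extChartAt 𝓘(ℝ, E) p p))
  have h6 := h5.sub_const (extChartAt 𝓘(ℝ, E) p p)
  convert! h6 using 1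

/-- local data from a smooth action with a fixed point -/
theorem exists_locData [FiniteDimensional ℝ E] [IsManifold 𝓘(ℝ, E) ∞ M] {Γ : Type*} [Group Γ]
    [MulAction Γ M] (hs : ∀ γ : Γ, ContMDiff 𝓘(ℝ, E) 𝓘(ℝ, E) ∞ (fun x : M => γ • x))
    (p : M) (hp : ∀ γ : Γ, γ • p = p) (ρ : Γ →* (E ≃L[ℝ] E))
    (hρ : ∀ (γ : Γ) (v : E),
      (mfderiv 𝓘(ℝ, E) 𝓘(ℝ, E) (fun x : M => γ • x) p : E →L[ℝ] E) v = ρ γ v) :
    ∃ D : LocData (M := M) ρ, D.χ = chi p ∧ ball 0 D.r0 ⊆ dom E p := by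
  obtain ⟨r0, hr0, hr0'⟩ := Metric.isOpen_iff.1 (isOpen_dom (E := E) p) 0 (zero_mem_dom p)
  have key : ∀ γ : Γ, ∃ F : E → E, ContDiff ℝ ∞ F ∧ F 0 = 0 ∧ 
      HasFDerivAt F (ρ γ : E →L[ℝ] E) 0 ∧ ∀ᶠ y in 𝓝 (0 : E), γ • chi p y = chi p (F y) := by
    intro γ
    let S : Set E := {y | y ∈ dom E p ∧ γ • chi p y ∈ (extChartAt 𝓘(ℝ, E) p).source}
    have hS : IsOpen S := by
      have hc : ContinuousOn (fun y => γ • chi p y) (dom E p) :=
        (hs γ).continuous.comp_continuousOn (chi_smooth p).continuousOn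
      exact hc.isOpen_inter_preimage (isOpen_dom p) (isOpen_extChartAt_source p)
    have h0S : (0 : E) ∈ S := by
      refine ⟨zero_mem_dom p, ?_⟩
      rw [chi_zero, hp]
      exact mem_extChartAt_source p
    let f : E → E := fun y => extChartAt 𝓘(ℝ, E) p (γ • chi p y) - extChartAt 𝓘(ℝ, E) p p
    have hf : ContDiffOn ℝ ∞ f S := by
      rw [← contMDiffOn_iff_contDiffOn]
      have h1 : ContMDiffOn 𝓘(ℝ, E) 𝓘(ℝ, E) ∞ (fun y : E => γ • chi p y) S :=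
        (hs γ).comp_contMDiffOn ((chi_smooth p).mono (fun y hy => hy.1))
      exact (chart_smooth p).comp h1 (fun y hy => hy.2)
    have hf0 : f 0 = 0 := by
      simp only [f, chi_zero, hp, sub_self]
    have hfd : HasFDerivAt f (ρ γ : E →L[ℝ] E) 0 := hfd_aux hs p hp ρ hρ γ
    obtain ⟨F, hF1, hF2⟩ := exists_global_ext f S hS h0S hf
    refine ⟨F, hF1, ?_, ?_, ?_⟩
    · rw [hF2.eq_of_nhds, hf0]
    · exact hfd.congr_of_eventuallyEq hF2
    · filter_upwards [hF2, hS.mem_nhds h0S] with y hy hyS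
      rw [hy]
      exact (chi_chart p hyS.2).1.symm
  choose F hF1 hF2 hF3 hF4 using key
  exact ⟨⟨chi p, r0, hr0, (chi_inj p).mono hr0', (chi_smooth p).continuousOn.mono hr0', F, hF1, hF2,
    hF3, hF4⟩, rfl, hr0'⟩

end B

/-- Global linearization from the local one (`hloc`) and simultaneous contraction (`hcon`).
Intended use: `global_lin_of hs p hp ρ hρ (fun D => local_lin hn ρ hfin hcoc D)
(fun z w _ hr => contract_two hn ρ hcoc z w hr)`. -/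
theorem global_lin_of {E : Type*} [NormedAddCommGroup E] [InnerProductSpace ℝ E]
    [FiniteDimensional ℝ E] {M : Type*} [TopologicalSpace M]
    [ChartedSpace E M] [IsManifold 𝓘(ℝ, E) ∞ M] {Γ : Type*} [Group Γ]
    [MulAction Γ M] (hs : ∀ γ : Γ, ContMDiff 𝓘(ℝ, E) 𝓘(ℝ, E) ∞ (fun x : M => γ • x))
    (p : M) (hp : ∀ γ : Γ, γ • p = p) (ρ : Γ →* (E ≃L[ℝ] E))
    (hρ : ∀ (γ : Γ) (v : E),
      (mfderiv 𝓘(ℝ, E) 𝓘(ℝ, E) (fun x : M => γ • x) p : E →L[ℝ] E) v = ρ γ v)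
    (hloc : [ContinuousConstSMul Γ M] → ∀ D : LocData (M := M) ρ,
      ∃ r > 0, ∃ u : E → E, ContDiffOn ℝ ∞ u (ball 0 r) ∧
        HasFDerivAt u (ContinuousLinearMap.id ℝ E) 0 ∧ u 0 = 0 ∧
        (∀ z ∈ ball (0 : E) r, u z ∈ ball (0 : E) D.r0) ∧
        ∀ (γ : Γ) (z : E), z ∈ ball (0 : E) r → ρ γ z ∈ ball (0 : E) r →
          γ • D.χ (u z) = D.χ (u (ρ γ z)))
    (hcon : ∀ (z w : E) (r : ℝ), 0 < r → ∃ γ : Γ, ‖ρ γ z‖ < r ∧ ‖ρ γ w‖ < r) :
    ∃ (U : Set M) (φ : M → E) (ψ : E → M), IsOpen U ∧ p ∈ U ∧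
      (∀ (γ : Γ) (x : M), x ∈ U → γ • x ∈ U) ∧
      ContMDiffOn 𝓘(ℝ, E) 𝓘(ℝ, E) ∞ φ U ∧ ContMDiff 𝓘(ℝ, E) 𝓘(ℝ, E) ∞ ψ ∧
      (∀ v, ψ v ∈ U ∧ φ (ψ v) = v) ∧ (∀ x ∈ U, ψ (φ x) = x) ∧ φ p = 0 ∧
      ∀ (γ : Γ), ∀ x ∈ U, φ (γ • x) = ρ γ (φ x) := by
  obtain ⟨D, hDχ, hDr⟩ := exists_locData hs p hp ρ hρ
  have : ContinuousConstSMul Γ M := ⟨fun γ => (hs γ).continuous⟩
  obtain ⟨r, hr, u, hu, hud, hu0, hur, heq⟩ := hloc D
  obtain ⟨s, hs0, hsr, v, hvo, hvu, hvs⟩ := local_inv u hr hu hud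
  rw [hDχ] at heq
  have hBr : ball (0 : E) s ⊆ ball 0 r := ball_subset_ball hsr
  have hudom : ∀ z ∈ ball (0 : E) s, u z ∈ dom E p := fun z hz => hDr (hur z (hBr hz))
  set X : E → M := fun z => chi p (u z) with hX
  have hXinj : Set.InjOn X (ball 0 s) := by
    intro z hz w hw h
    have h1 : u z = u w := chi_inj p (hudom z hz) (hudom w hw) h
    rw [← hvu z hz, ← hvu w hw, h1]
  have heq' : ∀ (γ : Γ) (z : E), z ∈ ball (0 : E) s → ρ γ z ∈ ball (0 : E) s →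
      γ • X z = X (ρ γ z) := fun γ z hz hz' => heq γ z (hBr hz) (hBr hz')
  have hXs : ContMDiffOn 𝓘(ℝ, E) 𝓘(ℝ, E) ∞ X (ball 0 s) :=
    (chi_smooth p).comp ((contMDiffOn_iff_contDiffOn.2 hu).mono hBr) hudom
  set θ : M → E := fun x => v (extChartAt 𝓘(ℝ, E) p x - extChartAt 𝓘(ℝ, E) p p) with hθ
  have hW : X '' ball 0 s = (extChartAt 𝓘(ℝ, E) p).source ∩
      (fun x => extChartAt 𝓘(ℝ, E) p x - extChartAt 𝓘(ℝ, E) p p) ⁻¹' (u '' ball 0 s) := by
    ext x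
    constructor
    · rintro ⟨z, hz, rfl⟩
      refine ⟨chi_mem_source p (hudom z hz), ?_⟩
      simp only [Set.mem_preimage, hX]
      rw [chart_chi p (hudom z hz)]
      exact ⟨z, hz, rfl⟩
    · rintro ⟨hx, z, hz, hzx⟩
      refine ⟨z, hz, ?_⟩
      simp only [hX]
      rw [hzx]
      exact (chi_chart p hx).1
  have hWo : IsOpen (X '' ball 0 s) := by
    rw [hW]
    exact (chart_smooth p).continuousOn.isOpen_inter_preimage (isOpen_extChartAt_source p) hvo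
  have hθX : ∀ z ∈ ball (0 : E) s, θ (X z) = z := by
    intro z hz
    simp only [hθ, hX]
    rw [chart_chi p (hudom z hz), hvu z hz]
  have hθs : ContMDiffOn 𝓘(ℝ, E) 𝓘(ℝ, E) ∞ θ (X '' ball 0 s) := by
    have h1 := (contMDiffOn_iff_contDiffOn.2 hvs)
    refine h1.comp ((chart_smooth p).mono ?_) ?_
    · rw [hW]; exact Set.inter_subset_left
    · rw [hW]; exact fun x hx => hx.2
  have hsmall : ∀ z w : E, ∃ γ : Γ, ρ γ z ∈ ball (0 : E) s ∧ ρ γ w ∈ ball (0 : E) s := by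
    intro z w
    obtain ⟨γ, h1, h2⟩ := hcon z w s hs0
    exact ⟨γ, by simpa using h1, by simpa using h2⟩
  choose g hg using fun z => hsmall z z
  have hρi : ∀ (γ : Γ) (z : E), ρ γ⁻¹ (ρ γ z) = z := by
    intro γ z
    have : (ρ γ⁻¹ * ρ γ) z = z := by rw [← map_mul, inv_mul_cancel, map_one]; rfl
    exact this
  have hρi' : ∀ (γ : Γ) (z : E), ρ γ (ρ γ⁻¹ z) = z := by
    intro γ z
    have : (ρ γ * ρ γ⁻¹) z = z := by rw [← map_mul, mul_inv_cancel, map_one]; rfl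
    exact this
  have hρm : ∀ (γ δ : Γ) (z : E), ρ (γ * δ) z = ρ γ (ρ δ z) := by
    intro γ δ z
    rw [map_mul]; rfl
  set ψ : E → M := fun z => (g z)⁻¹ • X (ρ (g z) z) with hψd
  have hψ : ∀ (γ : Γ) (z : E), ρ γ z ∈ ball (0 : E) s → ψ z = γ⁻¹ • X (ρ γ z) := by
    intro γ z hz
    have h1 := heq' (γ * (g z)⁻¹) (ρ (g z) z) (hg z).1 (by rw [hρm, hρi]; exact hz)
    rw [hρm, hρi] at h1
    rw [← h1, smul_smul, ← mul_assoc, inv_mul_cancel, one_mul]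
  have hψinj : Function.Injective ψ := by
    intro z w h
    obtain ⟨γ, h1, h2⟩ := hsmall z w
    rw [hψ γ z h1, hψ γ w h2] at h
    have h3 := hXinj h1 h2 (MulAction.injective _ h)
    exact (ρ γ).injective h3
  have hψe : ∀ (γ : Γ) (z : E), ψ (ρ γ z) = γ • ψ z := by
    intro γ z
    have h1 := (hg (ρ γ z)).1
    rw [hψ (g (ρ γ z) * γ) z (by rw [hρm]; exact h1), smul_smul, mul_inv_rev, ← mul_assoc,
      mul_inv_cancel, one_mul, hρm]
  have hψ0 : ψ 0 = p := by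
    rw [hψ 1 0 (by simp [hs0])]
    simp [hX, hu0, chi_zero]
  have hψs : ContMDiff 𝓘(ℝ, E) 𝓘(ℝ, E) ∞ ψ := by
    intro z
    have h1 : ContMDiffOn 𝓘(ℝ, E) 𝓘(ℝ, E) ∞ (fun y => (g z)⁻¹ • X (ρ (g z) y))
        ((ρ (g z)) ⁻¹' ball 0 s) := by
      refine (hs (g z)⁻¹).comp_contMDiffOn (hXs.comp ?_ (fun y hy => hy))
      exact ((ρ (g z)).contDiff.contMDiff).contMDiffOn
    have h2 : (ρ (g z)) ⁻¹' ball (0 : E) s ∈ 𝓝 z :=
      (isOpen_ball.preimage (ρ (g z)).continuous).mem_nhds (hg z).1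
    refine (h1.contMDiffAt h2).congr_of_eventuallyEq ?_
    filter_upwards [h2] with y hy
    exact hψ (g z) y hy
  have hinv : ∀ z, Function.invFun ψ (ψ z) = z := Function.leftInverse_invFun hψinj
  have hloc : ∀ (γ : Γ) (x : M), γ • x ∈ X '' ball 0 s →
      ψ (ρ γ⁻¹ (θ (γ • x))) = x := by
    rintro γ x ⟨y, hy, hyx⟩
    rw [← hyx, hθX y hy, hψ γ _ (by rw [hρi']; exact hy), hρi', hyx, smul_smul, inv_mul_cancel,
      one_smul]
  have hmem : ∀ z, (g z) • ψ z ∈ X '' ball 0 s := by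
    intro z
    refine ⟨ρ (g z) z, (hg z).1, ?_⟩
    rw [hψd, smul_smul, mul_inv_cancel, one_smul]
  refine ⟨Set.range ψ, Function.invFun ψ, ψ, ?_, ⟨0, hψ0⟩, ?_, ?_, hψs, fun z => ⟨⟨z, rfl⟩, hinv z⟩,
    ?_, ?_, ?_⟩
  · rw [isOpen_iff_mem_nhds]
    rintro x ⟨z, rfl⟩
    have h1 : (fun x : M => g z • x) ⁻¹' (X '' ball 0 s) ∈ 𝓝 (ψ z) :=
      (hWo.preimage (hs (g z)).continuous).mem_nhds (hmem z)
    filter_upwards [h1] with x hx
    exact ⟨_, hloc (g z) x hx⟩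
  · rintro γ x ⟨z, rfl⟩
    exact ⟨ρ γ z, hψe γ z⟩
  · rintro x ⟨z, rfl⟩
    apply ContMDiffAt.contMDiffWithinAt
    have h1 : (fun x : M => g z • x) ⁻¹' (X '' ball 0 s) ∈ 𝓝 (ψ z) :=
      (hWo.preimage (hs (g z)).continuous).mem_nhds (hmem z)
    have h2 : ContMDiffOn 𝓘(ℝ, E) 𝓘(ℝ, E) ∞ (fun x => ρ (g z)⁻¹ (θ (g z • x)))
        ((fun x : M => g z • x) ⁻¹' (X '' ball 0 s)) := by
      refine ((ρ (g z)⁻¹).contDiff.contMDiff).comp_contMDiffOn ?_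
      exact hθs.comp (hs (g z)).contMDiffOn (fun x hx => hx)
    refine (h2.contMDiffAt h1).congr_of_eventuallyEq ?_
    filter_upwards [h1] with x hx
    conv_lhs => rw [← hloc (g z) x hx]
    exact hinv _
  · rintro x ⟨z, rfl⟩
    rw [hinv]
  · rw [← hψ0, hinv]
  · rintro γ x ⟨z, rfl⟩
    rw [← hψe, hinv, hinv]

end LatLin
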