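import Pool.Agent.Lib.MP_2392aa_gt.Geom

/-! The tower of local coordinate maps indexed by `SL(E)` (for MP_2392aa_gt). -/

open scoped ContDiff
open Metric

namespace LatLin

variable {E : Type*} [NormedAddCommGroup E] [NormedSpace ℝ E] [FiniteDimensional ℝ E]
  {Γ M : Type*} [Group Γ] [TopologicalSpace M] [MulAction Γ M] {ρ : Γ →* (E ≃L[ℝ] E)}

theorem sz_one : sz (1 : E ≃L[ℝ] E) ≤ 1 :=
  sz_le_of zero_le_one (fun x => by rw [one_mul]; exact le_rfl)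
    (fun x => by rw [inv_one, one_mul]; exact le_rfl)

theorem finite_bound {S : Set Γ} (hS : S.Finite) (D : LocData (M := M) ρ) (ra : ℝ) (m : ℕ) :
    ∃ A : ℝ, 0 ≤ A ∧ ∀ s ∈ S, ∀ x ∈ closedBall (0 : E) ra, ‖iteratedFDeriv ℝ m (D.F s) x‖ ≤ A := by
  have h1 : ∀ s : Γ, ∃ A : ℝ, 0 ≤ A ∧ ∀ x ∈ closedBall (0 : E) ra, ‖iteratedFDeriv ℝ m (D.F s) x‖ ≤ A := by
    intro s
    have hc : Continuous (fun x => iteratedFDeriv ℝ m (D.F s) x) :=
      (D.F_smooth s).continuous_iteratedFDeriv (by exact_mod_cast le_top)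
    obtain ⟨A, hA⟩ := (isCompact_closedBall (0 : E) ra).exists_bound_of_continuousOn hc.continuousOn
    exact ⟨max A 0, le_max_right _ _, fun x hx => (hA x hx).trans (le_max_left _ _)⟩
  choose A hA0 hA using h1
  refine ⟨∑ s ∈ hS.toFinset, A s, Finset.sum_nonneg fun s _ => hA0 s, fun s hs x hx => ?_⟩
  exact (hA s x hx).trans (Finset.single_le_sum (f := A) (fun i _ => hA0 i) (hS.mem_toFinset.mpr hs))

theorem iter_comp (m : ℕ) (f : E → E) (hf : ContDiff ℝ ∞ f) (a b : E ≃L[ℝ] E) (y : E) :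
    ‖iteratedFDeriv ℝ m (fun y => a (f (b y))) y‖
      ≤ ‖(a : E →L[ℝ] E)‖ * (‖iteratedFDeriv ℝ m f (b y)‖ * ‖(b : E →L[ℝ] E)‖ ^ m) := by
  have hfm : ContDiff ℝ m f := hf.of_le (by exact_mod_cast le_top)
  have h1 : iteratedFDeriv ℝ m (fun y => a (f (b y))) y
      = (a : E →L[ℝ] E).compContinuousMultilinearMap (iteratedFDeriv ℝ m (fun y => f (b y)) y) := by
    have := (a : E →L[ℝ] E).iteratedFDeriv_comp_left (f := fun y => f (b y)) (x := y) (i := m)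
      ((hfm.comp b.contDiff).contDiffAt) le_rfl
    exact this
  have h2 : iteratedFDeriv ℝ m (fun y => f (b y)) y
      = (iteratedFDeriv ℝ m f (b y)).compContinuousLinearMap (fun _ => (b : E →L[ℝ] E)) :=
    (b : E →L[ℝ] E).iteratedFDeriv_comp_right hfm y le_rfl
  rw [h1, h2]
  refine (ContinuousLinearMap.norm_compContinuousMultilinearMap_le _ _).trans ?_
  refine mul_le_mul_of_nonneg_left ?_ (norm_nonneg _)
  refine (ContinuousMultilinearMap.norm_compContinuousLinearMap_le _ _).trans ?_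
  simp

theorem tower (hfin : ∀ R : ℝ, {γ : Γ | sz (ρ γ) ≤ R}.Finite)
    (hcoc : ∃ R : ℝ, ∀ g : E ≃L[ℝ] E, IsSL g → ∃ γ : Γ, sz (ρ γ * g⁻¹) ≤ R)
    (D : LocData (M := M) ρ) :
    ∃ B : (E ≃L[ℝ] E) → E → M, (∀ y, B 1 y = D.χ y) ∧
      ∀ β : ℝ, ∃ r > 0, ∃ K : ℕ → ℝ, ∀ (δ : Γ) (g g' : E ≃L[ℝ] E), IsSL g → IsSL g' →
        sz (g' * ρ δ * g⁻¹) ≤ β → ∃ h : E → E, ContDiff ℝ ∞ h ∧ h 0 = 0 ∧
          HasFDerivAt h (((g' * ρ δ * g⁻¹)⁻¹ : E ≃L[ℝ] E) : E →L[ℝ] E) 0 ∧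
          (∀ m, ∀ y ∈ closedBall (0 : E) 1, ‖iteratedFDeriv ℝ m h y‖ ≤ K m) ∧
          ∀ y ∈ ball (0 : E) r, δ⁻¹ • B g' y = B g (h y) := by
  classical
  obtain ⟨R0, hR0⟩ := hcoc
  have hex : ∀ g : E ≃L[ℝ] E, ∃ γ : Γ, (g = 1 → γ = 1) ∧ (IsSL g → sz (ρ γ * g⁻¹) ≤ max R0 1) := by
    intro g
    by_cases h1 : g = 1
    · subst h1
      refine ⟨1, fun _ => rfl, fun _ => ?_⟩
      rw [map_one, inv_one, mul_one]
      exact sz_one.trans (le_max_right _ _)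
    · by_cases h2 : IsSL g
      · obtain ⟨γ, hγ⟩ := hR0 g h2
        exact ⟨γ, fun h => absurd h h1, fun _ => hγ.trans (le_max_left _ _)⟩
      · exact ⟨1, fun h => absurd h h1, fun h => absurd h h2⟩
  choose γ hγ1 hγ2 using hex
  set R1 : ℝ := max R0 1 with hR1
  have hR1pos : 1 ≤ R1 := le_max_right _ _
  set c : (E ≃L[ℝ] E) → (E ≃L[ℝ] E) := fun g => ρ (γ g) * g⁻¹ with hc
  refine ⟨fun g y => (γ g)⁻¹ • D.χ (c g y), fun y => ?_, fun β => ?_⟩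
  · simp only [hc, hγ1 1 rfl, map_one, inv_one, mul_one, one_smul]
    rfl
  · set S : Set Γ := {s | sz (ρ s) ≤ R1 * β * R1} with hS
    have hSf : S.Finite := hfin _
    have hev : ∀ᶠ y in nhds (0 : E), ∀ s ∈ S, s • D.χ y = D.χ (D.F s y) :=
      (Set.Finite.eventually_all hSf).mpr (fun s _ => D.F_act s)
    obtain ⟨rS, hrS, hact⟩ := Metric.eventually_nhds_iff_ball.mp hev
    have hA := fun m => finite_bound hSf D R1 m
    choose A hA0 hA using hA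
    refine ⟨rS / R1, div_pos hrS (by linarith), fun m => R1 * (A m * R1 ^ m), ?_⟩
    intro δ g g' hg hg' hsz
    set s : Γ := γ g' * δ * (γ g)⁻¹ with hs
    have hρs : ρ s = c g' * (g' * ρ δ * g⁻¹) * (c g)⁻¹ := by
      simp only [hs, hc, map_mul, map_inv, mul_inv_rev, inv_inv]
      group
    have hcg : sz (c g) ≤ R1 := hγ2 g hg
    have hcg' : sz (c g') ≤ R1 := hγ2 g' hg'
    have hβ : 0 ≤ β := (sz_nonneg _).trans hsz
    have hsS : s⁻¹ ∈ S := by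
      change sz (ρ s⁻¹) ≤ _
      rw [map_inv, sz_inv, hρs]
      calc sz (c g' * (g' * ρ δ * g⁻¹) * (c g)⁻¹)
          ≤ sz (c g' * (g' * ρ δ * g⁻¹)) * sz (c g)⁻¹ := sz_mul _ _
        _ ≤ (sz (c g') * sz (g' * ρ δ * g⁻¹)) * sz (c g) := by
            rw [sz_inv]
            exact mul_le_mul_of_nonneg_right (sz_mul _ _) (sz_nonneg _)
        _ ≤ (R1 * β) * R1 := by
            apply mul_le_mul _ hcg (sz_nonneg _) (by positivity)
            exact mul_le_mul hcg' hsz (sz_nonneg _) (by linarith)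
    refine ⟨fun y => (c g)⁻¹ (D.F s⁻¹ (c g' y)), ?_, ?_, ?_, ?_, ?_⟩
    · exact (c g)⁻¹.contDiff.comp ((D.F_smooth s⁻¹).comp (c g').contDiff)
    · simp [D.F_zero]
    · have h1 : HasFDerivAt (fun y => (c g)⁻¹ (D.F s⁻¹ (c g' y)))
          ((((c g)⁻¹ : E ≃L[ℝ] E) : E →L[ℝ] E).comp
            (((ρ s⁻¹ : E ≃L[ℝ] E) : E →L[ℝ] E).comp ((c g' : E ≃L[ℝ] E) : E →L[ℝ] E))) 0 := by
        apply ((c g)⁻¹ : E ≃L[ℝ] E).hasFDerivAt.comp
        have h2 : HasFDerivAt (D.F s⁻¹) ((ρ s⁻¹ : E ≃L[ℝ] E) : E →L[ℝ] E) (c g' 0) := by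
          rw [map_zero]
          exact D.F_deriv s⁻¹
        exact h2.comp 0 (c g').hasFDerivAt
      have h3 : ((((c g)⁻¹ : E ≃L[ℝ] E) : E →L[ℝ] E).comp
            (((ρ s⁻¹ : E ≃L[ℝ] E) : E →L[ℝ] E).comp ((c g' : E ≃L[ℝ] E) : E →L[ℝ] E)))
          = (((g' * ρ δ * g⁻¹)⁻¹ : E ≃L[ℝ] E) : E →L[ℝ] E) := by
        have h4 : (c g)⁻¹ * (ρ s⁻¹ * c g') = (g' * ρ δ * g⁻¹)⁻¹ := by
          rw [map_inv, hρs]
          group
        rw [← h4]
        rfl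
      rw [h3] at h1
      exact h1
    · intro m y hy
      rw [mem_closedBall_zero_iff] at hy
      refine (iter_comp m _ (D.F_smooth s⁻¹) _ _ y).trans ?_
      have hn1 : ‖(((c g)⁻¹ : E ≃L[ℝ] E) : E →L[ℝ] E)‖ ≤ R1 := (le_max_right _ _).trans hcg
      have hn2 : ‖((c g' : E ≃L[ℝ] E) : E →L[ℝ] E)‖ ≤ R1 := (le_max_left _ _).trans hcg'
      have hn3 : c g' y ∈ closedBall (0 : E) R1 := by
        rw [mem_closedBall_zero_iff]
        calc ‖c g' y‖ ≤ sz (c g') * ‖y‖ := norm_le_sz _ _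
          _ ≤ R1 * 1 := mul_le_mul hcg' hy (norm_nonneg _) (by linarith)
          _ = R1 := mul_one _
      apply mul_le_mul hn1 _ (by positivity) (by linarith)
      apply mul_le_mul (hA m s⁻¹ hsS _ hn3) (pow_le_pow_left₀ (norm_nonneg _) hn2 m) (by positivity)
        (hA0 m)
    · intro y hy
      rw [mem_ball_zero_iff] at hy
      have hcy : c g' y ∈ ball (0 : E) rS := by
        rw [mem_ball_zero_iff]
        calc ‖c g' y‖ ≤ sz (c g') * ‖y‖ := norm_le_sz _ _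
          _ ≤ R1 * ‖y‖ := mul_le_mul_of_nonneg_right hcg' (norm_nonneg _)
          _ < R1 * (rS / R1) := mul_lt_mul_of_pos_left hy (by linarith)
          _ = rS := by field_simp
      have h1 : c g ((c g)⁻¹ (D.F s⁻¹ (c g' y))) = D.F s⁻¹ (c g' y) :=
        (c g).apply_symm_apply _
      change δ⁻¹ • (γ g')⁻¹ • D.χ (c g' y) = (γ g)⁻¹ • D.χ (c g ((c g)⁻¹ (D.F s⁻¹ (c g' y))))
      rw [h1, ← hact _ hcy s⁻¹ hsS, smul_smul, smul_smul]
      congr 1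
      rw [hs]
      group

end LatLin
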